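import Pool.Agent.T44.GO.Stm

/-!
# Analytic continuation around `z = 1`
-/

set_option autoImplicit false

open Filter Topology Matrix

namespace Pool.Agent.T44.GO.CONT

open Pool.Agent.T44.GO
open Pool.Agent.Y119.HY

variable {n : ℕ}

/-- the upper half of the disc around one -/
def UU : Set ℂ := Metric.ball 1 1 ∩ {z : ℂ | 0 < z.im}

/-- the part to the right of one -/
def VV : Set ℂ := UU ∩ {z : ℂ | 1 < z.re}

lemma isOpen_U : IsOpen UU := Metric.isOpen_ball.inter (isOpen_lt continuous_const Complex.continuous_im)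

lemma isOpen_V : IsOpen VV := isOpen_U.inter (isOpen_lt continuous_const Complex.continuous_re)

lemma conv_U : Convex ℝ UU := (convex_ball _ _).inter (convex_halfSpace_im_gt 0)

lemma conv_V : Convex ℝ VV := conv_U.inter (convex_halfSpace_re_gt 1)

lemma mem_U {z : ℂ} : z ∈ UU ↔ ‖1 - z‖ < 1 ∧ 0 < z.im := by
  unfold UU
  rw [Set.mem_inter_iff, Metric.mem_ball, dist_comm, dist_eq_norm]
  rfl

lemma mem_V {z : ℂ} : z ∈ VV ↔ (‖1 - z‖ < 1 ∧ 0 < z.im) ∧ 1 < z.re := by
  unfold VV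
  rw [Set.mem_inter_iff, mem_U]
  rfl

lemma re_pos_U {z : ℂ} (h : z ∈ UU) : 0 < z.re := by
  have h1 : (1 - z).re ≤ ‖1 - z‖ := Complex.re_le_norm _
  rw [Complex.sub_re, Complex.one_re] at h1
  linarith [(mem_U.1 h).1]

lemma slit_U {z : ℂ} (h : z ∈ UU) : z ∈ Complex.slitPlane := Or.inl (re_pos_U h)

lemma slit_U' {z : ℂ} (h : z ∈ UU) : 1 - z ∈ Complex.slitPlane := by
  right
  rw [Complex.sub_im, Complex.one_im]
  linarith [(mem_U.1 h).2]

lemma inv_V {z : ℂ} (h : z ∈ VV) : 1 / z ∈ Lens := by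
  obtain ⟨⟨h1, h2⟩, h3⟩ := mem_V.1 h
  have h4 : 1 < ‖z‖ := lt_of_lt_of_le h3 (Complex.re_le_norm z)
  have hz : z ≠ 0 := by
    intro h0
    rw [h0, norm_zero] at h4
    linarith
  rw [mem_Lens]
  constructor
  · rw [norm_div, norm_one, div_lt_one (by linarith)]
    exact h4
  · have e : 1 - 1 / z = -(1 - z) / z := by
      field_simp
      ring
    rw [e, norm_div, norm_neg, div_lt_one (by linarith)]
    linarith

lemma const_on {S : Set ℂ} (hS : IsOpen S) (hc : IsPreconnected S) {F : ℂ → Matrix (Fin n) (Fin n) ℂ}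
    (hF : ∀ z ∈ S, HD F 0 z) {z w : ℂ} (hz : z ∈ S) (hw : w ∈ S) : F z = F w := by
  ext i j
  exact hS.is_const_of_deriv_eq_zero hc
    (fun x hx => ((hF x hx) i j).differentiableAt.differentiableWithinAt)
    (fun x hx => ((hF x hx) i j).deriv) hz hw

lemma an_of_HD {S : Set ℂ} (hS : IsOpen S) {F : ℂ → Matrix (Fin n) (Fin n) ℂ} {F' : ℂ → Matrix (Fin n) (Fin n) ℂ}
    (hF : ∀ z ∈ S, HD F (F' z) z) (i j : Fin n) : AnalyticOnNhd ℂ (fun z => F z i j) S :=
  DifferentiableOn.analyticOnNhd (fun x hx => ((hF x hx) i j).differentiableAt.differentiableWithinAt) hS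

lemma an_mul_const {S : Set ℂ} {F : ℂ → Matrix (Fin n) (Fin n) ℂ} (hF : ∀ i j, AnalyticOnNhd ℂ (fun z => F z i j) S)
    (C : Matrix (Fin n) (Fin n) ℂ) (i j : Fin n) : AnalyticOnNhd ℂ (fun z => (F z * C) i j) S := by
  simp only [Matrix.mul_apply]
  exact Finset.analyticOnNhd_fun_sum _ fun k _ => (hF i k).mul analyticOnNhd_const

lemma an_p4 {S : Set ℂ} {g : ℂ → ℂ} {X : ℂ → Matrix (Fin n) (Fin n) ℂ} (hg : AnalyticOnNhd ℂ g S)
    (hs : ∀ z ∈ S, g z ∈ Complex.slitPlane) (hX : ∀ i j, AnalyticOnNhd ℂ (fun z => X z i j) S) (d : ℕ)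
    (F : MvPolynomial (Option (Option (Option (Fin n × Fin n)))) ℂ) :
    AnalyticOnNhd ℂ (fun z => MvPolynomial.eval (p4 d (g z) (X z)) F) S := by
  have hlog : AnalyticOnNhd ℂ (fun z => Complex.log (g z)) S := fun z hz => (hg z hz).clog (hs z hz)
  have hdiv : AnalyticOnNhd ℂ (fun z => Complex.log (g z) / (d : ℂ)) S := by
    simp only [div_eq_mul_inv]
    exact hlog.mul analyticOnNhd_const
  induction F using MvPolynomial.induction_on with
  | C a =>
    simp only [MvPolynomial.eval_C]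
    exact analyticOnNhd_const
  | add p q hp hq =>
    simp only [map_add]
    exact hp.add hq
  | mul_X p i hp =>
    simp only [map_mul, MvPolynomial.eval_X]
    refine hp.mul ?_
    rcases i with _ | _ | _ | x
    · exact fun z hz => (hdiv.neg z hz).cexp
    · exact fun z hz => (hdiv z hz).cexp
    · exact hlog
    · exact hX x.1 x.2

lemma zero_of_real {f : ℂ → ℂ} (hf : AnalyticOnNhd ℂ f Lens) (h : ∀ x : ℝ, 0 < x → x < 1 → f x = 0) {z : ℂ}
    (hz : z ∈ Lens) : f z = 0 := by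
  have hhalf : ((1 / 2 : ℝ) : ℂ) ∈ Lens := real_mem_Lens (by norm_num) (by norm_num)
  refine hf.eqOn_zero_of_preconnected_of_frequently_eq_zero preconn_Lens hhalf ?_ hz
  have h1 : Tendsto (fun x : ℝ => (x : ℂ)) (𝓝[≠] (1 / 2 : ℝ)) (𝓝[≠] ((1 / 2 : ℝ) : ℂ)) := by
    refine tendsto_nhdsWithin_iff.2 ⟨(Complex.continuous_ofReal.tendsto _).mono_left nhdsWithin_le_nhds, ?_⟩
    filter_upwards [self_mem_nhdsWithin] with x hx hx'
    exact hx (Complex.ofReal_injective hx')
  refine h1.frequently (Eventually.frequently ?_)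
  have h2 : ∀ᶠ x : ℝ in 𝓝[≠] (1 / 2 : ℝ), x ∈ Set.Ioo (0 : ℝ) 1 :=
    mem_nhdsWithin_of_mem_nhds (Ioo_mem_nhds (by norm_num) (by norm_num))
  filter_upwards [h2] with x hx
  exact h x hx.1 hx.2

lemma zero_of_open {f : ℂ → ℂ} {S T : Set ℂ} (hf : AnalyticOnNhd ℂ f S) (hS : IsPreconnected S) (hT : IsOpen T)
    {z₀ : ℂ} (h0 : z₀ ∈ S) (h1 : z₀ ∈ T) (h : ∀ x ∈ T, x ∈ S → f x = 0) (hSo : IsOpen S) {z : ℂ} (hz : z ∈ S) :
    f z = 0 := by
  refine hf.eqOn_zero_of_preconnected_of_eventuallyEq_zero hS h0 ?_ hz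
  filter_upwards [hT.mem_nhds h1, hSo.mem_nhds h0] with x hx hx'
  exact h x hx hx'

/-- the point in the lens and in the upper half -/
noncomputable def z1 : ℂ := ⟨1 / 2, 1 / 2⟩

/-- the point to the right of one -/
noncomputable def z2 : ℂ := ⟨5 / 4, 1 / 4⟩

lemma norm_lt_one_of {z : ℂ} (h : z.re * z.re + z.im * z.im < 1) : ‖z‖ < 1 := by
  rw [Complex.norm_def, Real.sqrt_lt' one_pos, Complex.normSq_apply]
  linarith

lemma z1_Lens : z1 ∈ Lens := by
  rw [mem_Lens]
  constructor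
  · apply norm_lt_one_of
    norm_num [z1]
  · apply norm_lt_one_of
    norm_num [z1]

lemma z1_U : z1 ∈ UU := by
  rw [mem_U]
  exact ⟨(mem_Lens.1 z1_Lens).2, by norm_num [z1]⟩

lemma z2_V : z2 ∈ VV := by
  rw [mem_V]
  refine ⟨⟨?_, by norm_num [z2]⟩, by norm_num [z2]⟩
  apply norm_lt_one_of
  norm_num [z2]

variable {A B J : Matrix (Fin n) (Fin n) ℂ} {H : ℕ → Matrix (Fin n) (Fin n) ℂ}

lemma upper (hdet : J.det ≠ 0) (hA : A ^ n = 0) (hAJ : A.transpose * J + J * A = 0) (hB : (-B) ^ n = 0)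
    (hBJ : B.transpose * J + J * B = 0) (hH : Sol A B H) :
    ∃ (Z : ℂ → Matrix (Fin n) (Fin n) ℂ) (M Mi : Matrix (Fin n) (Fin n) ℂ), M * Mi = 1 ∧ Mi.transpose * J * Mi = J ∧
      (∀ z ∈ UU, HD Z (Gm A B z * Z z) z) ∧ (∀ z ∈ UU, (Z z).transpose * J * Z z = J) ∧
      ∀ z ∈ Lens, Yf A H z = Z z * M := by
  have hAJ' : (-A).transpose * J + J * (-A) = 0 := by
    rw [transpose_neg, neg_mul, mul_neg, ← neg_add, hAJ, neg_zero]
  have hBJ' : (-B).transpose * J + J * (-B) = 0 := by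
    rw [transpose_neg, neg_mul, mul_neg, ← neg_add, hBJ, neg_zero]
  obtain ⟨K, hK⟩ := exists_sol hB (-A)
  obtain ⟨M, Mi, hMMi, hMiM, hMJ, hconn⟩ := connect hdet hA hAJ hB hBJ hH hK
  have hMiJ : Mi.transpose * J * Mi = J := by
    calc Mi.transpose * J * Mi = Mi.transpose * (M.transpose * J * M) * Mi := by rw [hMJ]
      _ = (M * Mi).transpose * J * (M * Mi) := by rw [transpose_mul]; simp only [Matrix.mul_assoc]
      _ = J := by rw [hMMi, transpose_one, one_mul, mul_one]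
  have hZd : ∀ z ∈ UU, HD (fun z => Yf (-B) K (1 - z)) (Gm A B z * Yf (-B) K (1 - z)) z := by
    intro z hz
    have h1 := Yf_ode hK hB (mem_U.1 hz).1 (slit_U' hz)
    have h2 : HasDerivAt (fun w : ℂ => 1 - w) (-1) z := by
      simpa using (hasDerivAt_id z).const_sub 1
    refine (h1.comp h2).congr ?_
    rw [← smul_mul_assoc]
    congr 1
    unfold Gm
    rw [sub_sub_cancel, smul_neg, smul_neg]
    rw [← neg_add, neg_smul, one_smul, neg_neg, add_comm]
  obtain ⟨Z, hZ⟩ : ∃ Z : ℂ → Matrix (Fin n) (Fin n) ℂ, Z = fun z => Yf (-B) K (1 - z) := ⟨_, rfl⟩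
  have hZ' : ∀ z, Yf (-B) K (1 - z) = Z z := fun z => by rw [hZ]
  have h1 : (Z z1).transpose * J * Z z1 = J := by
    rw [← hZ']
    exact self_pair hB hBJ' hAJ' hK (symm_Lens z1_Lens)
  simp only [hZ'] at hZd hconn
  refine ⟨Z, M, Mi, hMMi, hMiJ, hZd, ?_, hconn⟩
  intro z hz
  have h2 := const_on isOpen_U conv_U.isPreconnected (F := fun z => (Z z).transpose * J * Z z)
      (fun x hx => pair_HD (Gm_skew hAJ hBJ x) (hZd x hx) (hZd x hx)) hz z1_U
  exact h2.trans h1

lemma inv_HD {D : ℂ → Matrix (Fin n) (Fin n) ℂ} (hD : ∀ w ∈ Lens, HD D (Gm (B - A) B w * D w) w) {z : ℂ}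
    (hz : z ∈ VV) : HD (fun w => D (1 / w)) (Gm A B z * D (1 / z)) z := by
  have hz0 : z ≠ 0 := Complex.slitPlane_ne_zero (slit_U hz.1)
  have hz1 : z - 1 ≠ 0 := by
    intro h0
    have := (mem_V.1 hz).2
    rw [sub_eq_zero.1 h0, Complex.one_re] at this
    exact lt_irrefl _ this
  have hz1' : 1 - z ≠ 0 := by
    intro h0
    exact hz1 (by rw [← neg_sub, h0, neg_zero])
  have h1 := hD (1 / z) (inv_V hz)
  have h2 : HasDerivAt (fun w : ℂ => 1 / w) (-(z ^ 2)⁻¹) z := by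
    simpa using hasDerivAt_inv hz0
  refine (h1.comp h2).congr ?_
  rw [← smul_mul_assoc]
  congr 1
  unfold Gm
  have e1 : (1 : ℂ) - 1 / z = (z - 1) / z := by field_simp
  rw [e1, one_div_one_div, one_div_div, smul_add, smul_smul, smul_smul, smul_sub]
  ext i j
  simp only [Matrix.add_apply, Matrix.sub_apply, Matrix.smul_apply, smul_eq_mul]
  have e2 : -(z ^ 2)⁻¹ * z = -(1 / z) := by field_simp
  have e3 : -(z ^ 2)⁻¹ * (z / (z - 1)) = 1 / (1 - z) + 1 / z := by
    field_simp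
    ring
  rw [e2, e3]
  ring

theorem gen (hdet : J.det ≠ 0) (hA : A ^ n = 0) (hAJ : A.transpose * J + J * A = 0) (hB : (-B) ^ n = 0)
    (hBJ : B.transpose * J + J * B = 0) (hH : Sol A B H) (D : ℂ → Matrix (Fin n) (Fin n) ℂ)
    (hD : ∀ w ∈ Lens, HD D (Gm (B - A) B w * D w) w) :
    ∃ C : Matrix (Fin n) (Fin n) ℂ, (∀ w ∈ Lens, (D w).transpose * J * D w = C.transpose * J * C) ∧
    ∀ (d : ℕ) (F : MvPolynomial (Option (Option (Option (Fin n × Fin n)))) ℂ),
      (∀ w : ℝ, 0 < w → w < 1 → MvPolynomial.eval (p4 d (1 / (w : ℂ)) (D w)) F = 0) ↔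
      ∀ z : ℝ, 0 < z → z < 1 → MvPolynomial.eval (p4 d (z : ℂ) (Yf A H (z : ℂ) * C)) F = 0 := by
  have hu : IsUnit J.det := Ne.isUnit hdet
  have hAJ' : (-A).transpose * J + J * (-A) = 0 := by
    rw [transpose_neg, neg_mul, mul_neg, ← neg_add, hAJ, neg_zero]
  have hBAJ : (B - A).transpose * J + J * (B - A) = 0 := by
    rw [sub_eq_add_neg, transpose_add, add_mul, mul_add]
    calc _ = (B.transpose * J + J * B) + ((-A).transpose * J + J * (-A)) := by abel
      _ = 0 := by rw [hBJ, hAJ', add_zero]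
  obtain ⟨Z, M, Mi, hMMi, hMiJ, hZd, hZZ, hconn⟩ := upper hdet hA hAJ hB hBJ hH
  have hYd : ∀ z ∈ Lens, HD (Yf A H) (Gm A B z * Yf A H z) z := fun z hz =>
    Yf_ode hH hA (mem_Lens.1 hz).1 (slit_Lens hz)
  obtain ⟨Y, hY⟩ : ∃ Y : ℂ → Matrix (Fin n) (Fin n) ℂ, Y = Yf A H := ⟨_, rfl⟩
  rw [← hY] at hYd hconn ⊢
  have hZi : ∀ z ∈ UU, Z z * (J⁻¹ * (Z z).transpose * J) = 1 := by
    intro z hz
    have h1 : (J⁻¹ * (Z z).transpose * J) * Z z = 1 := by
      rw [Matrix.mul_assoc, Matrix.mul_assoc, ← Matrix.mul_assoc _ J, hZZ z hz, nonsing_inv_mul _ hu]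
    exact mul_eq_one_comm.1 h1
  obtain ⟨W, hW⟩ : ∃ W, W = (Z z2).transpose * J * D (1 / z2) := ⟨_, rfl⟩
  obtain ⟨N, hN⟩ : ∃ N, N = J⁻¹ * W := ⟨_, rfl⟩
  have hDZ : ∀ z ∈ VV, D (1 / z) = Z z * N := by
    intro z hz
    have h1 := const_on isOpen_V conv_V.isPreconnected (F := fun z => (Z z).transpose * J * D (1 / z))
        (fun x hx => pair_HD (Gm_skew hAJ hBJ x) (hZd x hx.1) (inv_HD hD hx)) hz z2_V
    rw [hN, hW, ← h1]
    calc D (1 / z) = Z z * (J⁻¹ * (Z z).transpose * J) * D (1 / z) := by rw [hZi z hz.1, one_mul]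
      _ = _ := by simp only [Matrix.mul_assoc]
  refine ⟨Mi * N, ?_, ?_⟩
  · intro w hw
    have h1 := const_Lens (F := fun w => (D w).transpose * J * D w)
        (fun x hx => pair_HD (Gm_skew hBAJ hBJ x) (hD x hx) (hD x hx)) hw (inv_V z2_V)
    rw [h1, hDZ z2 z2_V]
    calc (Z z2 * N).transpose * J * (Z z2 * N) = N.transpose * ((Z z2).transpose * J * Z z2) * N := by
          rw [transpose_mul]
          simp only [Matrix.mul_assoc]
      _ = N.transpose * (Mi.transpose * J * Mi) * N := by rw [hZZ z2 z2_V.1, hMiJ]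
      _ = _ := by
          rw [transpose_mul]
          simp only [Matrix.mul_assoc]
  · intro d F
    -- the three functions
    have hinv : AnalyticOnNhd ℂ (fun w : ℂ => 1 / w) Lens := fun w hw =>
      analyticAt_const.div analyticAt_id (Complex.slitPlane_ne_zero (slit_Lens hw))
    have hinvs : ∀ w ∈ Lens, (1 / w : ℂ) ∈ Complex.slitPlane := by
      intro w hw
      have h1 : (1 - w).re ≤ ‖1 - w‖ := Complex.re_le_norm _
      rw [Complex.sub_re, Complex.one_re] at h1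
      have h2 : 0 < w.re := by linarith [(mem_Lens.1 hw).2]
      rw [one_div]
      left
      rw [Complex.inv_re]
      exact div_pos h2 (Complex.normSq_pos.2 (Complex.slitPlane_ne_zero (slit_Lens hw)))
    have a1 : AnalyticOnNhd ℂ (fun w => MvPolynomial.eval (p4 d (1 / w) (D w)) F) Lens :=
      an_p4 hinv hinvs (an_of_HD isOpen_Lens hD) d F
    have a2 : AnalyticOnNhd ℂ (fun z => MvPolynomial.eval (p4 d z (Z z * N)) F) UU :=
      an_p4 analyticOnNhd_id (fun z hz => slit_U hz) (an_mul_const (an_of_HD isOpen_U hZd) N) d F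
    have a3 : AnalyticOnNhd ℂ (fun z => MvPolynomial.eval (p4 d z (Y z * (Mi * N))) F) Lens :=
      an_p4 analyticOnNhd_id (fun z hz => slit_Lens hz) (an_mul_const (an_of_HD isOpen_Lens hYd) (Mi * N)) d F
    have e12 : ∀ z ∈ VV, MvPolynomial.eval (p4 d (1 / (1 / z)) (D (1 / z))) F =
        MvPolynomial.eval (p4 d z (Z z * N)) F := by
      intro z hz
      rw [one_div_one_div, hDZ z hz]
    have e23 : ∀ z ∈ Lens, MvPolynomial.eval (p4 d z (Y z * (Mi * N))) F =
        MvPolynomial.eval (p4 d z (Z z * N)) F := by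
      intro z hz
      have : Y z * (Mi * N) = Z z * N := by
        rw [hconn z hz]
        calc Z z * M * (Mi * N) = Z z * (M * Mi) * N := by simp only [Matrix.mul_assoc]
          _ = _ := by rw [hMMi, mul_one]
      rw [this]
    constructor
    · intro h z hz hz1
      have b1 : ∀ w ∈ Lens, MvPolynomial.eval (p4 d (1 / w) (D w)) F = 0 := fun w hw => zero_of_real a1 h hw
      have b2 : ∀ z ∈ UU, MvPolynomial.eval (p4 d z (Z z * N)) F = 0 := fun z hz =>
        zero_of_open a2 conv_U.isPreconnected isOpen_V z2_V.1 z2_V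
          (fun x hx _ => by
            show MvPolynomial.eval (p4 d x (Z x * N)) F = 0
            rw [← e12 x hx]
            exact b1 _ (inv_V hx)) isOpen_U hz
      exact zero_of_open a3 preconn_Lens isOpen_U z1_Lens z1_U
        (fun x hx hx' => by
          show MvPolynomial.eval (p4 d x (Y x * (Mi * N))) F = 0
          rw [e23 x hx']
          exact b2 x hx) isOpen_Lens (real_mem_Lens hz hz1)
    · intro h w hw hw1
      have b3 : ∀ z ∈ Lens, MvPolynomial.eval (p4 d z (Y z * (Mi * N))) F = 0 := fun z hz =>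
        zero_of_real a3 h hz
      have b2 : ∀ z ∈ UU, MvPolynomial.eval (p4 d z (Z z * N)) F = 0 := fun z hz =>
        zero_of_open a2 conv_U.isPreconnected isOpen_Lens z1_U z1_Lens
          (fun x hx _ => by
            show MvPolynomial.eval (p4 d x (Z x * N)) F = 0
            rw [← e23 x hx]
            exact b3 x hx) isOpen_U hz
      have hlens : (1 / z2 : ℂ) ∈ Lens := inv_V z2_V
      have h10 : (1 / z2 : ℂ) ≠ 0 := Complex.slitPlane_ne_zero (slit_Lens hlens)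
      refine a1.eqOn_zero_of_preconnected_of_eventuallyEq_zero preconn_Lens hlens ?_ (real_mem_Lens hw hw1)
      have hc : ContinuousAt (fun x : ℂ => 1 / x) (1 / z2) := continuousAt_const.div continuousAt_id h10
      have hm : VV ∈ 𝓝 (1 / (1 / z2) : ℂ) := by
        rw [one_div_one_div]
        exact isOpen_V.mem_nhds z2_V
      filter_upwards [hc.preimage_mem_nhds hm] with x hx
      have hx' : 1 / x ∈ VV := hx
      have := e12 (1 / x) hx'
      rw [b2 _ hx'.1, one_div_one_div x] at this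
      exact this

theorem main : S_CONT := by
  intro n Q hQ D hD
  have hnB : -cm (Bm n Q) = vecMulVec (uc n) (uc n ᵥ* cm (Jm n Q)) := by rw [cm_Bm hQ, neg_neg]
  have hB : (-cm (Bm n Q)) ^ n = 0 := by
    rw [hnB]
    exact tv_pow (Jc_skew hQ) _ hQ.two
  have hBJ : (cm (Bm n Q)).transpose * cm (Jm n Q) + cm (Jm n Q) * cm (Bm n Q) = 0 := by
    rw [cm_Bm hQ, transpose_neg, neg_mul, mul_neg, ← neg_add, tv_skew (Jc_skew hQ), neg_zero]
  exact gen (Jc_det hQ) Ac_nil Jc_rel hB hBJ (sol_c hQ) D hD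

end Pool.Agent.T44.GO.CONT
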