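import Pool.Agent.T44.GO.Stm

/-!
Project GO, stub FEW: a period matrix `(diag ω * V)ᵀ` with algebraic `V` has few periods.
-/

set_option autoImplicit false

open Matrix

namespace Pool.Agent.T44.GO

namespace FEW

/-- a matrix with algebraic entries: the product -/
theorem alg_mul {N : ℕ} {A B : Matrix (Fin N) (Fin N) ℂ} (hA : ∀ i j, IsAlgebraic ℚ (A i j))
    (hB : ∀ i j, IsAlgebraic ℚ (B i j)) (i j : Fin N) : IsAlgebraic ℚ ((A * B) i j) := by
  rw [Matrix.mul_apply]
  have : ∀ s : Finset (Fin N), IsAlgebraic ℚ (∑ k ∈ s, A i k * B k j) := by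
    intro s
    induction s using Finset.induction_on with
    | empty => simpa using isAlgebraic_zero
    | insert a s ha ih =>
      rw [Finset.sum_insert ha]
      exact ((hA i a).mul (hB a j)).add ih
  exact this _

theorem alg_det {N : ℕ} {A : Matrix (Fin N) (Fin N) ℂ} (hA : ∀ i j, IsAlgebraic ℚ (A i j)) :
    IsAlgebraic ℚ A.det := by
  -- through the subfield of algebraic numbers
  let S : Subalgebra ℚ ℂ := integralClosure ℚ ℂ
  have hm : ∀ i j, A i j ∈ S := fun i j => (hA i j).isIntegral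
  have h : A.det ∈ S := by
    rw [Matrix.det_apply]
    refine sum_mem fun σ _ => ?_
    rw [Units.smul_def, zsmul_eq_mul]
    refine S.mul_mem ?_ (prod_mem fun i _ => hm _ _)
    exact intCast_mem S _
  exact IsIntegral.isAlgebraic h

theorem alg_inv {N : ℕ} {A : Matrix (Fin N) (Fin N) ℂ} (hA : ∀ i j, IsAlgebraic ℚ (A i j))
    (i j : Fin N) : IsAlgebraic ℚ (A⁻¹ i j) := by
  rw [Matrix.inv_def, Matrix.smul_apply, smul_eq_mul, Ring.inverse_eq_inv']
  refine (alg_det hA).inv.mul ?_
  rw [Matrix.adjugate_apply]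
  apply alg_det
  intro k l
  by_cases h : k = j
  · subst h
    rw [Matrix.updateRow_self]
    by_cases h2 : i = l
    · subst h2
      simpa using isAlgebraic_one
    · rw [Pi.single_eq_of_ne (Ne.symm h2)]
      exact isAlgebraic_zero
  · rw [Matrix.updateRow_ne h]
    exact hA k l

theorem card_pos {m : ℕ} (γ : Fin (2 * m) → ℚ) (hinj : Function.Injective γ)
    (h0 : ∀ i, γ i ≠ 0) (f : Fin (2 * m) → Fin (2 * m)) (hf : ∀ i, γ (f i) = -γ i) :
    Fintype.card {i : Fin (2 * m) // 0 < γ i} = m := by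
  have e : {i : Fin (2 * m) // 0 < γ i} ≃ {i : Fin (2 * m) // ¬ 0 < γ i} :=
    { toFun := fun i => ⟨f i.1, by rw [hf]; have := i.2; push Not; linarith⟩
      invFun := fun i => ⟨f i.1, by
        rw [hf]
        have h1 := i.2
        have h2 := h0 i.1
        rcases lt_or_gt_of_ne h2 with h | h
        · linarith
        · exact absurd h h1⟩
      left_inv := fun i => Subtype.ext (hinj (by simp only [hf, neg_neg]))
      right_inv := fun i => Subtype.ext (hinj (by simp only [hf, neg_neg])) }
  have h1 := Fintype.card_congr e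
  have h2 := Fintype.card_subtype_compl (fun i : Fin (2 * m) => 0 < γ i)
  rw [Fintype.card_fin] at h2
  have h3 : Fintype.card {i : Fin (2 * m) // 0 < γ i} ≤ 2 * m := by
    have := Fintype.card_subtype_le (fun i : Fin (2 * m) => 0 < γ i)
    rwa [Fintype.card_fin] at this
  omega

theorem main : S_FEW := by
  intro m hm γ hinj h0 hsym ω hω V B P c hV hB hP hPs hPd hVd hc heq
  choose f hf using hsym
  obtain ⟨e⟩ : Nonempty (Fin m ≃ {i : Fin (2 * m) // 0 < γ i}) := by
    rw [← Fintype.card_eq, Fintype.card_fin, card_pos γ hinj h0 f hf]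
  set z : Fin m := ⟨0, hm⟩ with hz
  set lam : ℂ := ω (e z).1 with hlam
  have hlam0 : lam ≠ 0 := hω _
  set θ : Fin m → ℂ := fun k => if k = z then c / lam ^ 2 else ω (e k).1 / lam with hθ
  refine ⟨θ, lam, hlam0, ?_⟩
  set K := IntermediateField.adjoin ℚ (Set.range θ) with hK
  have algK : ∀ x : ℂ, IsAlgebraic ℚ x → IsAlgebraic K x := fun x hx => hx.tower_top K
  have memK : ∀ k, IsAlgebraic K (θ k) := by
    intro k
    have h : θ k ∈ K := IntermediateField.subset_adjoin ℚ _ ⟨k, rfl⟩
    exact isAlgebraic_algebraMap (⟨θ k, h⟩ : K)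
  -- the relation
  have hVu : IsUnit V.det := isUnit_iff_ne_zero.2 hVd
  have hVTu : IsUnit (Vᵀ).det := by rw [Matrix.det_transpose]; exact hVu
  have rel : Matrix.diagonal ω * P * Matrix.diagonal ω = c • ((Vᵀ)⁻¹ * B * V⁻¹) := by
    have h1 : (Vᵀ)⁻¹ * (Vᵀ * (Matrix.diagonal ω * P * Matrix.diagonal ω) * V) * V⁻¹
        = Matrix.diagonal ω * P * Matrix.diagonal ω := by
      rw [Matrix.mul_assoc Vᵀ, ← Matrix.mul_assoc (Vᵀ)⁻¹, Matrix.nonsing_inv_mul _ hVTu,
        Matrix.one_mul, Matrix.mul_assoc, Matrix.mul_nonsing_inv _ hVu, Matrix.mul_one]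
    rw [← h1]
    have h2 : Vᵀ * (Matrix.diagonal ω * P * Matrix.diagonal ω) * V = c • B := by
      rw [← heq, Matrix.transpose_mul, Matrix.diagonal_transpose]
      simp only [Matrix.mul_assoc]
    rw [h2, Matrix.mul_smul, Matrix.smul_mul]
  have algR : ∀ i j, IsAlgebraic ℚ (((Vᵀ)⁻¹ * B * V⁻¹) i j) := by
    have h1 : ∀ i j, IsAlgebraic ℚ (Vᵀ i j) := fun i j => hV j i
    exact alg_mul (alg_mul (alg_inv h1) hB) (alg_inv hV)
  -- every row of P has an entry
  have row : ∀ i, P i (f i) ≠ 0 := by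
    intro i hi
    apply hPd
    apply Matrix.det_eq_zero_of_row_eq_zero i
    intro j
    by_contra h
    have h2 := hPs i j h
    have h3 : γ j = γ (f i) := by
      rw [hf]
      linarith
    exact h (by rw [hinj h3]; exact hi)
  have prod : ∀ i, ∃ x : ℂ, IsAlgebraic ℚ x ∧ ω i * ω (f i) = c * x := by
    intro i
    refine ⟨((Vᵀ)⁻¹ * B * V⁻¹) i (f i) * (P i (f i))⁻¹, (algR _ _).mul (hP _ _).inv, ?_⟩
    have h1 := congrFun (congrFun rel i) (f i)
    rw [Matrix.mul_diagonal, Matrix.diagonal_mul, Matrix.smul_apply, smul_eq_mul] at h1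
    have h2 := row i
    field_simp
    linear_combination h1
  -- the numbers ω
  have key : ∀ i, IsAlgebraic K (ω i / lam) := by
    have pos : ∀ i, 0 < γ i → IsAlgebraic K (ω i / lam) := by
      intro i hi
      obtain ⟨k, hk⟩ := e.surjective ⟨i, hi⟩
      by_cases hkz : k = z
      · have : ω i = lam := by rw [hlam, ← hkz, hk]
        rw [this, div_self hlam0]
        exact isAlgebraic_one
      · have h1 := memK k
        have h2 : θ k = ω i / lam := by
          simp only [hθ, if_neg hkz, hk]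
        rwa [h2] at h1
    intro i
    rcases lt_or_gt_of_ne (h0 i) with hi | hi
    · have hi' : 0 < γ (f i) := by rw [hf]; linarith
      obtain ⟨x, hx, hxe⟩ := prod i
      have h1 : IsAlgebraic K (θ z) := memK z
      have h2 : θ z = c / lam ^ 2 := by simp only [hθ, if_true]
      rw [h2] at h1
      have h3 : ω i / lam = (c / lam ^ 2) * x * (ω (f i) / lam)⁻¹ := by
        have := hω (f i)
        field_simp
        linear_combination hxe
      rw [h3]
      exact (h1.mul (algK x hx)).mul (pos _ hi').inv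
    · exact pos i hi
  intro i j
  have h1 : (Matrix.diagonal ω * V)ᵀ i j / lam = (ω j / lam) * V j i := by
    rw [Matrix.transpose_apply, Matrix.diagonal_mul]
    ring
  rw [h1]
  exact (key j).mul (algK _ (hV j i))

end FEW
end Pool.Agent.T44.GO
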