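import Pool.Agent.T44.GO.Stm

set_option autoImplicit false

open Matrix

namespace Pool.Agent.T44.GO.PGR

open Pool.Agent.Y119.HY (QD Am Bm Jm cm Hc Yf Lens HD Gm PG)

/-- one factor -/
lemma factor_le {g δ : ℚ} (hδ : 0 < δ) {q : ℕ} (hq : |g| * (1 + 1 / δ) ≤ q) (l : ℕ) :
    |(g + l) / (δ + l)| ≤ (((l : ℚ) + 2) / (l + 1)) ^ q := by
  have hl : (0 : ℚ) ≤ l := Nat.cast_nonneg _
  have hl1 : (0 : ℚ) < (l : ℚ) + 1 := by linarith
  have hd : 0 < δ + l := by linarith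
  have h1 : |(g + l) / (δ + l)| ≤ 1 + |g| / (δ + l) := by
    rw [abs_div, abs_of_pos hd, div_le_iff₀ hd, add_mul, div_mul_cancel₀ _ hd.ne', one_mul]
    have h2 : |g + l| ≤ |g| + l := by
      calc |g + l| ≤ |g| + |(l : ℚ)| := abs_add_le _ _
        _ = |g| + l := by rw [abs_of_nonneg hl]
    linarith
  have h3 : |g| / (δ + l) ≤ q / (l + 1) := by
    rw [div_le_div_iff₀ hd hl1]
    have h4 : |g| * (l + 1) ≤ |g| * ((1 + 1 / δ) * (δ + l)) := by
      apply mul_le_mul_of_nonneg_left _ (abs_nonneg _)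
      have h5 : (1 + 1 / δ) * (δ + l) = δ + l + 1 + l / δ := by field_simp; ring
      rw [h5]
      have : 0 ≤ (l : ℚ) / δ := by positivity
      linarith
    calc |g| * (l + 1) ≤ |g| * ((1 + 1 / δ) * (δ + l)) := h4
      _ = (|g| * (1 + 1 / δ)) * (δ + l) := by ring
      _ ≤ q * (δ + l) := by gcongr
  have h6 : (1 : ℚ) + q * (1 / (l + 1)) ≤ (1 + 1 / ((l : ℚ) + 1)) ^ q :=
    one_add_mul_le_pow (by have : (0 : ℚ) ≤ 1 / ((l : ℚ) + 1) := by positivity
                           linarith) q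
  have h7 : (1 + 1 / ((l : ℚ) + 1)) = ((l : ℚ) + 2) / (l + 1) := by
    field_simp
    ring
  rw [h7] at h6
  calc |(g + l) / (δ + l)| ≤ 1 + |g| / (δ + l) := h1
    _ ≤ 1 + q / (l + 1) := by linarith
    _ = 1 + q * (1 / (l + 1)) := by ring
    _ ≤ _ := h6

lemma tele (k : ℕ) : ∏ l ∈ Finset.range k, (((l : ℚ) + 2) / (l + 1)) = k + 1 := by
  induction k with
  | zero => simp
  | succ k ih =>
    rw [Finset.prod_range_succ, ih]
    have : (k : ℚ) + 1 ≠ 0 := by positivity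
    push_cast
    field_simp
    ring

theorem main : Pool.Agent.T44.GO.S_PGR := by
  intro n Q γ hO a j
  -- the bound for the exponent
  obtain ⟨q, hq⟩ : ∃ q : ℕ, ∀ i, |γ j| * (1 + 1 / (γ j - γ i + 1)) ≤ q := by
    obtain ⟨q, hq⟩ := exists_nat_ge (∑ i, |γ j| * (1 + 1 / (γ j - γ i + 1)))
    refine ⟨q, fun i => le_trans ?_ hq⟩
    have hpos : ∀ i, 0 ≤ |γ j| * (1 + 1 / (γ j - γ i + 1)) := fun i => by
      have : 0 < γ j - γ i + 1 := by have := hO.lt i j; linarith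
      positivity
    exact Finset.single_le_sum (f := fun i => |γ j| * (1 + 1 / (γ j - γ i + 1)))
      (fun i _ => hpos i) (Finset.mem_univ i)
  have hpos : ∀ i, 0 < γ j - γ i + 1 := fun i => by have := hO.lt i j; linarith
  have hfac : ∀ l : ℕ, |(γ j + l) ^ n / Q.eval (γ j + l + 1)| ≤ ((((l : ℚ) + 2) / (l + 1)) ^ q) ^ n := by
    intro l
    have e1 : Q.eval (γ j + l + 1) = ∏ i, ((γ j - γ i + 1) + l) := by
      conv_lhs => rw [hO.prod]
      rw [Polynomial.eval_prod]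
      refine Finset.prod_congr rfl fun i _ => ?_
      simp only [Polynomial.eval_sub, Polynomial.eval_X, Polynomial.eval_C]
      ring
    have e2 : (γ j + l) ^ n / Q.eval (γ j + l + 1) = ∏ i, ((γ j + l) / ((γ j - γ i + 1) + l)) := by
      rw [e1, Finset.prod_div_distrib, Finset.prod_const, Finset.card_univ, Fintype.card_fin]
    rw [e2, Finset.abs_prod]
    calc ∏ i, |(γ j + l) / ((γ j - γ i + 1) + l)| ≤ ∏ _i : Fin n, (((l : ℚ) + 2) / (l + 1)) ^ q :=
          Finset.prod_le_prod (fun i _ => abs_nonneg _) (fun i _ => factor_le (hpos i) (hq i) l)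
      _ = _ := by rw [Finset.prod_const, Finset.card_univ, Fintype.card_fin]
  have hcc : ∀ k, |cc n Q (γ j) k| ≤ ((k : ℚ) + 1) ^ (q * n) := by
    intro k
    unfold cc
    rw [Finset.abs_prod]
    calc ∏ l ∈ Finset.range k, |(γ j + l) ^ n / Q.eval (γ j + l + 1)|
        ≤ ∏ l ∈ Finset.range k, ((((l : ℚ) + 2) / (l + 1)) ^ q) ^ n :=
          Finset.prod_le_prod (fun i _ => abs_nonneg _) (fun l _ => hfac l)
      _ = (∏ l ∈ Finset.range k, (((l : ℚ) + 2) / (l + 1))) ^ (q * n) := by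
          rw [← Finset.prod_pow]
          refine Finset.prod_congr rfl fun l _ => ?_
          rw [pow_mul]
      _ = _ := by rw [tele]
  have hlin : ∀ k : ℕ, |(-(γ j + k)) ^ a| ≤ (|γ j| + 1) ^ a * ((k : ℚ) + 1) ^ a := by
    intro k
    rw [abs_pow, abs_neg, ← mul_pow]
    have hk : (0 : ℚ) ≤ k := Nat.cast_nonneg _
    have h1 : |γ j + k| ≤ (|γ j| + 1) * ((k : ℚ) + 1) := by
      calc |γ j + k| ≤ |γ j| + |(k : ℚ)| := abs_add_le _ _
        _ = |γ j| + k := by rw [abs_of_nonneg hk]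
        _ ≤ (|γ j| + 1) * ((k : ℚ) + 1) := by nlinarith [abs_nonneg (γ j), mul_nonneg (abs_nonneg (γ j)) hk]
    exact pow_le_pow_left₀ (abs_nonneg _) h1 a
  refine ⟨(((|γ j| + 1) ^ a : ℚ) : ℝ), a + q * n, fun k => ?_⟩
  have h : |(-(γ j + k)) ^ a * cc n Q (γ j) k| ≤ (|γ j| + 1) ^ a * ((k : ℚ) + 1) ^ (a + q * n) := by
    rw [abs_mul, pow_add, ← mul_assoc]
    exact mul_le_mul (hlin k) (hcc k) (abs_nonneg _) (by positivity)
  have h2 : ((|(-(γ j + k)) ^ a * cc n Q (γ j) k| : ℚ) : ℝ) ≤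
      (((|γ j| + 1) ^ a * ((k : ℚ) + 1) ^ (a + q * n) : ℚ) : ℝ) := by exact_mod_cast h
  rw [Complex.norm_ratCast]
  calc |(((-(γ j + k)) ^ a * cc n Q (γ j) k : ℚ) : ℝ)|
      = ((|(-(γ j + k)) ^ a * cc n Q (γ j) k| : ℚ) : ℝ) := by rw [Rat.cast_abs]
    _ ≤ _ := h2
    _ = _ := by push_cast; ring

end Pool.Agent.T44.GO.PGR
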