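import Pool.Agent.T44.GO.Stm

/-!
# Project GO: relations over `ℂ[z^(1/d), z^(-1/d)]`
-/

set_option autoImplicit false

open Matrix Polynomial

namespace Pool.Agent.T44.GO.ROOT

open Pool.Agent.Y119.HY (QD Am Bm Jm cm Hc Yf Hf E Ep Vr pt ev evp sb ev_sb PA Hf_an sol_c Ac_nil hyp_invar eval_evp
  map_mul_eval map_C_eval Ep_eval Rel)

variable {n : ℕ}

/-- the functions of the form `∑ u^j F_j(u^d, L, X)` -/
def Good (d : ℕ) (f : ℂ → ℂ → Matrix (Fin n) (Fin n) ℂ → ℂ) : Prop :=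
  ∃ F : ℕ → MvPolynomial (Vr n) ℂ, ∀ u L X, f u L X = ∑ j ∈ Finset.range d, u ^ j * ev (F j) (u ^ d) L X

lemma Good.add {d : ℕ} {f g : ℂ → ℂ → Matrix (Fin n) (Fin n) ℂ → ℂ} (hf : Good d f) (hg : Good d g) :
    Good d fun u L X => f u L X + g u L X := by
  obtain ⟨F, hF⟩ := hf
  obtain ⟨G, hG⟩ := hg
  refine ⟨fun j => F j + G j, fun u L X => ?_⟩
  beta_reduce
  rw [hF, hG, ← Finset.sum_add_distrib]
  refine Finset.sum_congr rfl fun j _ => ?_
  unfold ev
  rw [map_add]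
  ring

lemma Good.mulP {d : ℕ} {f : ℂ → ℂ → Matrix (Fin n) (Fin n) ℂ → ℂ} (hf : Good d f) (P : MvPolynomial (Vr n) ℂ) :
    Good d fun u L X => f u L X * ev P (u ^ d) L X := by
  obtain ⟨F, hF⟩ := hf
  refine ⟨fun j => F j * P, fun u L X => ?_⟩
  beta_reduce
  rw [hF, Finset.sum_mul]
  refine Finset.sum_congr rfl fun j _ => ?_
  unfold ev
  rw [map_mul]
  ring

lemma Good.one {d : ℕ} (hd : 1 ≤ d) : Good d fun (_ _ : ℂ) (_ : Matrix (Fin n) (Fin n) ℂ) => (1 : ℂ) := by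
  refine ⟨fun j => if j = 0 then 1 else 0, fun u L X => ?_⟩
  beta_reduce
  rw [Finset.sum_eq_single 0]
  · rw [if_pos rfl, pow_zero, one_mul]
    unfold ev
    rw [map_one]
  · intro j _ hj
    rw [if_neg hj]
    unfold ev
    rw [map_zero, mul_zero]
  · intro h
    exact absurd (Finset.mem_range.2 hd) h

lemma Good.mulu {d : ℕ} (hd : 1 ≤ d) {f : ℂ → ℂ → Matrix (Fin n) (Fin n) ℂ → ℂ} (hf : Good d f) :
    Good d fun u L X => f u L X * u := by
  obtain ⟨F, hF⟩ := hf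
  obtain ⟨e, rfl⟩ : ∃ e, d = e + 1 := ⟨d - 1, by omega⟩
  refine ⟨fun j => if j = 0 then F e * MvPolynomial.X none else F (j - 1), fun u L X => ?_⟩
  beta_reduce
  rw [hF, Finset.sum_range_succ, Finset.sum_range_succ', add_mul, Finset.sum_mul]
  congr 1
  · refine Finset.sum_congr rfl fun j _ => ?_
    rw [if_neg (Nat.succ_ne_zero j), Nat.add_sub_cancel]
    ring
  · rw [if_pos rfl]
    have h1 : ev (F e * MvPolynomial.X none) (u ^ (e + 1)) L X = ev (F e) (u ^ (e + 1)) L X * u ^ (e + 1) := by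
      unfold ev
      rw [map_mul, MvPolynomial.eval_X]
      rfl
    rw [h1]
    ring

lemma Good.mulpow {d : ℕ} (hd : 1 ≤ d) {f : ℂ → ℂ → Matrix (Fin n) (Fin n) ℂ → ℂ} (hf : Good d f) (k : ℕ) :
    Good d fun u L X => f u L X * u ^ k := by
  induction k with
  | zero => simpa using hf
  | succ k ih =>
    have := ih.mulu hd
    refine (congrArg (Good d) ?_).mp this
    funext u L X
    ring

/-- the point -/
def q4 (v u L : ℂ) (X : Matrix (Fin n) (Fin n) ℂ) (o : Option (Option (Option (Fin n × Fin n)))) : ℂ :=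
  o.elim v fun o => o.elim u fun o => o.elim L fun p => X p.1 p.2

lemma decomp {d : ℕ} (hd : 1 ≤ d) (F : MvPolynomial (Option (Option (Option (Fin n × Fin n)))) ℂ) :
    ∃ (N : ℕ) (G : ℂ → ℂ → Matrix (Fin n) (Fin n) ℂ → ℂ), Good d G ∧
      ∀ u : ℂ, u ≠ 0 → ∀ L X, (u ^ d) ^ N * MvPolynomial.eval (q4 u⁻¹ u L X) F = G u L X := by
  induction F using MvPolynomial.induction_on with
  | C a =>
    refine ⟨0, _, (Good.one hd).mulP (MvPolynomial.C a), fun u _ L X => ?_⟩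
    unfold ev
    rw [MvPolynomial.eval_C, MvPolynomial.eval_C]
    ring
  | add p q hp hq =>
    obtain ⟨N1, G1, hG1, h1⟩ := hp
    obtain ⟨N2, G2, hG2, h2⟩ := hq
    refine ⟨N1 + N2, _, (hG1.mulP (MvPolynomial.X none ^ N2)).add (hG2.mulP (MvPolynomial.X none ^ N1)), fun u hu L X => ?_⟩
    have e1 : ∀ k : ℕ, ev (n := n) (MvPolynomial.X none ^ k) (u ^ d) L X = (u ^ d) ^ k := by
      intro k
      unfold ev
      rw [map_pow, MvPolynomial.eval_X]
      rfl
    rw [e1, e1, ← h1 u hu, ← h2 u hu, map_add]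
    ring
  | mul_X p i hp =>
    obtain ⟨N, G, hG, h⟩ := hp
    rcases i with _ | _ | _ | x
    · refine ⟨N + 1, _, hG.mulpow hd (d - 1), fun u hu L X => ?_⟩
      rw [← h u hu, map_mul, MvPolynomial.eval_X]
      have e1 : u ^ d = u ^ (d - 1) * u := by
        rw [← pow_succ]
        congr 1
        omega
      have e2 : q4 (n := n) u⁻¹ u L X none = u⁻¹ := rfl
      rw [e2]
      calc (u ^ d) ^ (N + 1) * (MvPolynomial.eval (q4 u⁻¹ u L X) p * u⁻¹)
          = (u ^ d) ^ N * MvPolynomial.eval (q4 u⁻¹ u L X) p * (u ^ d * u⁻¹) := by ring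
        _ = _ := by
          congr 1
          rw [e1, mul_assoc, mul_inv_cancel₀ hu, mul_one]
    · refine ⟨N, _, hG.mulu hd, fun u hu L X => ?_⟩
      rw [← h u hu, map_mul, MvPolynomial.eval_X, ← mul_assoc]
      rfl
    · refine ⟨N, _, hG.mulP (MvPolynomial.X (some none)), fun u hu L X => ?_⟩
      rw [← h u hu, map_mul, MvPolynomial.eval_X, ← mul_assoc]
      unfold ev
      rw [MvPolynomial.eval_X]
      rfl
    · refine ⟨N, _, hG.mulP (MvPolynomial.X (some (some x))), fun u hu L X => ?_⟩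
      rw [← h u hu, map_mul, MvPolynomial.eval_X, ← mul_assoc]
      unfold ev
      rw [MvPolynomial.eval_X]
      rfl

/-- separation of the powers of `u` -/
lemma sep {Q : Polynomial ℚ} (hQ : QD n Q) {d : ℕ} (hd : 1 ≤ d) (C₀ : Matrix (Fin n) (Fin n) ℂ)
    (F : ℕ → MvPolynomial (Vr n) ℂ)
    (h : ∀ u : ℝ, 0 < u → u < 1 → ∑ j ∈ Finset.range d, (u : ℂ) ^ j *
      ev (F j) ((u : ℂ) ^ d) (d * ((Real.log u : ℝ) : ℂ)) (Hf (Hc n Q) ((u : ℂ) ^ d) * E (cm (Am n)) (d * ((Real.log u : ℝ) : ℂ)) * C₀) = 0) :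
    ∀ j < d, ∀ u : ℝ, 0 < u → u < 1 →
      ev (F j) ((u : ℂ) ^ d) (d * ((Real.log u : ℝ) : ℂ)) (Hf (Hc n Q) ((u : ℂ) ^ d) * E (cm (Am n)) (d * ((Real.log u : ℝ) : ℂ)) * C₀) = 0 := by
  set A := cm (Am n) with hA
  have hnil : A ^ n = 0 := Ac_nil
  have hpow : ∀ w ∈ Metric.ball (0 : ℂ) 1, w ^ d ∈ Metric.ball (0 : ℂ) 1 := by
    intro w hw
    rw [Metric.mem_ball, dist_zero_right] at hw ⊢
    rw [norm_pow]
    exact pow_lt_one₀ (norm_nonneg _) hw (by omega)
  have hmaps : Set.MapsTo (fun w : ℂ => w ^ d) (Metric.ball (0 : ℂ) 1) (Metric.ball (0 : ℂ) 1) := hpow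
  set f : ℂ → ℂ[X] := fun w => ∑ j ∈ Finset.range d, C (w ^ j) *
    evp (F j) (C (w ^ d)) (C (d : ℂ) * X) ((Hf (Hc n Q) (w ^ d)).map C * (Ep A).map (fun p => p.comp (C (d : ℂ) * X)) * C₀.map C)
    with hf
  have hEp : ∀ s : ℂ, ((Ep A).map (fun p => p.comp (C (d : ℂ) * X))).map (Polynomial.eval s) = E A (d * s) := by
    intro s
    rw [← Ep_eval]
    ext a b
    simp only [Matrix.map_apply, Polynomial.eval_comp, Polynomial.eval_mul, Polynomial.eval_C, Polynomial.eval_X]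
  have hfe : ∀ w s : ℂ, (f w).eval s = ∑ j ∈ Finset.range d, w ^ j *
      ev (F j) (w ^ d) (d * s) (Hf (Hc n Q) (w ^ d) * E A (d * s) * C₀) := by
    intro w s
    rw [hf]
    simp only
    rw [Polynomial.eval_finsetSum]
    refine Finset.sum_congr rfl fun j _ => ?_
    rw [Polynomial.eval_mul, Polynomial.eval_C, eval_evp, Polynomial.eval_C, Polynomial.eval_mul, Polynomial.eval_C,
      Polynomial.eval_X, map_mul_eval, map_mul_eval, map_C_eval, map_C_eval, hEp]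
  have hPA : PA (Metric.ball 0 1) f := by
    refine PA.sum _ fun j _ => (PA.ofFun (analyticOnNhd_id.pow j)).mul (PA.aeval (fun o => ?_) (F j))
    rcases o with _ | _ | x
    · exact PA.ofFun (analyticOnNhd_id.pow d)
    · exact PA.const _
    · simp only [pt, Option.elim_some, Matrix.mul_apply, Matrix.map_apply]
      refine PA.sum _ fun l _ => (PA.sum _ fun k _ => (PA.ofFun ?_).mul (PA.const _)).mul (PA.const _)
      exact (Hf_an (sol_c hQ) hnil _ _).comp (analyticOnNhd_id.pow d) hmaps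
  have hzero := PA.log_zero hPA (fun x hx hx1 => by
    rw [hfe]
    exact h x hx hx1)
  intro j hj u hu hu1
  set e : ℕ → ℂ := fun j => ev (F j) ((u : ℂ) ^ d) (d * ((Real.log u : ℝ) : ℂ))
    (Hf (Hc n Q) ((u : ℂ) ^ d) * E A (d * ((Real.log u : ℝ) : ℂ)) * C₀) with he
  set P : ℂ[X] := ∑ j ∈ Finset.range d, C ((u : ℂ) ^ j * e j) * X ^ j with hP
  have hP0 : P = 0 := by
    refine Polynomial.eq_zero_of_degree_lt_of_eval_finset_eq_zero (Polynomial.nthRootsFinset d (1 : ℂ)) ?_ fun ζ hζ => ?_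
    · rw [(Complex.isPrimitiveRoot_exp d (by omega)).card_nthRootsFinset]
      rw [Polynomial.degree_lt_iff_coeff_zero]
      intro m hm
      rw [hP, Polynomial.finsetSum_coeff]
      refine Finset.sum_eq_zero fun k hk => ?_
      have := Finset.mem_range.1 hk
      rw [coeff_C_mul, coeff_X_pow, if_neg (by omega), mul_zero]
    · rw [Polynomial.mem_nthRootsFinset (by omega)] at hζ
      have hnorm : ‖ζ‖ = 1 := by
        refine (pow_eq_one_iff_of_nonneg (norm_nonneg _) (n := d) (by omega)).1 ?_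
        rw [← norm_pow, hζ, norm_one]
      have h1 := hfe (ζ * u) ((Real.log u : ℝ) : ℂ)
      rw [hzero (ζ * u) (by
        rw [Metric.mem_ball, dist_zero_right, norm_mul, hnorm, one_mul, Complex.norm_real, Real.norm_of_nonneg hu.le]
        exact hu1), Polynomial.eval_zero] at h1
      rw [hP, Polynomial.eval_finsetSum, h1]
      refine Finset.sum_congr rfl fun k _ => ?_
      rw [Polynomial.eval_mul, Polynomial.eval_C, Polynomial.eval_pow, Polynomial.eval_X, mul_pow ζ (u : ℂ) d, hζ, one_mul, he]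
      ring
  have h2 := congrArg (fun p => Polynomial.coeff p j) hP0
  simp only [Polynomial.coeff_zero] at h2
  rw [hP, Polynomial.finsetSum_coeff, Finset.sum_eq_single j] at h2
  · rw [coeff_C_mul, coeff_X_pow_self, mul_one] at h2
    exact (mul_eq_zero.1 h2).resolve_left (pow_ne_zero _ (by exact_mod_cast hu.ne'))
  · intro k _ hk
    rw [coeff_C_mul, coeff_X_pow, if_neg hk.symm, mul_zero]
  · intro h3
    exact absurd (Finset.mem_range.2 hj) h3

theorem main : S_ROOT := by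
  intro n Q hQ d hd C₀ κ hκ F hF
  obtain ⟨N, G, ⟨Fj, hG⟩, hdec⟩ := decomp hd F
  have hd0 : (d : ℂ) ≠ 0 := by exact_mod_cast (by omega : d ≠ 0)
  -- the point
  have hp4 : ∀ (u : ℝ), 0 < u → ∀ M : Matrix (Fin n) (Fin n) ℂ,
      p4 d ((u ^ d : ℝ) : ℂ) M = q4 (u : ℂ)⁻¹ (u : ℂ) (d * ((Real.log u : ℝ) : ℂ)) M := by
    intro u hu M
    have hlog : Complex.log ((u ^ d : ℝ) : ℂ) = d * ((Real.log u : ℝ) : ℂ) := by
      rw [← Complex.ofReal_log (pow_nonneg hu.le d), Real.log_pow]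
      push_cast
      rfl
    have hexp : Complex.exp ((Real.log u : ℝ) : ℂ) = (u : ℂ) := by
      rw [← Complex.ofReal_exp, Real.exp_log hu]
    funext o
    unfold p4 q4
    rw [hlog, mul_div_cancel_left₀ _ hd0, Complex.exp_neg, hexp]
  have hYf : ∀ (u : ℝ), 0 < u → Yf (cm (Am n)) (Hc n Q) ((u ^ d : ℝ) : ℂ) =
      Hf (Hc n Q) ((u : ℂ) ^ d) * E (cm (Am n)) (d * ((Real.log u : ℝ) : ℂ)) := by
    intro u hu
    have hlog : Complex.log ((u ^ d : ℝ) : ℂ) = d * ((Real.log u : ℝ) : ℂ) := by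
      rw [← Complex.ofReal_log (pow_nonneg hu.le d), Real.log_pow]
      push_cast
      rfl
    unfold Yf
    rw [hlog]
    push_cast
    rfl
  have hkey : ∀ M : Matrix (Fin n) (Fin n) ℂ, ∀ u : ℝ, 0 < u →
      (((u : ℂ) ^ d) ^ N * MvPolynomial.eval (p4 d ((u ^ d : ℝ) : ℂ) M) F = ∑ j ∈ Finset.range d, (u : ℂ) ^ j *
        ev (Fj j) ((u : ℂ) ^ d) (d * ((Real.log u : ℝ) : ℂ)) M) := by
    intro M u hu
    rw [hp4 u hu, hdec (u : ℂ) (by exact_mod_cast hu.ne'), hG]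
  have h1 := sep hQ hd C₀ Fj (fun u hu hu1 => by
    rw [← hkey _ u hu, ← hYf u hu, hF (u ^ d) (pow_pos hu d) (pow_lt_one₀ hu.le hu1 (by omega)), mul_zero])
  -- every real number is a power
  have hroot : ∀ z : ℝ, 0 < z → z < 1 → ∃ u : ℝ, 0 < u ∧ u < 1 ∧ u ^ d = z := by
    intro z hz hz1
    refine ⟨z ^ (1 / (d : ℝ)), Real.rpow_pos_of_pos hz _, Real.rpow_lt_one hz.le hz1 (by positivity), ?_⟩
    rw [← Real.rpow_natCast, ← Real.rpow_mul hz.le, one_div, inv_mul_cancel₀ (by exact_mod_cast (by omega : d ≠ 0)), Real.rpow_one]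
  have hlogz : ∀ u : ℝ, 0 < u → (d : ℂ) * ((Real.log u : ℝ) : ℂ) = Complex.log ((u ^ d : ℝ) : ℂ) := by
    intro u hu
    rw [← Complex.ofReal_log (pow_nonneg hu.le d), Real.log_pow]
    push_cast
    rfl
  have h2 : ∀ j < d, ∀ z : ℝ, 0 < z → z < 1 →
      ev (Fj j) (z : ℂ) (Complex.log z) (Yf (cm (Am n)) (Hc n Q) (z : ℂ) * κ * C₀) = 0 := by
    intro j hj
    have h3 : sb 0 C₀ (Fj j) ∈ Rel (Yf (cm (Am n)) (Hc n Q)) := by
      intro z hz hz1
      obtain ⟨u, hu, hu1, rfl⟩ := hroot z hz hz1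
      rw [ev_sb, add_zero, hYf u hu, ← hlogz u hu]
      have := h1 j hj u hu hu1
      push_cast
      exact this
    intro z hz hz1
    have h4 := hyp_invar hQ κ hκ _ h3 z hz hz1
    rw [ev_sb, add_zero] at h4
    exact h4
  intro z hz hz1
  obtain ⟨u, hu, hu1, rfl⟩ := hroot z hz hz1
  have h5 := hkey (Yf (cm (Am n)) (Hc n Q) ((u ^ d : ℝ) : ℂ) * κ * C₀) u hu
  rw [Finset.sum_eq_zero] at h5
  · exact (mul_eq_zero.1 h5).resolve_left (pow_ne_zero _ (pow_ne_zero _ (by exact_mod_cast hu.ne')))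
  · intro j hj
    have h6 := h2 j (Finset.mem_range.1 hj) (u ^ d) hz hz1
    rw [← hlogz u hu] at h6
    have h7 : ((u : ℂ) ^ d) = ((u ^ d : ℝ) : ℂ) := by push_cast; rfl
    rw [h7, h6, mul_zero]

end Pool.Agent.T44.GO.ROOT
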