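import Pool.Agent.T44.GO.Stm

/-!
# Project GO, stub SDC: the solutions at infinity are G-functions
-/

set_option autoImplicit false

open Matrix

namespace Pool.Agent.T44.GO.SDC

open Pool.Agent.Y119.HY (poch_int sdc_of)
open Pool.Agent.Y113 (SDc lcm_bound dvd_lcmUpto)

/-- geometric growth and geometric common denominators -/
def GS (c : ℕ → ℚ) : Prop :=
  (∃ A : ℝ, ∀ m, |((c m : ℚ) : ℝ)| ≤ A ^ (m + 1)) ∧
  ∃ A : ℝ, ∀ m, ∃ d : ℕ, 0 < d ∧ (d : ℝ) ≤ A ^ (m + 1) ∧ ∀ j ≤ m, ∃ a : ℤ, (d : ℚ) * c j = a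

lemma GS.mul {c c' : ℕ → ℚ} (h : GS c) (h' : GS c') : GS (fun k => c k * c' k) := by
  obtain ⟨⟨A, hA⟩, B, hB⟩ := h
  obtain ⟨⟨A', hA'⟩, B', hB'⟩ := h'
  refine ⟨⟨A * A', fun m => ?_⟩, B * B', fun m => ?_⟩
  · push_cast
    rw [abs_mul, mul_pow]
    exact mul_le_mul (hA m) (hA' m) (abs_nonneg _) ((abs_nonneg _).trans (hA m))
  · obtain ⟨d, hd0, hd, hd'⟩ := hB m
    obtain ⟨e, he0, he, he'⟩ := hB' m
    refine ⟨d * e, Nat.mul_pos hd0 he0, ?_, fun j hj => ?_⟩
    · push_cast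
      rw [mul_pow]
      exact mul_le_mul hd he (by positivity) ((Nat.cast_nonneg d).trans hd)
    · obtain ⟨a, ha⟩ := hd' j hj
      obtain ⟨b, hb⟩ := he' j hj
      exact ⟨a * b, by push_cast; rw [← ha, ← hb]; ring⟩

lemma GS.one : GS (fun _ => 1) :=
  ⟨⟨1, fun m => by simp⟩, 1, fun m => ⟨1, one_pos, by simp, fun j _ => ⟨1, by simp⟩⟩⟩

lemma GS.pow {c : ℕ → ℚ} (h : GS c) (a : ℕ) : GS (fun k => c k ^ a) := by
  induction a with
  | zero => simpa using GS.one
  | succ a ih => simpa only [pow_succ] using ih.mul h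

lemma GS.prod {ι : Type} (s : Finset ι) (c : ι → ℕ → ℚ) (h : ∀ i, GS (c i)) : GS (fun k => ∏ i ∈ s, c i k) := by
  classical
  induction s using Finset.induction_on with
  | empty => simpa using GS.one
  | insert i s hi ih =>
    simp only [Finset.prod_insert hi]
    exact (h i).mul ih

lemma GS.lin (γ : ℚ) : GS (fun k => -(γ + k)) := by
  refine ⟨⟨(|(γ : ℝ)| + 1) * 2, fun m => ?_⟩, (γ.den : ℝ), fun m => ⟨γ.den, γ.den_pos, ?_, fun j _ => ?_⟩⟩
  · push_cast
    rw [abs_neg, mul_pow]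
    have h0 : 0 ≤ |(γ : ℝ)| := abs_nonneg _
    have h1 : |(γ : ℝ) + m| ≤ |(γ : ℝ)| + m := by
      refine (abs_add_le _ _).trans ?_
      rw [Nat.abs_cast]
    have h2 : |(γ : ℝ)| + 1 ≤ (|(γ : ℝ)| + 1) ^ (m + 1) := le_self_pow₀ (by linarith) (by omega)
    have h3 : (m : ℝ) + 1 ≤ 2 ^ (m + 1) := by
      have : m + 1 ≤ 2 ^ (m + 1) := (Nat.lt_two_pow_self).le
      exact_mod_cast this
    have h4 : (0 : ℝ) ≤ m := Nat.cast_nonneg m
    calc |(γ : ℝ) + m| ≤ (|(γ : ℝ)| + 1) * ((m : ℝ) + 1) := by nlinarith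
      _ ≤ _ := mul_le_mul h2 h3 (by positivity) (by positivity)
  · have : (1 : ℝ) ≤ γ.den := by exact_mod_cast γ.den_pos
    exact le_self_pow₀ this (by omega)
  · refine ⟨-(γ.num + j * γ.den), ?_⟩
    have := Rat.mul_den_eq_num γ
    push_cast
    rw [← this]
    ring

lemma prod_growth {f : ℕ → ℚ} {B : ℝ} (hB : 1 ≤ B) (h : ∀ l, |((f l : ℚ) : ℝ)| ≤ B) :
    ∃ A : ℝ, ∀ m, |(((∏ l ∈ Finset.range m, f l : ℚ)) : ℝ)| ≤ A ^ (m + 1) := by
  refine ⟨B, fun m => ?_⟩
  push_cast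
  rw [Finset.abs_prod]
  calc ∏ l ∈ Finset.range m, |((f l : ℚ) : ℝ)| ≤ ∏ _l ∈ Finset.range m, B :=
        Finset.prod_le_prod (fun _ _ => abs_nonneg _) fun l _ => h l
    _ = B ^ m := by rw [Finset.prod_const, Finset.card_range]
    _ ≤ B ^ (m + 1) := pow_le_pow_right₀ hB (Nat.le_succ m)

lemma GS.poch (γ : ℚ) : GS (fun k => ∏ l ∈ Finset.range k, (((l : ℚ) + γ) / ((l : ℚ) + 1))) := by
  have h0 : 0 ≤ |(γ : ℝ)| := abs_nonneg _
  refine ⟨prod_growth (B := 1 + |(γ : ℝ)|) (by linarith) fun l => ?_, (γ.den : ℝ) ^ 2, fun m => ?_⟩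
  · push_cast
    have hl : (0 : ℝ) ≤ l := Nat.cast_nonneg l
    rw [abs_div, abs_of_pos (show (0 : ℝ) < (l : ℝ) + 1 by positivity), div_le_iff₀ (by positivity)]
    have h1 : |(l : ℝ) + γ| ≤ l + |(γ : ℝ)| := by
      refine (abs_add_le _ _).trans ?_
      rw [Nat.abs_cast]
    nlinarith
  · have hd1 : (1 : ℝ) ≤ γ.den := by exact_mod_cast γ.den_pos
    refine ⟨(γ.den ^ 2) ^ m, by have := γ.den_pos; positivity, ?_, fun j hj => ?_⟩
    · push_cast
      exact pow_le_pow_right₀ (one_le_pow₀ hd1) (Nat.le_succ m)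
    · obtain ⟨a, ha⟩ := poch_int γ j
      refine ⟨((γ.den : ℤ) ^ 2) ^ (m - j) * a, ?_⟩
      push_cast
      rw [← ha]
      have e1 : ((γ.den : ℚ) ^ 2) ^ m = ((γ.den : ℚ) ^ 2) ^ (m - j) * ((γ.den : ℚ) ^ 2) ^ j := by
        rw [← pow_add]
        congr 1
        omega
      rw [e1]
      ring

/-- the partial fraction argument -/
lemma fint (L : ℚ) (k : ℕ) : ∀ δ : ℚ, 0 < δ → (∀ i ≤ k, ∃ a : ℤ, L * (1 / (δ + i)) = a) →
    ∃ a : ℤ, L * ((k.factorial : ℚ) / ∏ l ∈ Finset.range (k + 1), (δ + l)) = a := by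
  induction k with
  | zero =>
    intro δ _ h
    obtain ⟨a, ha⟩ := h 0 le_rfl
    refine ⟨a, ?_⟩
    rw [← ha]
    simp
  | succ k ih =>
    intro δ hδ h
    obtain ⟨a, ha⟩ := ih δ hδ fun i hi => h i (by omega)
    obtain ⟨b, hb⟩ := ih (δ + 1) (by linarith) fun i hi => by
      obtain ⟨c, hc⟩ := h (i + 1) (by omega)
      refine ⟨c, ?_⟩
      rw [← hc]
      push_cast
      ring
    refine ⟨a - b, ?_⟩
    push_cast
    rw [← ha, ← hb]
    have hR : (∏ l ∈ Finset.range (k + 1), (δ + l)) ≠ 0 := Finset.prod_ne_zero_iff.2 fun l _ => by positivity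
    have hP : (∏ l ∈ Finset.range (k + 1), (δ + 1 + l)) ≠ 0 := Finset.prod_ne_zero_iff.2 fun l _ => by positivity
    have e1 : (∏ l ∈ Finset.range (k + 1 + 1), (δ + l)) = (∏ l ∈ Finset.range (k + 1), (δ + l)) * (δ + k + 1) := by
      rw [Finset.prod_range_succ]
      push_cast
      ring
    have e2 : (∏ l ∈ Finset.range (k + 1 + 1), (δ + l)) = δ * (∏ l ∈ Finset.range (k + 1), (δ + 1 + l)) := by
      rw [Finset.prod_range_succ', mul_comm]
      push_cast
      rw [add_zero]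
      congr 1
      exact Finset.prod_congr rfl fun l _ => by ring
    set R := ∏ l ∈ Finset.range (k + 1), (δ + l) with hRd
    set P := ∏ l ∈ Finset.range (k + 1), (δ + 1 + l) with hPd
    have e3 : R * (δ + k + 1) = δ * P := by rw [← e1, e2]
    rw [e1, Nat.factorial_succ]
    push_cast
    have hk : δ + (k : ℚ) + 1 ≠ 0 := by positivity
    have hk' : (k : ℚ) + 1 ≠ 0 := by positivity
    have e4 : P = R * (δ + k + 1) / δ := by rw [e3]; field_simp
    rw [e4]
    field_simp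
    ring

lemma GS.ipoch {δ : ℚ} (hδ : 0 < δ) : GS (fun k => ∏ l ∈ Finset.range k, (((l : ℚ) + 1) / ((l : ℚ) + δ))) := by
  have hδ' : (0 : ℝ) < δ := by exact_mod_cast hδ
  refine ⟨prod_growth (B := 1 + 1 / (δ : ℝ)) (by have := one_div_pos.2 hδ'; linarith) fun l => ?_,
    (2 ^ 8) ^ (δ.den + δ.num.natAbs), fun m => ?_⟩
  · push_cast
    have hl : (0 : ℝ) ≤ l := Nat.cast_nonneg l
    rw [abs_of_nonneg (by positivity), div_le_iff₀ (by positivity)]
    have h1 : (1 + 1 / (δ : ℝ)) * (l + δ) = l + δ + l / δ + 1 := by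
      field_simp
      ring
    have h2 : 0 ≤ (l : ℝ) / δ := by positivity
    rw [h1]
    linarith
  · refine ⟨Nat.lcmUpto (m * δ.den + δ.num.natAbs), Nat.lcmUpto_pos _, ?_, fun j hj => ?_⟩
    · refine (lcm_bound _).trans ?_
      rw [← pow_mul (2 ^ 8 : ℝ)]
      refine pow_le_pow_right₀ (by norm_num) ?_
      nlinarith [Nat.zero_le (m * δ.num.natAbs), δ.den_pos]
    · rcases j with _ | k
      · exact ⟨Nat.lcmUpto (m * δ.den + δ.num.natAbs), by simp⟩
      · obtain ⟨a, ha⟩ := fint (Nat.lcmUpto (m * δ.den + δ.num.natAbs) : ℚ) k δ hδ fun i hi => by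
          have hn : 0 < δ.num := Rat.num_pos.2 hδ
          have h1 : 0 < δ.num + i * δ.den := by positivity
          have h2 : (δ.num + i * δ.den).natAbs ∣ Nat.lcmUpto (m * δ.den + δ.num.natAbs) := by
            refine dvd_lcmUpto (Int.natAbs_pos.2 h1.ne') ?_
            have h3 : (δ.num + i * δ.den).natAbs ≤ δ.num.natAbs + i * δ.den := by
              refine (Int.natAbs_add_le _ _).trans ?_
              rw [Int.natAbs_mul, Int.natAbs_natCast, Int.natAbs_natCast]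
            have h4 : i * δ.den ≤ m * δ.den := Nat.mul_le_mul_right _ (by omega)
            omega
          obtain ⟨c, hc⟩ := Int.natAbs_dvd.1 (Int.natCast_dvd_natCast.2 h2)
          refine ⟨c * δ.den, ?_⟩
          have h3 := Rat.mul_den_eq_num δ
          have hd : (δ.den : ℚ) ≠ 0 := by exact_mod_cast δ.den_nz
          have h5 : ((Nat.lcmUpto (m * δ.den + δ.num.natAbs) : ℕ) : ℚ) = ((δ.num : ℚ) + i * δ.den) * c := by
            exact_mod_cast hc
          have h6 : (δ.num : ℚ) + i * δ.den = (δ + i) * δ.den := by rw [add_mul, h3]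
          rw [h5, h6]
          have h7 : δ + (i : ℚ) ≠ 0 := by positivity
          push_cast
          field_simp
        refine ⟨(k + 1) * a, ?_⟩
        push_cast
        rw [← ha, Finset.prod_div_distrib]
        have e1 : ∏ l ∈ Finset.range (k + 1), ((l : ℚ) + 1) = (k + 1) * (k.factorial : ℚ) := by
          have := Finset.prod_range_add_one_eq_factorial (k + 1)
          rw [Nat.factorial_succ] at this
          exact_mod_cast this
        have e2 : ∏ l ∈ Finset.range (k + 1), ((l : ℚ) + δ) = ∏ l ∈ Finset.range (k + 1), (δ + l) :=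
          Finset.prod_congr rfl fun l _ => add_comm _ _
        rw [e1, e2]
        ring

theorem main : Pool.Agent.T44.GO.S_SDC := by
  intro n Q γ hO a j
  have hcc : ∀ k, cc n Q (γ j) k = ∏ i, ((∏ l ∈ Finset.range k, (((l : ℚ) + γ j) / ((l : ℚ) + 1))) *
      ∏ l ∈ Finset.range k, (((l : ℚ) + 1) / ((l : ℚ) + (1 + γ j - γ i)))) := by
    intro k
    unfold cc
    simp only [← Finset.prod_mul_distrib]
    rw [Finset.prod_comm]
    refine Finset.prod_congr rfl fun l _ => ?_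
    have h1 : Q.eval (γ j + l + 1) = ∏ i, (γ j + l + 1 - γ i) := by
      rw [hO.prod, Polynomial.eval_prod]
      simp
    have h2 : (γ j + l) ^ n = ∏ _i : Fin n, (γ j + l) := by
      rw [Finset.prod_const, Finset.card_univ, Fintype.card_fin]
    rw [h1, h2, ← Finset.prod_div_distrib]
    refine Finset.prod_congr rfl fun i _ => ?_
    have h3 : (l : ℚ) + 1 ≠ 0 := by positivity
    have h4 : (l : ℚ) + (1 + γ j - γ i) ≠ 0 := by
      have := hO.lt i j
      have hl : (0 : ℚ) ≤ l := Nat.cast_nonneg l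
      have : 0 < (l : ℚ) + (1 + γ j - γ i) := by linarith
      exact this.ne'
    have h5 : γ j + l + 1 - γ i = (l : ℚ) + (1 + γ j - γ i) := by ring
    rw [h5]
    field_simp
    ring
  have hG : GS (fun k => (-(γ j + k)) ^ a * cc n Q (γ j) k) := by
    refine ((GS.lin (γ j)).pow a).mul ?_
    rw [funext hcc]
    refine GS.prod _ _ fun i => (GS.poch (γ j)).mul (GS.ipoch ?_)
    have := hO.lt i j
    linarith
  refine sdc_of ?_ ?_
  · simpa only [PowerSeries.coeff_mk] using hG.1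
  · simpa only [PowerSeries.coeff_mk] using hG.2

end Pool.Agent.T44.GO.SDC
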