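import Pool.Agent.T44.GL.Hs

/-!
# The torsor of the similitudes with a common multiplier
-/

set_option autoImplicit false
set_option linter.unusedSectionVars false

open Matrix

namespace Pool.Agent.T44.GO

open Pool.Agent.TH127.PT Pool.Agent.Y123.ST Pool.Agent.Y123.SR Pool.Agent.Y123.GN
open Pool.Agent.T44.GL (bX bX_E2 E2_pol)
open Pool.Agent.T44.GF (E2_unit_blk)

variable {n k : ℕ} {K : Subfield ℂ} {J B : Matrix (Fin n) (Fin n) ℂ}

/-- the torsor of the similitudes with a common multiplier -/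
def RS (k : ℕ) (J B : Matrix (Fin n) (Fin n) ℂ) : Set (Matrix (I2 (Fin 0) n k) (I2 (Fin 0) n k) ℂ) :=
  {y | ∃ μ : ℂ, μ ≠ 0 ∧ ∃ X : Fin k → Matrix (Fin n) (Fin n) ℂ, y = E2 1 X ∧ ∀ l, X l * J * (X l)ᵀ = μ • B}

theorem rs_unit (hB : B.det ≠ 0) : ∀ y ∈ RS k J B, IsUnit y := by
  rintro _ ⟨μ, hμ, X, rfl, hX⟩
  exact E2_isUnit isUnit_one fun j => (Matrix.isUnit_iff_isUnit_det _).1 (unit_of_form hμ hB (hX j))

theorem rs_sub (hn : 0 < n) (hB : B.det ≠ 0) (hJ : J.det ≠ 0) (hJK : ∀ a b, J a b ∈ K) (hBK : ∀ a b, B a b ∈ K) :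
    IsSubtorsor K (RS k J B) := by
  classical
  have hne : Nonempty (Fin n) := ⟨⟨0, hn⟩⟩
  refine sub_of (rs_unit hB) ?_ ?_ ?_
  · rintro _ ⟨x, hx, X, rfl, hX⟩ _ ⟨y, hy, Y, rfl, hY⟩ _ ⟨z, hz, Z, rfl, hZ⟩
    refine ⟨x * y⁻¹ * z, mul_ne_zero (mul_ne_zero hx (inv_ne_zero hy)) hz, fun i => X i * (Y i)⁻¹ * Z i, ?_, fun i =>
      form_tor hy hB (hX i) (hY i) (hZ i)⟩
    rw [E2_inv isUnit_one (fun i => (Matrix.isUnit_iff_isUnit_det _).1 (unit_of_form hy hB (hY i))), E2_mul, E2_mul]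
    congr 1
    exact Subsingleton.elim _ _
  · rintro σ hσ _ ⟨z, hz, X, rfl, hX⟩
    rw [E2_map]
    refine ⟨σ z, (map_ne_zero_iff σ σ.injective).2 hz, fun i => (X i).map σ, ?_, fun i => form_map hJK hBK hσ (hX i)⟩
    congr 1
    exact Subsingleton.elim _ _
  · intro y hu hF
    have hy : y = E2 1 (bX y) := by
      ext a b
      have h1 := hF (fun y => y a b - E2 1 (bX y) a b)
        ((Pol.coord a b).sub (E2_pol (x := fun _ => 1) (fun _ _ => Pol.const _) (fun _ _ _ => Pol.coord _ _) a b)) (by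
        rintro _ ⟨z, hz, X, rfl, -⟩
        rw [bX_E2, sub_self])
      exact sub_eq_zero.1 h1
    obtain ⟨a0, b0, hab⟩ : ∃ a b, B a b ≠ 0 := by
      by_contra h
      push Not at h
      apply hB
      have h0 : B = 0 := by
        ext a b
        exact h a b
      rw [h0]
      exact det_zero
    have hrel : ∀ (i j : Fin k) (a b : Fin n), (bX y i * J * (bX y i)ᵀ) a b * B a0 b0 =
        (bX y j * J * (bX y j)ᵀ) a0 b0 * B a b := by
      intro i j a b
      have h1 := hF (fun y => (∑ d, (∑ c, bX y i a c * J c d) * bX y i b d) * B a0 b0 -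
          (∑ d, (∑ c, bX y j a0 c * J c d) * bX y j b0 d) * B a b) (by
        refine Pol.sub (Pol.mul (Pol.sum _ fun d _ => Pol.mul (Pol.sum _ fun c _ => Pol.mul (Pol.coord _ _) (Pol.const _))
          (Pol.coord _ _)) (Pol.const _)) (Pol.mul (Pol.sum _ fun d _ => Pol.mul (Pol.sum _ fun c _ => Pol.mul (Pol.coord _ _)
            (Pol.const _)) (Pol.coord _ _)) (Pol.const _))) (by
        rintro _ ⟨μ, hμ, X, rfl, h3⟩
        have h4 := congrFun (congrFun (h3 i) a) b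
        have h5 := congrFun (congrFun (h3 j) a0) b0
        rw [bX_E2]
        simp only [Matrix.mul_apply, Matrix.transpose_apply, Matrix.smul_apply, smul_eq_mul] at h4 h5
        rw [h4, h5]
        ring)
      simp only [Matrix.mul_apply, Matrix.transpose_apply]
      exact sub_eq_zero.1 h1
    by_cases hk : k = 0
    · subst hk
      exact ⟨1, one_ne_zero, bX y, hy, fun l => l.elim0⟩
    · set i0 : Fin k := ⟨0, Nat.pos_of_ne_zero hk⟩ with hi0
      set μ := (bX y i0 * J * (bX y i0)ᵀ) a0 b0 / B a0 b0 with hμ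
      have hform : ∀ i, bX y i * J * (bX y i)ᵀ = μ • B := by
        intro i
        ext a b
        have h1 := hrel i i0 a b
        rw [Matrix.smul_apply, smul_eq_mul, hμ, div_mul_eq_mul_div, eq_div_iff hab]
        exact h1
      refine ⟨μ, ?_, bX y, hy, hform⟩
      intro h0
      have h1 := hform i0
      rw [h0, zero_smul] at h1
      have h2 : IsUnit (bX y i0) := by
        rw [hy] at hu
        exact E2_unit_blk hu i0
      have h2d : (bX y i0).det ≠ 0 := ((Matrix.isUnit_iff_isUnit_det _).1 h2).ne_zero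
      have h3 := congrArg det h1
      rw [det_mul, det_mul, det_transpose, det_zero] at h3
      exact mul_ne_zero (mul_ne_zero h2d hJ) h2d h3

/-- all multipliers occur -/
theorem tate0 {T : Set (Matrix (I2 (Fin 0) n k) (I2 (Fin 0) n k) ℂ)} (hT : IsSubtorsor K T) (hB : B.det ≠ 0)
    (hJK : ∀ a b, J a b ∈ K) (hBK : ∀ a b, B a b ∈ K) {Z : Fin k → Matrix (Fin n) (Fin n) ℂ} {τ : ℂ}
    (hτ : Transcendental K τ) (hc : E2 1 Z ∈ T) (hZ : ∀ l, Z l * J * (Z l)ᵀ = τ • B) {z : ℂ} (hz : z ≠ 0) :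
    ∃ X : Fin k → Matrix (Fin n) (Fin n) ℂ, E2 1 X ∈ T ∧ ∀ l, X l * J * (X l)ᵀ = z • B := by
  have hτ0 : τ ≠ 0 := by
    intro h0
    apply hτ
    rw [h0]
    exact isAlgebraic_zero
  have htr : ∀ z : ℂ, Transcendental K z → ∃ X : Fin k → Matrix (Fin n) (Fin n) ℂ,
      E2 1 X ∈ T ∧ ∀ l, X l * J * (X l)ᵀ = z • B := by
    intro z hz
    obtain ⟨σ, h1, h2⟩ := Pool.Agent.H37PG.exists_aut hτ hz
    have h3 := aut_mem hT (σ := σ) (fun x hx => h1 ⟨x, hx⟩) hc
    refine ⟨fun i => (Z i).map σ, ?_, fun l => ?_⟩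
    · rw [E2_map] at h3
      have h4 : (1 : Matrix (Fin 0) (Fin 0) ℂ).map σ = 1 := Subsingleton.elim _ _
      rw [h4] at h3
      exact h3
    · have h4 := form_map hJK hBK (σ := σ) (fun x hx => h1 ⟨x, hx⟩) (hZ l)
      rw [h4, h2]
  by_cases hza : Transcendental K z
  · exact htr z hza
  have hza' : IsAlgebraic K z := by
    by_contra h
    exact hza h
  have h2 : Transcendental K (τ ^ 2) := fun h => hτ (h.of_pow (by norm_num))
  have h3 : Transcendental K (z * τ) := by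
    intro h
    apply hτ
    have h4 : τ = z⁻¹ * (z * τ) := by rw [← mul_assoc, inv_mul_cancel₀ hz, one_mul]
    rw [h4]
    exact hza'.inv.mul h
  obtain ⟨X₂, hX₂, hf₂⟩ := htr _ h2
  obtain ⟨X₃, hX₃, hf₃⟩ := htr _ h3
  have h4 := hT.torsor _ hc _ hX₂ _ hX₃
  rw [E2_inv isUnit_one (fun i => (Matrix.isUnit_iff_isUnit_det _).1 (unit_of_form (pow_ne_zero 2 hτ0) hB (hf₂ i))),
    E2_mul, E2_mul] at h4
  have h5 : (1 : Matrix (Fin 0) (Fin 0) ℂ) * 1⁻¹ * 1 = 1 := Subsingleton.elim _ _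
  rw [h5] at h4
  refine ⟨_, h4, fun l => ?_⟩
  rw [form_tor (pow_ne_zero 2 hτ0) hB (hZ l) (hf₂ l) (hf₃ l)]
  congr 1
  field_simp

/-- translation on the right -/
theorem mulr_sub {M : Type} [Fintype M] [DecidableEq M] {T : Set (Matrix M M ℂ)} (hT : IsSubtorsor K T)
    {U : Matrix M M ℂ} (hU : IsUnit U) (hUK : ∀ a b, U a b ∈ K) : IsSubtorsor K {y | y * U ∈ T} := by
  have hUd := (Matrix.isUnit_iff_isUnit_det _).1 hU
  refine sub_of ?_ ?_ ?_ ?_
  · intro y hy
    have h1 := hT.isUnit _ hy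
    have h2 : y = (y * U) * U⁻¹ := by rw [Matrix.mul_assoc, mul_nonsing_inv _ hUd, Matrix.mul_one]
    rw [h2]
    exact h1.mul ((Matrix.isUnit_iff_isUnit_det _).2 (Matrix.isUnit_nonsing_inv_det _ hUd))
  · intro x hx y hy z hz
    have h1 := hT.torsor _ hx _ hy _ hz
    have h2 : x * U * (y * U)⁻¹ * (z * U) = x * y⁻¹ * z * U := by
      rw [Matrix.mul_inv_rev]
      calc x * U * (U⁻¹ * y⁻¹) * (z * U) = x * (U * U⁻¹) * y⁻¹ * z * U := by simp only [Matrix.mul_assoc]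
        _ = _ := by rw [mul_nonsing_inv _ hUd, Matrix.mul_one]
    rw [h2] at h1
    exact h1
  · intro σ hσ x hx
    have h1 := aut_mem hT (σ := σ) hσ hx
    rw [Matrix.map_mul] at h1
    have h2 : U.map σ = U := by
      ext a b
      exact hσ _ (hUK a b)
    rw [h2] at h1
    exact h1
  · intro y hu hF
    obtain ⟨I, h1, h2⟩ := hT.algebraic
    show y * U ∈ T
    rw [h2]
    refine ⟨hu.mul hU, fun p hp => ?_⟩
    exact hF (fun y => MvPolynomial.eval (fl (y * U)) p) (Pol.comp (fun a b => by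
      simp only [Matrix.mul_apply]
      exact Pol.sum _ fun c _ => Pol.mul (Pol.coord _ _) (Pol.const _)) p) fun x hx => ((h2 _).1 hx).2 p hp

end Pool.Agent.T44.GO
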