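import Pool.Agent.T44.GO.Iv
import Pool.Agent.T44.GO.Tt
import Pool.Agent.T44.GO.SDC
import Pool.Agent.T44.GO.PGR
import Pool.Agent.T44.GO.ROOT
import Pool.Agent.T44.GO.CONT
import Pool.Agent.T44.GO.FEW

/-!
# The data of the families with exponents `± a_j / d` at infinity
-/

set_option autoImplicit false

open Matrix

namespace Pool.Agent.T44.GO

open Pool.Agent.Y113 (Cv ev)
open Pool.Agent.Y119.HY (QD Am Bm Jm cm cm_apply QB ps Hf)
open Pool.Agent.Y119.HZ (cf km)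

section exponents
variable {m d : ℕ} {a : Fin m → ℕ}

/-- the exponents, multiplied with `d` -/
def ex {m : ℕ} (a : Fin m → ℕ) (j : Fin (2 * m)) : ℤ :=
  if h : (j : ℕ) < m then (a ⟨j, h⟩ : ℤ) else -(a ⟨j - m, by omega⟩ : ℤ)

/-- the exponents -/
def gx {m : ℕ} (a : Fin m → ℕ) (d : ℕ) (j : Fin (2 * m)) : ℚ := (ex a j : ℚ) / d

theorem ex_abs (ha : ∀ j, 0 < a j ∧ 2 * a j < d) (j : Fin (2 * m)) : 0 < (ex a j).natAbs ∧ 2 * (ex a j).natAbs < d := by
  unfold ex
  split_ifs with h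
  · have := ha ⟨j, h⟩
    omega
  · have := ha ⟨j - m, by omega⟩
    omega

theorem ex_inj (hi : Function.Injective a) (ha : ∀ j, 0 < a j ∧ 2 * a j < d) : Function.Injective (ex a) := by
  intro i j hij
  unfold ex at hij
  split_ifs at hij with h1 h2 h2
  · have h3 := hi (by exact_mod_cast hij : a ⟨i, h1⟩ = a ⟨j, h2⟩)
    rw [Fin.mk.injEq] at h3
    exact Fin.ext h3
  · have := (ha ⟨i, h1⟩).1
    have := (ha ⟨j - m, by omega⟩).1
    omega
  · have := (ha ⟨i - m, by omega⟩).1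
    have := (ha ⟨j, h2⟩).1
    omega
  · have h3 := hi (by
      have := neg_injective hij
      exact_mod_cast this : a ⟨i - m, _⟩ = a ⟨j - m, _⟩)
    rw [Fin.mk.injEq] at h3
    apply Fin.ext
    omega

theorem ex_neg (i : Fin (2 * m)) : ∃ j, ex a j = -ex a i := by
  by_cases h : (i : ℕ) < m
  · refine ⟨⟨i + m, by omega⟩, ?_⟩
    unfold ex
    rw [dif_neg (by simp only; omega), dif_pos h]
    congr 3
    apply Fin.ext
    simp
  · refine ⟨⟨i - m, by omega⟩, ?_⟩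
    unfold ex
    rw [dif_pos (by simp only; omega), dif_neg h, neg_neg]

theorem gx_mul (hd : d ≠ 0) (j : Fin (2 * m)) : (ex a j : ℚ) = d * gx a d j := by
  have hdq : (d : ℚ) ≠ 0 := by exact_mod_cast hd
  unfold gx
  field_simp

theorem prod_split {R : Type*} [CommMonoid R] (f : Fin (2 * m) → R) :
    ∏ j, f j = (∏ i : Fin m, f ⟨i, by omega⟩) * ∏ i : Fin m, f ⟨i + m, by omega⟩ := by
  have h1 : ∏ j, f j = ∏ j : Fin (m + m), f (Fin.cast (two_mul m).symm j) :=
    (Equiv.prod_comp (finCongr (two_mul m).symm) f).symm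
  rw [h1, Fin.prod_univ_add]
  congr 1
  refine Finset.prod_congr rfl fun i _ => ?_
  congr 1
  apply Fin.ext
  simp [add_comm]

theorem prod_ex (a : Fin m → ℕ) (d : ℕ) :
    QB (fun i => (a i : ℚ) / d) = ∏ j, (Polynomial.X - Polynomial.C (gx a d j)) := by
  rw [prod_split]
  unfold QB
  rw [← Finset.prod_mul_distrib]
  refine Finset.prod_congr rfl fun i _ => ?_
  have h1 : gx a d ⟨i, by omega⟩ = (a i : ℚ) / d := by
    unfold gx ex
    rw [dif_pos (by simp)]
    simp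
  have h2 : gx a d ⟨i + m, by omega⟩ = -((a i : ℚ) / d) := by
    unfold gx ex
    rw [dif_neg (by simp)]
    simp [neg_div]
  rw [h1, h2, map_neg, sub_neg_eq_add, map_pow]
  ring

theorem od_of (hm : 1 ≤ m) (hi : Function.Injective a) (ha : ∀ j, 0 < a j ∧ 2 * a j < d) :
    OD (2 * m) (QB fun i => (a i : ℚ) / d) (gx a d) := by
  have hd : 0 < d := by
    have := ha ⟨0, hm⟩
    omega
  have hdq : (0 : ℚ) < d := by exact_mod_cast hd
  refine ⟨Pool.Agent.Y119.HZ.QD_QB hm fun j l => ?_, prod_ex a d, ?_, ?_⟩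
  · have h1 := ha j
    have h2 : (0 : ℚ) < (a j : ℚ) / d := div_pos (by exact_mod_cast h1.1) hdq
    have h3 : (a j : ℚ) / d < 1 / 2 := by
      rw [div_lt_iff₀ hdq]
      have : (2 * a j : ℚ) < d := by exact_mod_cast h1.2
      linarith
    have h4 : (0 : ℚ) ≤ l := Nat.cast_nonneg l
    refine ⟨by linarith, fun h5 => ?_⟩
    have h6 : (l : ℚ) = (a j : ℚ) / d := by linarith
    have h7 : (l : ℚ) < 1 := by linarith
    have h8 : l = 0 := by
      have : l < 1 := by exact_mod_cast h7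
      omega
    rw [h8] at h6
    push_cast at h6
    linarith
  · intro i j hij
    unfold gx at hij
    refine ex_inj hi ha ?_
    rw [div_left_inj' hdq.ne'] at hij
    exact_mod_cast hij
  · intro i j
    have h1 := (ex_abs ha i).2
    have h2 := (ex_abs ha j).2
    unfold gx
    rw [← sub_div, div_lt_one hdq]
    have h3 : ex a i - ex a j < d := by omega
    exact_mod_cast h3

theorem gx_ne (ha : ∀ j, 0 < a j ∧ 2 * a j < d) (i : Fin (2 * m)) : gx a d i ≠ 0 := by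
  have h1 := ex_abs ha i
  have hd : (d : ℚ) ≠ 0 := by
    have : d ≠ 0 := by omega
    exact_mod_cast this
  unfold gx
  refine div_ne_zero ?_ hd
  have h2 : ex a i ≠ 0 := by omega
  exact_mod_cast h2

theorem gx_neg (i : Fin (2 * m)) : ∃ j, gx a d j = -gx a d i := by
  obtain ⟨j, hj⟩ := ex_neg (a := a) i
  refine ⟨j, ?_⟩
  unfold gx
  rw [hj]
  push_cast
  ring

end exponents

variable {n : ℕ} {Q : Polynomial ℚ} {γ : Fin n → ℚ} {d : ℕ} {aa : Fin n → ℤ}

/-- the entries of the solution -/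
theorem Yi_num (hd : d ≠ 0) (haa : ∀ j, (aa j : ℚ) = d * γ j) {t : ℕ} (ht : 0 < t) (i j : Fin n) :
    Yi n Q γ ((1 / (t : ℝ) ^ d : ℝ) : ℂ) i j =
      ∑' k : ℕ, (((-(γ j + k)) ^ (i : ℕ) * cc n Q (γ j) k : ℚ) : ℂ) * (t : ℂ) ^ (-(aa j + d * k) : ℤ) := by
  have ht0 : (0 : ℝ) < t := by exact_mod_cast ht
  have htc : (t : ℂ) ≠ 0 := by exact_mod_cast ht.ne'
  have h6 : Complex.exp ((γ j : ℂ) * Complex.log ((1 / (t : ℝ) ^ d : ℝ) : ℂ)) = (t : ℂ) ^ (-aa j) := by
    have e1 : Complex.log (((1 / (t : ℝ) ^ d : ℝ)) : ℂ) = -(d * Real.log t : ℝ) := by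
      rw [← Complex.ofReal_log (by positivity), one_div, Real.log_inv, Real.log_pow]
      push_cast
      ring
    have e2 : (γ j : ℂ) * -((d * Real.log t : ℝ) : ℂ) = ((-aa j : ℤ) : ℂ) * ((Real.log t : ℝ) : ℂ) := by
      have e3 : ((aa j : ℤ) : ℂ) = (d : ℂ) * (γ j : ℂ) := by
        have := congrArg (fun q : ℚ => (q : ℂ)) (haa j)
        push_cast at this
        exact_mod_cast this
      push_cast
      rw [e3]
      ring
    rw [e1, e2, Complex.exp_int_mul, ← Complex.ofReal_exp, Real.exp_log ht0]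
    norm_num
  unfold Yi wp
  rw [mul_diagonal, h6]
  show (∑' k : ℕ, gc n Q γ k i j * (((1 / (t : ℝ) ^ d : ℝ)) : ℂ) ^ k) * _ = _
  rw [← tsum_mul_right]
  refine tsum_congr fun k => ?_
  have h7 : gc n Q γ k i j = (((-(γ j + k)) ^ (i : ℕ) * cc n Q (γ j) k : ℚ) : ℂ) := by
    unfold gc
    rw [cm_apply, cf_gm, Matrix.of_apply]
  rw [h7, mul_assoc]
  congr 1
  have h8 : (((1 / (t : ℝ) ^ d : ℝ)) : ℂ) ^ k = (t : ℂ) ^ (-(d * k : ℕ) : ℤ) := by
    push_cast
    rw [one_div, inv_pow, ← pow_mul, _root_.zpow_neg]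
    congr 1
  rw [h8, ← zpow_add₀ htc]
  congr 1
  push_cast
  ring

theorem exists_den (M : Matrix (Fin n) (Fin n) ℚ) : ∃ D : ℕ, D ≠ 0 ∧ ∃ b : Fin n → Fin n → ℤ, ∀ i j, (D : ℚ) * M i j = b i j := by
  refine ⟨∏ p : Fin n × Fin n, (M p.1 p.2).den, Finset.prod_ne_zero_iff.2 fun p _ => (M p.1 p.2).den_nz, ?_⟩
  have h1 : ∀ i j, ∃ b : ℤ, ((∏ p : Fin n × Fin n, (M p.1 p.2).den : ℕ) : ℚ) * M i j = b := by
    intro i j
    obtain ⟨c, hc⟩ := Finset.dvd_prod_of_mem (fun p : Fin n × Fin n => (M p.1 p.2).den) (Finset.mem_univ (i, j))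
    refine ⟨c * (M i j).num, ?_⟩
    rw [hc]
    push_cast
    have h2 := Rat.mul_den_eq_num (M i j)
    linear_combination (c : ℚ) * h2
  choose b hb using h1
  exact ⟨b, hb⟩

/-- the equation with integral coefficients -/
theorem ode_int0 (h : OD n Q γ) (hd : d ≠ 0) (haa : ∀ j, (aa j : ℚ) = d * γ j) :
    ∃ (T : Polynomial ℤ) (A : Matrix (Fin n) (Fin n) (Polynomial ℤ)), T ≠ 0 ∧ ∀ i j,
      ((T.map (Int.castRingHom ℚ) : Polynomial ℚ) : PowerSeries ℚ) *
        (PowerSeries.X * PowerSeries.derivative ℚ (Zz n Q γ d hd aa i j) +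
          ∑ k, PowerSeries.C (((0 : Matrix (Fin n) (Fin n) ℤ) i k : ℤ) : ℚ) * Zz n Q γ d hd aa k j) =
      ∑ k, Zz n Q γ d hd aa i k * (((A k j).map (Int.castRingHom ℚ) : Polynomial ℚ) : PowerSeries ℚ) := by
  obtain ⟨D, hD, b, hb⟩ := exists_den (Matrix.of fun i j => (d : ℚ) * Bt n Q γ i j)
  have hc : ∀ z : ℤ, (((Polynomial.C z).map (Int.castRingHom ℚ) : Polynomial ℚ) : PowerSeries ℚ) = PowerSeries.C (z : ℚ) := by
    intro z
    rw [Polynomial.map_C, Polynomial.coe_C]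
    rfl
  refine ⟨Polynomial.C (D : ℤ) * (1 - Polynomial.X ^ d), Matrix.of fun k j => Polynomial.C (b k j) * Polynomial.X ^ ee d aa k j,
    ?_, fun i j => ?_⟩
  · refine mul_ne_zero (Polynomial.C_ne_zero.2 (by exact_mod_cast hD)) ?_
    intro h0
    have h1 := congrArg (Polynomial.eval 0) h0
    simp [hd] at h1
  · have h1 := ode_Z h hd haa i j
    have h2 : ∑ k, PowerSeries.C (((0 : Matrix (Fin n) (Fin n) ℤ) i k : ℤ) : ℚ) * Zz n Q γ d hd aa k j = 0 := by
      simp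
    rw [h2, add_zero]
    have h3 : ((((Polynomial.C (D : ℤ) * (1 - Polynomial.X ^ d)).map (Int.castRingHom ℚ) : Polynomial ℚ)) : PowerSeries ℚ) =
        PowerSeries.C (D : ℚ) * (1 - PowerSeries.X ^ d) := by
      rw [Polynomial.map_mul, Polynomial.coe_mul, hc, Polynomial.map_sub, Polynomial.map_one, Polynomial.map_pow,
        Polynomial.map_X, Polynomial.coe_sub, Polynomial.coe_one, Polynomial.coe_pow, Polynomial.coe_X, Int.cast_natCast]
    rw [h3, mul_assoc, h1, Finset.mul_sum]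
    refine Finset.sum_congr rfl fun k _ => ?_
    have h4 : (((((Matrix.of fun k j => Polynomial.C (b k j) * Polynomial.X ^ ee d aa k j) k j : Polynomial ℤ)).map
        (Int.castRingHom ℚ) : Polynomial ℚ) : PowerSeries ℚ) = PowerSeries.C ((b k j : ℤ) : ℚ) * PowerSeries.X ^ ee d aa k j := by
      rw [Matrix.of_apply, Polynomial.map_mul, Polynomial.coe_mul, hc, Polynomial.map_pow, Polynomial.map_X,
        Polynomial.coe_pow, Polynomial.coe_X]
    rw [h4]
    have h5 := hb k j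
    rw [Matrix.of_apply] at h5
    have h6 : (PowerSeries.C (D : ℚ) : PowerSeries ℚ) * PowerSeries.C ((d : ℚ) * Bt n Q γ k j) =
        PowerSeries.C ((b k j : ℤ) : ℚ) := by rw [← map_mul, h5]
    rw [← h6]
    ring

end Pool.Agent.T44.GO
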