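import Pool.Agent.T44.GO.Fm4

/-!
# The analytic solutions at infinity
-/

set_option autoImplicit false

open Matrix

namespace Pool.Agent.T44.GO

open Pool.Agent.Y119.HY (QD Am Bm Jm cm cm_apply cm_mul PG ps ps_add ps_smul ps_sum ps_shift ps_zero ps_an ps_deriv HD Gm
  Lens Hf mem_Lens real_mem_Lens slit_Lens)
open Pool.Agent.Y119.HZ (cf km km_apply th)

variable {n : ℕ} {Q : Polynomial ℚ} {γ : Fin n → ℚ}

/-- the coefficients as complex matrices -/
noncomputable def gc (n : ℕ) (Q : Polynomial ℚ) (γ : Fin n → ℚ) (k : ℕ) : Matrix (Fin n) (Fin n) ℂ := cm (cf (gm n Q γ) k)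

/-- the powers -/
noncomputable def wp (γ : Fin n → ℚ) (w : ℂ) : Matrix (Fin n) (Fin n) ℂ :=
  Matrix.diagonal fun j => Complex.exp ((γ j : ℂ) * Complex.log w)

/-- the solution -/
noncomputable def Yi (n : ℕ) (Q : Polynomial ℚ) (γ : Fin n → ℚ) (w : ℂ) : Matrix (Fin n) (Fin n) ℂ :=
  Hf (gc n Q γ) w * wp γ w

theorem gc_PG (hP : S_PGR) (h : OD n Q γ) (a j : Fin n) : PG fun k => gc n Q γ k a j := by
  have h1 := hP n Q γ h a j
  have h2 : (fun k => gc n Q γ k a j) = fun k : ℕ => (((-(γ j + k)) ^ (a : ℕ) * cc n Q (γ j) k : ℚ) : ℂ) := by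
    funext k
    unfold gc
    rw [cm_apply, cf_gm, Matrix.of_apply]
  rw [h2]
  exact h1

/-- the recursion -/
theorem step_c (h : OD n Q γ) (k : ℕ) (a j : Fin n) :
    ((γ j : ℂ) + ((k + 1 : ℕ) : ℂ)) * gc n Q γ (k + 1) a j - (cm (Bm n Q - Am n) * gc n Q γ (k + 1)) a j =
      ((γ j : ℂ) + (k : ℂ)) * gc n Q γ k a j - (cm (Bm n Q - Am n) * gc n Q γ k) a j + (cm (Bm n Q) * gc n Q γ k) a j := by
  have h1 := step_g h k a j
  unfold gc
  rw [← cm_mul, ← cm_mul, ← cm_mul, cm_apply, cm_apply, cm_apply, cm_apply, cm_apply, Matrix.sub_mul, Matrix.sub_mul,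
    Matrix.sub_apply, Matrix.sub_apply]
  have h2 : (γ j + ((k + 1 : ℕ) : ℚ)) * cf (gm n Q γ) (k + 1) a j - ((Bm n Q * cf (gm n Q γ) (k + 1)) a j -
      (Am n * cf (gm n Q γ) (k + 1)) a j) = (γ j + (k : ℚ)) * cf (gm n Q γ) k a j - ((Bm n Q * cf (gm n Q γ) k) a j -
        (Am n * cf (gm n Q γ) k) a j) + (Bm n Q * cf (gm n Q γ) k) a j := by
    push_cast
    linear_combination h1
  exact_mod_cast congrArg (fun q : ℚ => (q : ℂ)) h2

theorem zero_c (h : OD n Q γ) (a j : Fin n) :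
    ((γ j : ℂ) + ((0 : ℕ) : ℂ)) * gc n Q γ 0 a j - (cm (Bm n Q - Am n) * gc n Q γ 0) a j = 0 := by
  have h1 := congrFun (congrFun (R_g0 h) a) j
  unfold gc
  rw [← cm_mul, cf_gm_zero, cm_apply, cm_apply, h1, Matrix.mul_diagonal]
  push_cast
  ring

/-- the equation of the values -/
theorem val_eq (hP : S_PGR) (h : OD n Q γ) {w : ℂ} (hw : ‖w‖ < 1) (a j : Fin n) :
    (1 - w) * (w * deriv (ps fun k => gc n Q γ k a j) w + (γ j : ℂ) * Hf (gc n Q γ) w a j -
      (cm (Bm n Q - Am n) * Hf (gc n Q γ) w) a j) = w * (cm (Bm n Q) * Hf (gc n Q γ) w) a j := by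
  have hg := gc_PG hP h
  have hM : ∀ (M : Matrix (Fin n) (Fin n) ℂ), PG fun k => (M * gc n Q γ k) a j := by
    intro M
    simp only [Matrix.mul_apply]
    exact PG.sum _ fun l _ => (hg l j).smul _
  have hMv : ∀ (M : Matrix (Fin n) (Fin n) ℂ), ps (fun k => (M * gc n Q γ k) a j) w = (M * Hf (gc n Q γ) w) a j := by
    intro M
    simp only [Matrix.mul_apply]
    rw [ps_sum _ (fun l _ => (hg l j).smul _) hw]
    refine Finset.sum_congr rfl fun l _ => ?_
    rw [ps_smul]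
    rfl
  set u : ℕ → ℂ := fun k => ((γ j : ℂ) + (k : ℂ)) * gc n Q γ k a j - (cm (Bm n Q - Am n) * gc n Q γ k) a j with hu
  set v : ℕ → ℂ := fun k => (cm (Bm n Q) * gc n Q γ k) a j with hv
  have hgk : PG fun k => (k : ℂ) * gc n Q γ k a j := (hg a j).nat
  have huPG : PG u := by
    have h1 := (((hg a j).smul (γ j : ℂ)).add hgk).add ((hM (cm (Bm n Q - Am n))).smul (-1))
    have h2 : u = fun k => ((γ j : ℂ) * gc n Q γ k a j + (k : ℂ) * gc n Q γ k a j) + -1 * (cm (Bm n Q - Am n) * gc n Q γ k) a j := by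
      funext k
      rw [hu]
      ring
    rw [h2]
    exact h1
  have huv : ps u w = w * deriv (ps fun k => gc n Q γ k a j) w + (γ j : ℂ) * Hf (gc n Q γ) w a j -
      (cm (Bm n Q - Am n) * Hf (gc n Q γ) w) a j := by
    have h2 : u = fun k => ((γ j : ℂ) * gc n Q γ k a j + (k : ℂ) * gc n Q γ k a j) + -1 * (cm (Bm n Q - Am n) * gc n Q γ k) a j := by
      funext k
      rw [hu]
      ring
    rw [h2, ps_add (((hg a j).smul (γ j : ℂ)).add hgk) ((hM (cm (Bm n Q - Am n))).smul (-1)) hw,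
      ps_add ((hg a j).smul (γ j : ℂ)) hgk hw, ps_smul, ps_smul, hMv, ps_deriv (hg a j) hw]
    have h3 : Hf (gc n Q γ) w a j = ps (fun k => gc n Q γ k a j) w := rfl
    rw [h3]
    ring
  have hstep : ps u w = w * (ps u w + ps v w) := by
    rw [← ps_add huPG (hM (cm (Bm n Q))) hw]
    conv_lhs => rw [ps_shift huPG hw]
    have h0 : u 0 = 0 := zero_c h a j
    rw [h0, zero_add]
    congr 2
    funext k
    exact step_c h k a j
  rw [← huv, ← hMv]
  have h4 : ps v w = ps (fun k => (cm (Bm n Q) * gc n Q γ k) a j) w := rfl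
  rw [← h4]
  linear_combination hstep

/-- **the system** -/
theorem Yi_HD (hP : S_PGR) (h : OD n Q γ) (w : ℂ) (hw : w ∈ Lens) :
    HD (Yi n Q γ) (Gm (cm (Bm n Q) - cm (Am n)) (cm (Bm n Q)) w * Yi n Q γ w) w := by
  intro a j
  have hw1 := (mem_Lens.1 hw).1
  have hw0 : w ≠ 0 := Complex.slitPlane_ne_zero (slit_Lens hw)
  have h1w : 1 - w ≠ 0 := by
    intro h0
    have : w = 1 := (sub_eq_zero.1 h0).symm
    rw [this, norm_one] at hw1
    exact lt_irrefl _ hw1
  have hd1 : HasDerivAt (ps fun k => gc n Q γ k a j) (deriv (ps fun k => gc n Q γ k a j) w) w :=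
    ((ps_an (gc_PG hP h a j)) w (by rwa [Metric.mem_ball, dist_zero_right])).differentiableAt.hasDerivAt
  have hd2 : HasDerivAt (fun w => Complex.exp ((γ j : ℂ) * Complex.log w))
      (Complex.exp ((γ j : ℂ) * Complex.log w) * ((γ j : ℂ) * w⁻¹)) w :=
    ((Complex.hasDerivAt_log (slit_Lens hw)).const_mul (γ j : ℂ)).cexp
  have hfun : (fun w => Yi n Q γ w a j) = fun w => ps (fun k => gc n Q γ k a j) w * Complex.exp ((γ j : ℂ) * Complex.log w) := by
    funext w
    unfold Yi wp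
    rw [Matrix.mul_diagonal]
    rfl
  rw [hfun]
  refine (hd1.mul hd2).congr_deriv ?_
  have hv := val_eq hP h hw1 a j
  have hR : cm (Bm n Q - Am n) = cm (Bm n Q) - cm (Am n) := map_sub _ _ _
  have h3 : Hf (gc n Q γ) w a j = ps (fun k => gc n Q γ k a j) w := rfl
  have e1 : (Gm (cm (Bm n Q) - cm (Am n)) (cm (Bm n Q)) w * Yi n Q γ w) a j =
      ((1 / w) * (cm (Bm n Q - Am n) * Hf (gc n Q γ) w) a j + (1 / (1 - w)) * (cm (Bm n Q) * Hf (gc n Q γ) w) a j) *
        Complex.exp ((γ j : ℂ) * Complex.log w) := by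
    unfold Gm Yi wp
    rw [← Matrix.mul_assoc, Matrix.mul_diagonal, Matrix.add_mul, Matrix.smul_mul, Matrix.smul_mul, Matrix.add_apply,
      Matrix.smul_apply, Matrix.smul_apply, smul_eq_mul, smul_eq_mul, hR]
  rw [e1]
  rw [h3] at hv
  field_simp
  linear_combination hv

end Pool.Agent.T44.GO
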