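import Pool.Agent.T44.GO.An

/-!
# The values of the normalised solution
-/

set_option autoImplicit false

open Matrix

namespace Pool.Agent.T44.GO

open Pool.Agent.Y113 (Cv ev)
open Pool.Agent.Y119.HY (QD Am Bm Jm cm cm_apply cm_mul PG ps Hf HD Gm Lens mem_Lens real_mem_Lens slit_Lens)
open Pool.Agent.Y119.HZ (cf km km_apply th)

variable {n : ℕ} {Q : Polynomial ℚ} {γ : Fin n → ℚ} {d : ℕ} {aa : Fin n → ℤ}

/-- the matrix of the values at `1 / t` -/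
noncomputable def evM (t : ℝ) (M : Matrix (Fin n) (Fin n) (PowerSeries ℚ)) : Matrix (Fin n) (Fin n) ℂ :=
  Matrix.of fun i j => ((ev t (M i j) : ℝ) : ℂ)

theorem evM_mul {t : ℝ} (ht : 0 < t) {M N : Matrix (Fin n) (Fin n) (PowerSeries ℚ)} (hM : ∀ i j, Cv t (M i j))
    (hN : ∀ i j, Cv t (N i j)) : evM t (M * N) = evM t M * evM t N := by
  ext i j
  rw [Matrix.mul_apply]
  show ((ev t ((M * N) i j) : ℝ) : ℂ) = ∑ l, ((ev t (M i l) : ℝ) : ℂ) * ((ev t (N l j) : ℝ) : ℂ)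
  rw [Matrix.mul_apply, Cv.ev_sum ht _ _ fun l _ => Cv.mul ht (hM i l) (hN l j), Complex.ofReal_sum]
  refine Finset.sum_congr rfl fun l _ => ?_
  rw [Cv.ev_mul ht (hM i l) (hN l j), Complex.ofReal_mul]

theorem Cv_mul {t : ℝ} (ht : 0 < t) {M N : Matrix (Fin n) (Fin n) (PowerSeries ℚ)} (hM : ∀ i j, Cv t (M i j))
    (hN : ∀ i j, Cv t (N i j)) (i j : Fin n) : Cv t ((M * N) i j) := by
  rw [Matrix.mul_apply]
  exact Cv.sum ht _ _ fun l _ => Cv.mul ht (hM i l) (hN l j)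

theorem evM_km (t : ℝ) (M : Matrix (Fin n) (Fin n) ℚ) : evM t (km M) = cm M := by
  ext i j
  show ((ev t (km M i j) : ℝ) : ℂ) = cm M i j
  rw [km_apply, Pool.Agent.Y113.ev_C, cm_apply]
  push_cast
  rfl

theorem Cv_km (t : ℝ) (M : Matrix (Fin n) (Fin n) ℚ) (i j : Fin n) : Cv t (km M i j) := Cv.C _

theorem evM_tr (t : ℝ) (M : Matrix (Fin n) (Fin n) (PowerSeries ℚ)) : evM t Mᵀ = (evM t M)ᵀ := rfl

theorem Cv_gm (hP : S_PGR) (h : OD n Q γ) {t : ℝ} (ht : 1 < t) (i j : Fin n) : Cv t (gm n Q γ i j) := by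
  have h1 := (gc_PG hP h i j).summable (r := 1 / t) (by positivity) (by rw [div_lt_one (by linarith)]; exact ht)
  refine h1.congr fun m => ?_
  congr 1
  unfold gc
  rw [cm_apply]
  have h3 : ((cf (gm n Q γ) m i j : ℚ) : ℂ) = (((cf (gm n Q γ) m i j : ℚ) : ℝ) : ℂ) := by push_cast; rfl
  rw [h3, Complex.norm_real, Real.norm_eq_abs]
  rfl

theorem evM_gm (t : ℝ) : evM t (gm n Q γ) = Hf (gc n Q γ) (((1 / t : ℝ)) : ℂ) := by
  ext i j
  show ((ev t (gm n Q γ i j) : ℝ) : ℂ) = ps (fun k => gc n Q γ k i j) (((1 / t : ℝ)) : ℂ)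
  unfold ps ev
  rw [Complex.ofReal_tsum]
  refine tsum_congr fun m => ?_
  show _ = gc n Q γ m i j * _
  have h3 : gc n Q γ m i j = ((PowerSeries.coeff m (gm n Q γ i j) : ℚ) : ℂ) := rfl
  rw [h3]
  push_cast
  rfl

/-- the form at the values -/
theorem form_Hf (hP : S_PGR) (h : OD n Q γ) {t : ℝ} (ht : 1 < t) :
    (Hf (gc n Q γ) (((1 / t : ℝ)) : ℂ))ᵀ * cm (Jm n Q) * Hf (gc n Q γ) (((1 / t : ℝ)) : ℂ) = cm (P0 n Q γ) := by
  have ht0 : 0 < t := by linarith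
  have h1 := congrArg (evM t) (form_g h)
  have hg := fun i j => Cv_gm hP h ht i j
  have hgt : ∀ i j, Cv t ((gm n Q γ)ᵀ i j) := fun i j => hg j i
  rw [evM_mul ht0 (Cv_mul ht0 hgt (Cv_km t _)) hg, evM_mul ht0 hgt (Cv_km t _), evM_km, evM_km, evM_tr, evM_gm] at h1
  exact h1

theorem wp_P0 (h : OD n Q γ) (w : ℂ) : wp γ w * cm (P0 n Q γ) * wp γ w = cm (P0 n Q γ) := by
  ext i j
  unfold wp
  rw [mul_diagonal, diagonal_mul, cm_apply]
  by_cases hP : P0 n Q γ i j = 0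
  · rw [hP]
    simp
  · have h1 := P0_supp h i j hP
    have h2 : Complex.exp ((γ i : ℂ) * Complex.log w) * Complex.exp ((γ j : ℂ) * Complex.log w) = 1 := by
      rw [← Complex.exp_add, ← add_mul]
      have h3 : (γ i : ℂ) + (γ j : ℂ) = 0 := by exact_mod_cast congrArg (fun q : ℚ => (q : ℂ)) h1
      rw [h3, zero_mul, Complex.exp_zero]
    linear_combination ((P0 n Q γ i j : ℚ) : ℂ) * h2

/-- the form at the solution -/
theorem form_Yi (hP : S_PGR) (h : OD n Q γ) {w : ℝ} (hw : 0 < w) (hw1 : w < 1) :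
    (Yi n Q γ (w : ℂ))ᵀ * cm (Jm n Q) * Yi n Q γ (w : ℂ) = cm (P0 n Q γ) := by
  have h1 := form_Hf hP h (t := 1 / w) (by rw [lt_div_iff₀ hw]; linarith)
  rw [one_div_one_div] at h1
  unfold Yi
  have h2 : (wp γ (w : ℂ))ᵀ = wp γ (w : ℂ) := by unfold wp; rw [diagonal_transpose]
  rw [transpose_mul, h2]
  calc wp γ (w : ℂ) * (Hf (gc n Q γ) (w : ℂ))ᵀ * cm (Jm n Q) * (Hf (gc n Q γ) (w : ℂ) * wp γ (w : ℂ)) =
      wp γ (w : ℂ) * ((Hf (gc n Q γ) (w : ℂ))ᵀ * cm (Jm n Q) * Hf (gc n Q γ) (w : ℂ)) * wp γ (w : ℂ) := by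
        simp only [Matrix.mul_assoc]
    _ = _ := by rw [h1, wp_P0 h]

theorem Cv_expand (hd : d ≠ 0) {x : ℝ} {f : PowerSeries ℚ} (hf : Cv (x ^ d) f) : Cv x (PowerSeries.expand d hd f) := by
  have hinj : Function.Injective fun k : ℕ => d * k := fun a b hab => Nat.eq_of_mul_eq_mul_left (Nat.pos_of_ne_zero hd) hab
  refine (hinj.summable_iff (f := fun m : ℕ => |((PowerSeries.coeff m (PowerSeries.expand d hd f) : ℚ) : ℝ)| * (1 / x) ^ m)
    fun m hm => ?_).1 ?_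
  · have h1 : ¬ d ∣ m := by
      rintro ⟨k, rfl⟩
      exact hm ⟨k, rfl⟩
    rw [PowerSeries.coeff_expand, if_neg h1]
    simp
  · refine hf.congr fun k => ?_
    simp only [Function.comp_apply]
    rw [PowerSeries.coeff_expand_mul, pow_mul, one_div_pow x d]

theorem ev_expand (hd : d ≠ 0) (x : ℝ) (f : PowerSeries ℚ) : ev x (PowerSeries.expand d hd f) = ev (x ^ d) f := by
  have hinj : Function.Injective fun k : ℕ => d * k := fun a b hab => Nat.eq_of_mul_eq_mul_left (Nat.pos_of_ne_zero hd) hab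
  unfold ev
  rw [← hinj.tsum_eq (f := fun m : ℕ => ((PowerSeries.coeff m (PowerSeries.expand d hd f) : ℚ) : ℝ) * (1 / x) ^ m)]
  · refine tsum_congr fun k => ?_
    rw [PowerSeries.coeff_expand_mul, pow_mul, one_div_pow x d]
  · intro m hm
    rw [Function.mem_support] at hm
    by_contra h1
    apply hm
    have h2 : ¬ d ∣ m := by
      rintro ⟨k, rfl⟩
      exact h1 ⟨k, rfl⟩
    rw [PowerSeries.coeff_expand, if_neg h2]
    simp

theorem Cv_Mm (hP : S_PGR) (h : OD n Q γ) {t : ℝ} (ht : 1 < t) (i j : Fin n) : Cv t (Mm n Q γ i j) :=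
  Cv_mul (by linarith) (fun i j => Cv_gm hP h ht j i) (Cv_km t _) i j

theorem evM_Mm (hP : S_PGR) (h : OD n Q γ) {t : ℝ} (ht : 1 < t) :
    evM t (Mm n Q γ) = (Hf (gc n Q γ) (((1 / t : ℝ)) : ℂ))ᵀ * (cm (g0 γ)⁻¹)ᵀ := by
  have hgt : ∀ i j, Cv t ((gm n Q γ)ᵀ i j) := fun i j => Cv_gm hP h ht j i
  have h1 := evM_mul (by linarith) hgt (Cv_km t ((g0 γ)⁻¹)ᵀ)
  rw [evM_tr, evM_gm, evM_km] at h1
  exact h1

theorem evM_D (x : ℝ) (e : Fin n → ℕ) :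
    evM x (Matrix.diagonal fun i => (PowerSeries.X : PowerSeries ℚ) ^ e i) = Matrix.diagonal fun i => (1 / (x : ℂ)) ^ e i := by
  ext i j
  show ((ev x ((Matrix.diagonal fun i => (PowerSeries.X : PowerSeries ℚ) ^ e i) i j) : ℝ) : ℂ) = _
  rw [diagonal_apply, diagonal_apply]
  split_ifs with hij
  · have h1 : (PowerSeries.X : PowerSeries ℚ) ^ e i = (((Polynomial.X : Polynomial ℚ) ^ e i : Polynomial ℚ) : PowerSeries ℚ) := by
      rw [Polynomial.coe_pow, Polynomial.coe_X]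
    rw [h1, Pool.Agent.Y113.ev_coe]
    simp
  · rw [Pool.Agent.Y113.ev_zero]
    simp

theorem Cv_D (x : ℝ) (e : Fin n → ℕ) (i j : Fin n) :
    Cv x ((Matrix.diagonal fun i => (PowerSeries.X : PowerSeries ℚ) ^ e i) i j) := by
  rw [diagonal_apply]
  split_ifs
  · have h1 : (PowerSeries.X : PowerSeries ℚ) ^ e i = (((Polynomial.X : Polynomial ℚ) ^ e i : Polynomial ℚ) : PowerSeries ℚ) := by
      rw [Polynomial.coe_pow, Polynomial.coe_X]
    rw [h1]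
    exact Cv.coe _
  · exact Cv.zero

theorem one_lt_pow' (hd : d ≠ 0) {x : ℝ} (hx : 1 < x) : 1 < x ^ d := one_lt_pow₀ hx hd

theorem Cv_Zz (hP : S_PGR) (h : OD n Q γ) (hd : d ≠ 0) {x : ℝ} (hx : 1 < x) (i j : Fin n) :
    Cv x (Zz n Q γ d hd aa i j) := by
  have hx0 : 0 < x := by linarith
  have h1 : Cv (x ^ d) (M1 n Q γ i j) := by
    have h2 := Cv_Mm hP h (one_lt_pow' hd hx) i j
    have h3 := (summable_nat_add_iff (f := fun m : ℕ => |((PowerSeries.coeff m (Mm n Q γ i j) : ℚ) : ℝ)| * (1 / x ^ d) ^ m) 1).2 h2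
    have h4 := h3.mul_left (x ^ d)
    refine h4.congr fun m => ?_
    unfold M1
    rw [Matrix.of_apply, PowerSeries.coeff_mk, pow_succ]
    field_simp
  have h2 : (PowerSeries.X : PowerSeries ℚ) ^ ee d aa i j =
      (((Polynomial.X : Polynomial ℚ) ^ ee d aa i j : Polynomial ℚ) : PowerSeries ℚ) := by
    rw [Polynomial.coe_pow, Polynomial.coe_X]
  unfold Zz
  rw [Matrix.of_apply, h2]
  exact Cv.add hx0 (Cv.C _) (Cv.mul hx0 (Cv.coe _) (Cv_expand hd h1))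

/-- **the values** -/
theorem Zv_eq (hP : S_PGR) (h : OD n Q γ) (hd : d ≠ 0) (haa : ∀ j, (aa j : ℚ) = d * γ j) {x : ℝ} (hx : 1 < x) :
    evM x (Zz n Q γ d hd aa) = (Yi n Q γ (((1 / x ^ d : ℝ)) : ℂ))ᵀ * (cm (g0 γ)⁻¹)ᵀ *
      Matrix.diagonal fun b => (x : ℂ) ^ (aa b) := by
  have hx0 : 0 < x := by linarith
  have hxc : (x : ℂ) ≠ 0 := by exact_mod_cast hx0.ne'
  have hxd := one_lt_pow' hd hx
  have h1 := congrArg (evM x) (Zz_twist h hd haa)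
  have hE : ∀ i j, Cv x (((Mm n Q γ).map (PowerSeries.expand d hd)) i j) := fun i j =>
    Cv_expand hd (Cv_Mm hP h hxd i j)
  have hEv : evM x ((Mm n Q γ).map (PowerSeries.expand d hd)) = evM (x ^ d) (Mm n Q γ) := by
    ext i j
    show ((ev x (PowerSeries.expand d hd (Mm n Q γ i j)) : ℝ) : ℂ) = ((ev (x ^ d) (Mm n Q γ i j) : ℝ) : ℂ)
    rw [ev_expand]
  unfold D1 D2 at h1
  rw [evM_mul hx0 (Cv_mul hx0 (Cv_D x _) hE) (Cv_D x _), evM_mul hx0 (Cv_D x _) hE, evM_D, evM_D, hEv, evM_Mm hP h hxd] at h1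
  ext i j
  have h2 := congrFun (congrFun h1 i) j
  rw [mul_diagonal, diagonal_mul] at h2
  have h3 : evM x (((PowerSeries.X : PowerSeries ℚ) ^ (2 * bb aa)) • Zz n Q γ d hd aa) i j =
      (1 / (x : ℂ)) ^ (2 * bb aa) * evM x (Zz n Q γ d hd aa) i j := by
    show ((ev x ((((PowerSeries.X : PowerSeries ℚ) ^ (2 * bb aa)) • Zz n Q γ d hd aa) i j) : ℝ) : ℂ) =
      (1 / (x : ℂ)) ^ (2 * bb aa) * ((ev x (Zz n Q γ d hd aa i j) : ℝ) : ℂ)
    have h4 : (PowerSeries.X : PowerSeries ℚ) ^ (2 * bb aa) =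
        (((Polynomial.X : Polynomial ℚ) ^ (2 * bb aa) : Polynomial ℚ) : PowerSeries ℚ) := by
      rw [Polynomial.coe_pow, Polynomial.coe_X]
    rw [Matrix.smul_apply, smul_eq_mul, h4, Cv.ev_mul hx0 (Cv.coe _) (Cv_Zz hP h hd hx i j), Pool.Agent.Y113.ev_coe]
    simp
  rw [h3] at h2
  rw [mul_diagonal]
  have h5 : (Yi n Q γ (((1 / x ^ d : ℝ)) : ℂ))ᵀ = wp γ (((1 / x ^ d : ℝ)) : ℂ) * (Hf (gc n Q γ) (((1 / x ^ d : ℝ)) : ℂ))ᵀ := by
    unfold Yi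
    rw [transpose_mul]
    congr 1
    unfold wp
    rw [diagonal_transpose]
  have h6 : Complex.exp ((γ i : ℂ) * Complex.log (((1 / x ^ d : ℝ)) : ℂ)) = (x : ℂ) ^ (-aa i) := by
    have e1 : Complex.log (((1 / x ^ d : ℝ)) : ℂ) = -(d * Real.log x : ℝ) := by
      rw [← Complex.ofReal_log (by positivity), one_div, Real.log_inv, Real.log_pow]
      push_cast
      ring
    have e2 : (γ i : ℂ) * -((d * Real.log x : ℝ) : ℂ) = ((-aa i : ℤ) : ℂ) * ((Real.log x : ℝ) : ℂ) := by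
      have e3 : ((aa i : ℤ) : ℂ) = (d : ℂ) * (γ i : ℂ) := by
        have := congrArg (fun q : ℚ => (q : ℂ)) (haa i)
        push_cast at this
        exact_mod_cast this
      push_cast
      rw [e3]
      ring
    rw [e1, e2, Complex.exp_int_mul, ← Complex.ofReal_exp, Real.exp_log hx0]
  rw [h5, Matrix.mul_assoc]
  unfold wp
  rw [diagonal_mul, h6]
  have hp1 := pos1 aa i
  have hp2 := pos2 aa j
  have e4 : (1 / (x : ℂ)) ^ (bb aa + aa i : ℤ).toNat = (x : ℂ) ^ (-(bb aa + aa i) : ℤ) := by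
    rw [one_div, inv_pow, _root_.zpow_neg, ← zpow_natCast, hp1]
  have e5 : (1 / (x : ℂ)) ^ (bb aa - aa j : ℤ).toNat = (x : ℂ) ^ (-(bb aa - aa j) : ℤ) := by
    rw [one_div, inv_pow, _root_.zpow_neg, ← zpow_natCast, hp2]
  have e6 : (1 / (x : ℂ)) ^ (2 * bb aa) = (x : ℂ) ^ (-(2 * bb aa : ℕ) : ℤ) := by
    rw [one_div, inv_pow, _root_.zpow_neg, zpow_natCast]
  rw [e4, e5, e6] at h2
  have e7 : (x : ℂ) ^ (-(2 * bb aa : ℕ) : ℤ) ≠ 0 := zpow_ne_zero _ hxc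
  refine mul_left_cancel₀ e7 (h2.trans ?_)
  have e8 : (x : ℂ) ^ (-(bb aa + aa i) : ℤ) * (x : ℂ) ^ (-(bb aa - aa j) : ℤ) =
      (x : ℂ) ^ (-(2 * bb aa : ℕ) : ℤ) * ((x : ℂ) ^ (-aa i) * (x : ℂ) ^ (aa j)) := by
    rw [← zpow_add₀ hxc, ← zpow_add₀ hxc, ← zpow_add₀ hxc]
    congr 1
    push_cast
    ring
  linear_combination ((Hf (gc n Q γ) (((1 / x ^ d : ℝ)) : ℂ))ᵀ * (cm (g0 γ)⁻¹)ᵀ) i j * e8

end Pool.Agent.T44.GO
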