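import Pool.Agent.T44.GO.Stm

/-!
# The formal solutions at infinity
-/

set_option autoImplicit false

open PowerSeries Matrix

namespace Pool.Agent.T44.GO

open Pool.Agent.Y119.HY (QD Am Bm Jm Jm_skew Jm_det Jm_rel Am_mul)
open Pool.Agent.Y119.HZ (cf coeff_X_deriv km km_apply th th_mul th_transpose th_km cf_th cf_ext cf_km_mul cf_mul_km Bm_rel)

variable {n : ℕ} {Q : Polynomial ℚ} {γ : Fin n → ℚ}

/-- the solutions -/
noncomputable def gm (n : ℕ) (Q : Polynomial ℚ) (γ : Fin n → ℚ) : Matrix (Fin n) (Fin n) ℚ⟦X⟧ :=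
  Matrix.of fun a j => PowerSeries.mk fun k => (-(γ j + k)) ^ (a : ℕ) * cc n Q (γ j) k

/-- the leading coefficients -/
def g0 (γ : Fin n → ℚ) : Matrix (Fin n) (Fin n) ℚ := Matrix.of fun a j => (-γ j) ^ (a : ℕ)

theorem cc_zero (γ : ℚ) : cc n Q γ 0 = 1 := by
  unfold cc
  simp

theorem Q_even (hQ : QD n Q) (x : ℚ) : Q.eval (-x) = Q.eval x := by
  rw [Polynomial.eval_eq_sum_range, Polynomial.eval_eq_sum_range]
  refine Finset.sum_congr rfl fun i _ => ?_
  rcases Nat.even_or_odd i with h | h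
  · rw [h.neg_pow]
  · rw [hQ.sym i h, zero_mul, zero_mul]

theorem Q_root (h : OD n Q γ) (j : Fin n) : Q.eval (γ j) = 0 := by
  rw [h.prod, Polynomial.eval_prod]
  refine Finset.prod_eq_zero (Finset.mem_univ j) ?_
  simp

theorem exists_neg (h : OD n Q γ) (j : Fin n) : ∃ i, γ i = -γ j := by
  have h1 : Q.eval (-γ j) = 0 := by rw [Q_even h.qd, Q_root h]
  rw [h.prod, Polynomial.eval_prod, Finset.prod_eq_zero_iff] at h1
  obtain ⟨i, -, hi⟩ := h1
  refine ⟨i, ?_⟩
  rw [Polynomial.eval_sub, Polynomial.eval_X, Polynomial.eval_C] at hi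
  linarith

theorem γ_ne (h : OD n Q γ) (j : Fin n) : γ j ≠ 0 := by
  intro h0
  have h1 := h.qd.ne 0
  apply h1
  have h2 := Q_root h j
  rw [h0] at h2
  simpa using h2

theorem Q_ne (h : OD n Q γ) (j : Fin n) (k : ℕ) : Q.eval (γ j + k + 1) ≠ 0 := by
  have e1 : Q.eval (γ j + k + 1) = ∏ i, (γ j + k + 1 - γ i) := by
    conv_lhs => rw [h.prod]
    rw [Polynomial.eval_prod]
    refine Finset.prod_congr rfl fun i _ => ?_
    simp
  rw [e1]
  refine Finset.prod_ne_zero_iff.2 fun i _ => ?_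
  have h1 := h.lt i j
  have h2 : (0 : ℚ) ≤ k := Nat.cast_nonneg k
  intro h3
  linarith

theorem cc_succ (h : OD n Q γ) (j : Fin n) (k : ℕ) :
    Q.eval (γ j + k + 1) * cc n Q (γ j) (k + 1) = (γ j + k) ^ n * cc n Q (γ j) k := by
  have h1 := Q_ne h j k
  unfold cc
  rw [Finset.prod_range_succ]
  field_simp

/-- the sum of the exponents is small -/
theorem add_lt (h : OD n Q γ) (i j : Fin n) : |γ i + γ j| < 1 := by
  obtain ⟨l, hl⟩ := exists_neg h j
  have h1 := h.lt i l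
  have h2 := h.lt l i
  rw [hl] at h1 h2
  rw [abs_lt]
  constructor <;> linarith

theorem cf_gm (k : ℕ) : cf (gm n Q γ) k = Matrix.of fun (a j : Fin n) => (-(γ j + k)) ^ (a : ℕ) * cc n Q (γ j) k := by
  ext a j
  unfold cf gm
  rw [Matrix.map_apply, Matrix.of_apply, coeff_mk, Matrix.of_apply]

theorem cf_gm_zero : cf (gm n Q γ) 0 = g0 γ := by
  rw [cf_gm]
  ext a j
  unfold g0
  rw [Matrix.of_apply, Matrix.of_apply, cc_zero]
  simp

/-- the sum over the last row -/
theorem row_sum (h : OD n Q γ) (j : Fin n) (k : ℕ) :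
    ∑ i : Fin n, Q.coeff i * ((-(γ j + k)) ^ (i : ℕ) * cc n Q (γ j) k) =
      (Q.eval (γ j + k) - (γ j + k) ^ n) * cc n Q (γ j) k := by
  have hn := h.qd.deg
  have h1 : Q.eval (-(γ j + k)) = ∑ i ∈ Finset.range n, Q.coeff i * (-(γ j + k)) ^ i + (-(γ j + k)) ^ n := by
    rw [Polynomial.eval_eq_sum_range, hn, Finset.sum_range_succ]
    congr 1
    have h2 : Q.coeff n = 1 := by
      have := h.qd.monic
      rw [Polynomial.Monic, Polynomial.leadingCoeff, hn] at this
      exact this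
    rw [h2, one_mul]
  rw [Q_even h.qd, h.qd.even.neg_pow] at h1
  rw [h1, add_sub_cancel_right, Finset.sum_mul, ← Fin.sum_univ_eq_sum_range (fun i => Q.coeff i * (-(γ j + k)) ^ i * cc n Q (γ j) k)]
  refine Finset.sum_congr rfl fun i _ => ?_
  ring

theorem pow_last {a : ℕ} (h : a + 1 = n) (x : ℚ) : x ^ n = x ^ a * x :=
  (congrArg (fun e => x ^ e) h).symm.trans (pow_succ _ _)

theorem Bm_mul' (M : Matrix (Fin n) (Fin n) ℚ) (a j : Fin n) :
    (Bm n Q * M) a j = if (a : ℕ) + 1 = n then ∑ i : Fin n, Q.coeff i * M i j else 0 := by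
  rw [Matrix.mul_apply]
  unfold Bm
  simp only [Matrix.of_apply, ite_mul, zero_mul]
  split_ifs with h
  · rfl
  · exact Finset.sum_const_zero

/-- the recursion -/
theorem step_g (h : OD n Q γ) (k : ℕ) (a j : Fin n) :
    (γ j + k + 1) * cf (gm n Q γ) (k + 1) a j - ((Bm n Q * cf (gm n Q γ) (k + 1)) a j -
      (Am n * cf (gm n Q γ) (k + 1)) a j) = (γ j + k) * cf (gm n Q γ) k a j + (Am n * cf (gm n Q γ) k) a j := by
  rw [Bm_mul', Am_mul, Am_mul, cf_gm, cf_gm]
  simp only [Matrix.of_apply]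
  by_cases h1 : (a : ℕ) + 1 < n
  · rw [dif_pos h1, dif_pos h1, if_neg (by omega)]
    push_cast
    ring
  · have h2 : (a : ℕ) + 1 = n := by have := a.2; omega
    have h3 := row_sum h j (k + 1)
    push_cast at h3
    rw [dif_neg h1, dif_neg h1, if_pos h2]
    push_cast
    rw [h3]
    have h4 := cc_succ h j k
    have e1 : (γ j + (k + 1 : ℚ)) = γ j + k + 1 := by ring
    have e2 : (γ j + k + 1) * (-(γ j + k + 1)) ^ (a : ℕ) = -(γ j + k + 1) ^ n := by
      have e3 : (-(γ j + k + 1)) ^ n = (-(γ j + k + 1)) ^ (a : ℕ) * (-(γ j + k + 1)) := pow_last h2 _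
      rw [← h.qd.even.neg_pow, e3]
      ring
    have e4 : (γ j + k) * (-(γ j + k)) ^ (a : ℕ) = -(γ j + k) ^ n := by
      have e3 : (-(γ j + k)) ^ n = (-(γ j + k)) ^ (a : ℕ) * (-(γ j + k)) := pow_last h2 _
      rw [← h.qd.even.neg_pow, e3]
      ring
    rw [e1]
    linear_combination cc n Q (γ j) (k + 1) * e2 - cc n Q (γ j) k * e4 - h4

/-- the diagonal matrix of the exponents -/
noncomputable abbrev Γm (γ : Fin n → ℚ) : Matrix (Fin n) (Fin n) ℚ := Matrix.diagonal γ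

/-- the system -/
theorem ode_g (h : OD n Q γ) : (1 - X : ℚ⟦X⟧) • (th (gm n Q γ) + gm n Q γ * km (Γm γ)) =
    ((1 - X : ℚ⟦X⟧) • km (Bm n Q - Am n) + (X : ℚ⟦X⟧) • km (Bm n Q)) * gm n Q γ := by
  have hS : (1 - X : ℚ⟦X⟧) • (th (gm n Q γ) + gm n Q γ * km (Γm γ) - km (Bm n Q - Am n) * gm n Q γ) =
      (X : ℚ⟦X⟧) • (km (Bm n Q) * gm n Q γ) := by
    have hc : ∀ k, cf (th (gm n Q γ) + gm n Q γ * km (Γm γ) - km (Bm n Q - Am n) * gm n Q γ) k =
        (k : ℚ) • cf (gm n Q γ) k + cf (gm n Q γ) k * Γm γ - (Bm n Q - Am n) * cf (gm n Q γ) k := by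
      intro k
      have h1 : cf (th (gm n Q γ) + gm n Q γ * km (Γm γ) - km (Bm n Q - Am n) * gm n Q γ) k =
          cf (th (gm n Q γ)) k + cf (gm n Q γ * km (Γm γ)) k - cf (km (Bm n Q - Am n) * gm n Q γ) k := by
        ext i j
        unfold cf
        simp only [Matrix.map_apply, Matrix.sub_apply, Matrix.add_apply, map_sub, map_add]
      rw [h1, cf_th, cf_mul_km, cf_km_mul]
    ext i j k
    rw [Matrix.smul_apply, Matrix.smul_apply, smul_eq_mul, smul_eq_mul, sub_mul, one_mul, map_sub]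
    have h2 : ∀ k, coeff k ((th (gm n Q γ) + gm n Q γ * km (Γm γ) - km (Bm n Q - Am n) * gm n Q γ) i j) =
        ((k : ℚ) • cf (gm n Q γ) k + cf (gm n Q γ) k * Γm γ - (Bm n Q - Am n) * cf (gm n Q γ) k) i j :=
      fun k => congrFun (congrFun (hc k) i) j
    have h3 : ∀ k, coeff k ((km (Bm n Q) * gm n Q γ) i j) = (Bm n Q * cf (gm n Q γ) k) i j := fun k =>
      congrFun (congrFun (cf_km_mul (Bm n Q) (gm n Q γ) k) i) j
    have h5 : ∀ k, (cf (gm n Q γ) k * Γm γ) i j = cf (gm n Q γ) k i j * γ j := fun k => Matrix.mul_diagonal _ _ _ _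
    rcases k with _ | k
    · rw [coeff_zero_X_mul, coeff_zero_X_mul, h2]
      simp only [Matrix.add_apply, Matrix.smul_apply, Matrix.sub_apply, smul_eq_mul, sub_mul, h5]
      rw [Bm_mul', Am_mul, cf_gm]
      simp only [Matrix.of_apply]
      have h6 := row_sum h j 0
      rw [Nat.cast_zero, add_zero, Q_root h, zero_sub] at h6
      by_cases h1 : (i : ℕ) + 1 < n
      · rw [dif_pos h1, if_neg (by omega)]
        push_cast
        ring
      · have h2 : (i : ℕ) + 1 = n := by have := i.2; omega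
        rw [dif_neg h1, if_pos h2]
        push_cast
        rw [add_zero, h6]
        have e3 : (-(γ j)) ^ n = (-(γ j)) ^ (i : ℕ) * (-(γ j)) := pow_last h2 _
        rw [h.qd.even.neg_pow] at e3
        rw [e3]
        ring
    · rw [coeff_succ_X_mul, coeff_succ_X_mul, h2, h2, h3]
      have h4 := step_g h k i j
      simp only [Matrix.add_apply, Matrix.smul_apply, Matrix.sub_apply, smul_eq_mul, sub_mul, h5]
      push_cast
      linear_combination h4
  rw [smul_sub] at hS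
  rw [add_mul, smul_mul_assoc, smul_mul_assoc, ← hS]
  abel

end Pool.Agent.T44.GO
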