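import Pool.Agent.T44.GO.Fm

/-!
# The form, the normalised solution
-/

set_option autoImplicit false

open PowerSeries Matrix

namespace Pool.Agent.T44.GO

open Pool.Agent.Y119.HY (QD Am Bm Jm Jm_skew Jm_det Jm_rel Am_mul)
open Pool.Agent.Y119.HZ (cf coeff_X_deriv km km_apply th th_mul th_transpose th_km cf_th cf_ext cf_km_mul cf_mul_km Bm_rel)

variable {n : ℕ} {Q : Polynomial ℚ} {γ : Fin n → ℚ}

theorem km_mul (M N : Matrix (Fin n) (Fin n) ℚ) : km (M * N) = km M * km N := map_mul _ _ _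
theorem km_add (M N : Matrix (Fin n) (Fin n) ℚ) : km (M + N) = km M + km N := map_add _ _ _
theorem km_sub (M N : Matrix (Fin n) (Fin n) ℚ) : km (M - N) = km M - km N := map_sub _ _ _
theorem km_zero : km (0 : Matrix (Fin n) (Fin n) ℚ) = 0 := map_zero _
theorem km_one : km (1 : Matrix (Fin n) (Fin n) ℚ) = 1 := map_one _
theorem km_transpose (M : Matrix (Fin n) (Fin n) ℚ) : (km M)ᵀ = km Mᵀ := rfl

/-- the form in the basis of the eigenvectors -/
noncomputable def P0 (n : ℕ) (Q : Polynomial ℚ) (γ : Fin n → ℚ) : Matrix (Fin n) (Fin n) ℚ := (g0 γ)ᵀ * Jm n Q * g0 γ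

theorem cf_tr (M : Matrix (Fin n) (Fin n) ℚ⟦X⟧) (k : ℕ) : cf Mᵀ k = (cf M k)ᵀ := rfl

theorem cf_mul_zero (M N : Matrix (Fin n) (Fin n) ℚ⟦X⟧) : cf (M * N) 0 = cf M 0 * cf N 0 := by
  ext i j
  unfold cf
  rw [Matrix.map_apply, Matrix.mul_apply, Matrix.mul_apply, map_sum]
  refine Finset.sum_congr rfl fun l _ => ?_
  rw [Matrix.map_apply, Matrix.map_apply, PowerSeries.coeff_zero_eq_constantCoeff, map_mul]

theorem cf_km_zero (M : Matrix (Fin n) (Fin n) ℚ) : cf (km M) 0 = M := by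
  ext i j
  unfold cf
  rw [Matrix.map_apply, km_apply, PowerSeries.coeff_zero_C]

theorem one_sub_X_ne : (1 - X : ℚ⟦X⟧) ≠ 0 := by
  intro h
  have h1 := congrArg (PowerSeries.constantCoeff) h
  simp at h1

theorem R_skew (hQ : QD n Q) : (Bm n Q - Am n)ᵀ * Jm n Q + Jm n Q * (Bm n Q - Am n) = 0 := by
  have h1 := Bm_rel hQ
  have h2 := Jm_rel (n := n) (Q := Q)
  rw [transpose_sub, sub_mul, mul_sub]
  calc (Bm n Q)ᵀ * Jm n Q - (Am n)ᵀ * Jm n Q + (Jm n Q * Bm n Q - Jm n Q * Am n) =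
      ((Bm n Q)ᵀ * Jm n Q + Jm n Q * Bm n Q) - ((Am n)ᵀ * Jm n Q + Jm n Q * Am n) := by abel
    _ = 0 := by rw [h1, h2, sub_zero]

/-- the pairing of the solutions -/
theorem form_g (h : OD n Q γ) : (gm n Q γ)ᵀ * km (Jm n Q) * gm n Q γ = km (P0 n Q γ) := by
  set G := gm n Q γ with hG
  set J := km (Jm n Q) with hJ
  set V := Gᵀ * J * G with hV
  set R := km (Bm n Q - Am n) with hR
  set B := km (Bm n Q) with hB
  set Γ := km (Γm γ) with hΓ
  have hode := ode_g h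
  rw [← hG, ← hR, ← hB, ← hΓ] at hode
  have hRJ : Rᵀ * J + J * R = 0 := by
    rw [hR, hJ, km_transpose, ← km_mul, ← km_mul, ← km_add, R_skew h.qd, km_zero]
  have hBJ : Bᵀ * J + J * B = 0 := by
    rw [hB, hJ, km_transpose, ← km_mul, ← km_mul, ← km_add, Bm_rel h.qd, km_zero]
  have hΓt : Γᵀ = Γ := by
    rw [hΓ, km_transpose, diagonal_transpose]
  have hth : (1 - X : ℚ⟦X⟧) • th V = (1 - X : ℚ⟦X⟧) • (-(Γ * V + V * Γ)) := by
    have e1 : (1 - X : ℚ⟦X⟧) • th G = ((1 - X : ℚ⟦X⟧) • R + (X : ℚ⟦X⟧) • B) * G - (1 - X : ℚ⟦X⟧) • (G * Γ) := by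
      rw [← hode, smul_add, add_sub_cancel_right]
    have e2 : (1 - X : ℚ⟦X⟧) • (th G)ᵀ = Gᵀ * ((1 - X : ℚ⟦X⟧) • Rᵀ + (X : ℚ⟦X⟧) • Bᵀ) - (1 - X : ℚ⟦X⟧) • (Γ * Gᵀ) := by
      have e3 := congrArg Matrix.transpose e1
      rw [transpose_smul, transpose_sub, transpose_mul, transpose_add, transpose_smul, transpose_smul, transpose_smul,
        transpose_mul, hΓt] at e3
      exact e3
    have e4 : th V = (th G)ᵀ * J * G + Gᵀ * J * th G := by
      rw [hV, th_mul, th_mul, hJ, th_km, Matrix.mul_zero, add_zero, th_transpose]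
    have e5 : J * R = -(Rᵀ * J) := by
      rw [← add_eq_zero_iff_eq_neg, add_comm]
      exact hRJ
    have e6 : J * B = -(Bᵀ * J) := by
      rw [← add_eq_zero_iff_eq_neg, add_comm]
      exact hBJ
    calc (1 - X : ℚ⟦X⟧) • th V = ((1 - X : ℚ⟦X⟧) • (th G)ᵀ) * J * G + Gᵀ * J * ((1 - X : ℚ⟦X⟧) • th G) := by
          rw [e4, smul_add, smul_mul_assoc, smul_mul_assoc, mul_smul_comm]
      _ = (1 - X : ℚ⟦X⟧) • (Gᵀ * (Rᵀ * J) * G) + (X : ℚ⟦X⟧) • (Gᵀ * (Bᵀ * J) * G) - (1 - X : ℚ⟦X⟧) • (Γ * Gᵀ * J * G) +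
          ((1 - X : ℚ⟦X⟧) • (Gᵀ * (J * R) * G) + (X : ℚ⟦X⟧) • (Gᵀ * (J * B) * G) - (1 - X : ℚ⟦X⟧) • (Gᵀ * J * G * Γ)) := by
          rw [e1, e2]
          simp only [Matrix.mul_add, Matrix.add_mul, Matrix.mul_sub, Matrix.sub_mul, Matrix.mul_smul, Matrix.smul_mul,
            Matrix.mul_assoc]
      _ = (1 - X : ℚ⟦X⟧) • (-(Γ * V + V * Γ)) := by
          rw [e5, e6, hV]
          simp only [Matrix.mul_neg, Matrix.neg_mul, smul_neg, smul_add, Matrix.mul_assoc]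
          abel
  have hth' : th V = -(Γ * V + V * Γ) := by
    ext1 i j
    have h1 := congrFun (congrFun hth i) j
    rw [Matrix.smul_apply, Matrix.smul_apply, smul_eq_mul, smul_eq_mul] at h1
    exact mul_left_cancel₀ one_sub_X_ne h1
  refine cf_ext fun k => ?_
  rcases k with _ | k
  · rw [cf_km_zero, hV, cf_mul_zero, cf_mul_zero, cf_tr, hG, cf_gm_zero, hJ, cf_km_zero]
    rfl
  · have h1 : cf (th V) (k + 1) = cf (-(Γ * V + V * Γ)) (k + 1) := by rw [hth']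
    rw [cf_th] at h1
    have h2 : cf (-(Γ * V + V * Γ)) (k + 1) = -(Γm γ * cf V (k + 1) + cf V (k + 1) * Γm γ) := by
      have e1 := cf_km_mul (Γm γ) V (k + 1)
      have e2 := cf_mul_km (Γm γ) V (k + 1)
      rw [← e1, ← e2]
      ext i j
      unfold cf
      simp only [Matrix.map_apply, Matrix.neg_apply, Matrix.add_apply, map_neg, map_add]
      rfl
    rw [h2] at h1
    ext i j
    have h3 := congrFun (congrFun h1 i) j
    rw [Matrix.smul_apply, Matrix.neg_apply, Matrix.add_apply, Matrix.diagonal_mul, Matrix.mul_diagonal, smul_eq_mul] at h3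
    have h4 := abs_lt.1 (add_lt h i j)
    have h5 : ((k + 1 : ℕ) : ℚ) + γ i + γ j ≠ 0 := by
      push_cast
      have : (0 : ℚ) ≤ k := Nat.cast_nonneg k
      intro h6
      linarith [h4.1]
    have h6 : (((k + 1 : ℕ) : ℚ) + γ i + γ j) * cf V (k + 1) i j = 0 := by linear_combination h3
    have h7 : cf V (k + 1) i j = 0 := (mul_eq_zero.1 h6).resolve_left h5
    rw [h7]
    unfold cf
    rw [Matrix.map_apply, km_apply, PowerSeries.coeff_C]
    simp

/-- the leading coefficients are eigenvectors -/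
theorem R_g0 (h : OD n Q γ) : (Bm n Q - Am n) * g0 γ = g0 γ * Γm γ := by
  have h1 := congrArg (fun M => cf M 0) (ode_g h)
  ext i j
  have h2 : cf ((1 - X : ℚ⟦X⟧) • (th (gm n Q γ) + gm n Q γ * km (Γm γ))) 0 i j =
      cf (((1 - X : ℚ⟦X⟧) • km (Bm n Q - Am n) + (X : ℚ⟦X⟧) • km (Bm n Q)) * gm n Q γ) 0 i j := congrFun (congrFun h1 i) j
  have h3 : ∀ M : Matrix (Fin n) (Fin n) ℚ⟦X⟧, cf ((1 - X : ℚ⟦X⟧) • M) 0 i j = cf M 0 i j := by
    intro M
    unfold cf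
    rw [Matrix.map_apply, Matrix.map_apply, Matrix.smul_apply, smul_eq_mul, sub_mul, one_mul, map_sub, coeff_zero_X_mul,
      sub_zero]
  have h4 : cf (((1 - X : ℚ⟦X⟧) • km (Bm n Q - Am n) + (X : ℚ⟦X⟧) • km (Bm n Q)) * gm n Q γ) 0 i j =
      cf (km (Bm n Q - Am n) * gm n Q γ) 0 i j := by
    rw [Matrix.add_mul, Matrix.smul_mul, Matrix.smul_mul]
    have h5 : cf ((1 - X : ℚ⟦X⟧) • (km (Bm n Q - Am n) * gm n Q γ) + (X : ℚ⟦X⟧) • (km (Bm n Q) * gm n Q γ)) 0 i j =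
        cf ((1 - X : ℚ⟦X⟧) • (km (Bm n Q - Am n) * gm n Q γ)) 0 i j := by
      unfold cf
      rw [Matrix.map_apply, Matrix.map_apply, Matrix.add_apply, map_add, Matrix.smul_apply ((X : ℚ⟦X⟧)), smul_eq_mul,
        coeff_zero_X_mul, add_zero]
    rw [h5, h3]
  rw [h3, h4, cf_km_mul, cf_gm_zero] at h2
  have h6 : cf (th (gm n Q γ) + gm n Q γ * km (Γm γ)) 0 = g0 γ * Γm γ := by
    have e1 := cf_th (gm n Q γ) 0
    have e2 := cf_mul_km (Γm γ) (gm n Q γ) 0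
    rw [cf_gm_zero] at e2
    have e3 : cf (th (gm n Q γ) + gm n Q γ * km (Γm γ)) 0 = cf (th (gm n Q γ)) 0 + cf (gm n Q γ * km (Γm γ)) 0 := by
      ext a b
      unfold cf
      simp only [Matrix.map_apply, Matrix.add_apply, map_add]
    rw [e3, e1, e2]
    simp
  rw [h6] at h2
  exact h2.symm

theorem g0_det (h : OD n Q γ) : (g0 γ).det ≠ 0 := by
  have h1 : g0 γ = (Matrix.vandermonde fun j => -γ j)ᵀ := by
    ext a j
    rfl
  rw [h1, det_transpose, Matrix.det_vandermonde_ne_zero_iff]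
  intro i j hij
  exact h.inj (neg_injective hij)

theorem P0_det (h : OD n Q γ) : (P0 n Q γ).det ≠ 0 := by
  unfold P0
  rw [det_mul, det_mul, det_transpose]
  exact mul_ne_zero (mul_ne_zero (g0_det h) (Jm_det h.qd)) (g0_det h)

theorem P0_supp (h : OD n Q γ) (i j : Fin n) (hij : P0 n Q γ i j ≠ 0) : γ i + γ j = 0 := by
  have h1 : (Γm γ) * P0 n Q γ + P0 n Q γ * Γm γ = 0 := by
    have e1 := R_g0 h
    have e2 : (g0 γ)ᵀ * (Bm n Q - Am n)ᵀ = Γm γ * (g0 γ)ᵀ := by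
      have := congrArg Matrix.transpose e1
      rw [transpose_mul, transpose_mul, diagonal_transpose] at this
      exact this
    have e3 : Γm γ * P0 n Q γ = (g0 γ)ᵀ * ((Bm n Q - Am n)ᵀ * Jm n Q) * g0 γ := by
      unfold P0
      calc Γm γ * ((g0 γ)ᵀ * Jm n Q * g0 γ) = (Γm γ * (g0 γ)ᵀ) * Jm n Q * g0 γ := by simp only [Matrix.mul_assoc]
        _ = _ := by rw [← e2]; simp only [Matrix.mul_assoc]
    have e4 : P0 n Q γ * Γm γ = (g0 γ)ᵀ * (Jm n Q * (Bm n Q - Am n)) * g0 γ := by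
      unfold P0
      calc (g0 γ)ᵀ * Jm n Q * g0 γ * Γm γ = (g0 γ)ᵀ * Jm n Q * (g0 γ * Γm γ) := by simp only [Matrix.mul_assoc]
        _ = _ := by rw [← e1]; simp only [Matrix.mul_assoc]
    rw [e3, e4, ← Matrix.add_mul, ← Matrix.mul_add, R_skew h.qd, Matrix.mul_zero, Matrix.zero_mul]
  have h2 := congrFun (congrFun h1 i) j
  rw [Matrix.add_apply, diagonal_mul, mul_diagonal, Matrix.zero_apply] at h2
  have h3 : (γ i + γ j) * P0 n Q γ i j = 0 := by linear_combination h2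
  exact (mul_eq_zero.1 h3).resolve_right hij

end Pool.Agent.T44.GO
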