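import Pool.Agent.T44.GO.Fm2
import Mathlib.RingTheory.PowerSeries.Expand

/-!
# The normalised solution in the variable `ψ`, `ψ^d = w`
-/

set_option autoImplicit false

open PowerSeries Matrix

namespace Pool.Agent.T44.GO

open Pool.Agent.Y119.HY (QD Am Bm Jm Jm_skew Jm_det Jm_rel Am_mul)
open Pool.Agent.Y119.HZ (cf coeff_X_deriv km km_apply th th_mul th_transpose th_km cf_th cf_ext cf_km_mul cf_mul_km Bm_rel)

variable {n : ℕ} {Q : Polynomial ℚ} {γ : Fin n → ℚ}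

/-- normalised at `0` -/
noncomputable def Mm (n : ℕ) (Q : Polynomial ℚ) (γ : Fin n → ℚ) : Matrix (Fin n) (Fin n) ℚ⟦X⟧ :=
  (gm n Q γ)ᵀ * km ((g0 γ)⁻¹)ᵀ

/-- the higher coefficients -/
noncomputable def M1 (n : ℕ) (Q : Polynomial ℚ) (γ : Fin n → ℚ) : Matrix (Fin n) (Fin n) ℚ⟦X⟧ :=
  Matrix.of fun i j => PowerSeries.mk fun k => coeff (k + 1) (Mm n Q γ i j)

/-- the residue at `1` in the basis of the eigenvectors -/
noncomputable def Bt (n : ℕ) (Q : Polynomial ℚ) (γ : Fin n → ℚ) : Matrix (Fin n) (Fin n) ℚ :=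
  (g0 γ)ᵀ * (Bm n Q)ᵀ * ((g0 γ)⁻¹)ᵀ

theorem g0_mul (h : OD n Q γ) : g0 γ * (g0 γ)⁻¹ = 1 := mul_nonsing_inv _ (Ne.isUnit (g0_det h))
theorem mul_g0 (h : OD n Q γ) : (g0 γ)⁻¹ * g0 γ = 1 := nonsing_inv_mul _ (Ne.isUnit (g0_det h))
theorem g0_mulT (h : OD n Q γ) : (g0 γ)ᵀ * ((g0 γ)⁻¹)ᵀ = 1 := by rw [← transpose_mul, mul_g0 h, transpose_one]
theorem mul_g0T (h : OD n Q γ) : ((g0 γ)⁻¹)ᵀ * (g0 γ)ᵀ = 1 := by rw [← transpose_mul, g0_mul h, transpose_one]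

theorem Mm_zero (h : OD n Q γ) (i j : Fin n) : coeff 0 (Mm n Q γ i j) = if i = j then 1 else 0 := by
  have h1 : cf (Mm n Q γ) 0 = 1 := by
    unfold Mm
    rw [cf_mul_km, cf_tr, cf_gm_zero, g0_mulT h]
  have h2 := congrFun (congrFun h1 i) j
  rw [Matrix.one_apply] at h2
  exact h2

theorem Mm_eq (h : OD n Q γ) (i j : Fin n) : Mm n Q γ i j = C (if i = j then (1 : ℚ) else 0) + X * M1 n Q γ i j := by
  ext k
  rcases k with _ | k
  · rw [map_add, coeff_zero_X_mul, add_zero, Mm_zero h, coeff_zero_C]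
  · rw [map_add, coeff_succ_X_mul, coeff_C, if_neg (Nat.succ_ne_zero k), zero_add]
    unfold M1
    rw [Matrix.of_apply, coeff_mk]

theorem form_M (h : OD n Q γ) : Mm n Q γ * km (P0 n Q γ) * (Mm n Q γ)ᵀ = km (P0 n Q γ) := by
  have h1 := form_g h
  unfold Mm
  rw [transpose_mul, transpose_transpose, km_transpose, transpose_transpose]
  calc (gm n Q γ)ᵀ * km ((g0 γ)⁻¹)ᵀ * km (P0 n Q γ) * (km (g0 γ)⁻¹ * gm n Q γ) =
      (gm n Q γ)ᵀ * km (((g0 γ)⁻¹)ᵀ * P0 n Q γ * (g0 γ)⁻¹) * gm n Q γ := by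
        rw [km_mul, km_mul]
        simp only [Matrix.mul_assoc]
    _ = (gm n Q γ)ᵀ * km (Jm n Q) * gm n Q γ := by
        congr 3
        unfold P0
        calc ((g0 γ)⁻¹)ᵀ * ((g0 γ)ᵀ * Jm n Q * g0 γ) * (g0 γ)⁻¹ =
            (((g0 γ)⁻¹)ᵀ * (g0 γ)ᵀ) * Jm n Q * (g0 γ * (g0 γ)⁻¹) := by simp only [Matrix.mul_assoc]
          _ = _ := by rw [mul_g0T h, g0_mul h, Matrix.one_mul, Matrix.mul_one]
    _ = _ := h1

theorem ode_M (h : OD n Q γ) : (1 - X : ℚ⟦X⟧) • (th (Mm n Q γ) + km (Γm γ) * Mm n Q γ - Mm n Q γ * km (Γm γ)) =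
    (X : ℚ⟦X⟧) • (Mm n Q γ * km (Bt n Q γ)) := by
  set G := gm n Q γ with hG
  set S := ((g0 γ)⁻¹)ᵀ with hS
  have h1 := congrArg Matrix.transpose (ode_g h)
  rw [← hG] at h1
  have hΓt : (km (Γm γ))ᵀ = km (Γm γ) := by rw [km_transpose, diagonal_transpose]
  rw [transpose_smul, transpose_add, transpose_mul, transpose_mul, transpose_add, transpose_smul, transpose_smul, hΓt,
    km_transpose, km_transpose] at h1
  have e1 : km (Bm n Q - Am n)ᵀ * km S = km S * km (Γm γ) := by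
    rw [← km_mul, ← km_mul]
    congr 1
    have e2 := congrArg Matrix.transpose (R_g0 h)
    rw [transpose_mul, transpose_mul, diagonal_transpose] at e2
    calc (Bm n Q - Am n)ᵀ * S = (S * (g0 γ)ᵀ) * (Bm n Q - Am n)ᵀ * S := by rw [hS, mul_g0T h, Matrix.one_mul]
      _ = S * ((g0 γ)ᵀ * (Bm n Q - Am n)ᵀ) * S := by simp only [Matrix.mul_assoc]
      _ = S * Γm γ * ((g0 γ)ᵀ * S) := by rw [e2]; simp only [Matrix.mul_assoc]
      _ = S * Γm γ := by rw [hS, g0_mulT h, Matrix.mul_one]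
  have e3 : km (Bm n Q)ᵀ * km S = km S * km (Bt n Q γ) := by
    rw [← km_mul, ← km_mul]
    congr 1
    unfold Bt
    calc (Bm n Q)ᵀ * S = (S * (g0 γ)ᵀ) * (Bm n Q)ᵀ * S := by rw [hS, mul_g0T h, Matrix.one_mul]
      _ = _ := by rw [hS]; simp only [Matrix.mul_assoc]
  have h2 : (1 - X : ℚ⟦X⟧) • ((th G)ᵀ + km (Γm γ) * Gᵀ) * km S = Gᵀ * ((1 - X : ℚ⟦X⟧) • km (Bm n Q - Am n)ᵀ +
      (X : ℚ⟦X⟧) • km (Bm n Q)ᵀ) * km S := congrArg (fun M => M * km S) h1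
  have hth : th (Gᵀ * km S) = (th G)ᵀ * km S := by
    rw [th_mul, th_km, Matrix.mul_zero, add_zero, th_transpose]
  have hM : Mm n Q γ = Gᵀ * km S := rfl
  have h3 : Gᵀ * ((1 - X : ℚ⟦X⟧) • km (Bm n Q - Am n)ᵀ + (X : ℚ⟦X⟧) • km (Bm n Q)ᵀ) * km S =
      (1 - X : ℚ⟦X⟧) • (Gᵀ * km S * km (Γm γ)) + (X : ℚ⟦X⟧) • (Gᵀ * km S * km (Bt n Q γ)) := by
    rw [Matrix.mul_add, Matrix.add_mul, Matrix.mul_smul, Matrix.mul_smul, Matrix.smul_mul, Matrix.smul_mul,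
      Matrix.mul_assoc Gᵀ (km (Bm n Q - Am n)ᵀ), e1, Matrix.mul_assoc Gᵀ (km (Bm n Q)ᵀ), e3]
    simp only [Matrix.mul_assoc]
  rw [h3, Matrix.smul_mul, Matrix.add_mul] at h2
  rw [hM, hth, smul_sub, smul_add]
  rw [smul_add] at h2
  rw [← Matrix.mul_assoc, h2, add_sub_cancel_left]

theorem km_diag (γ : Fin n → ℚ) : km (Γm γ) = Matrix.diagonal fun i => (C (γ i) : ℚ⟦X⟧) := by
  ext1 a b
  show C (Matrix.diagonal γ a b) = _
  rw [Matrix.diagonal_apply, Matrix.diagonal_apply]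
  split_ifs <;> simp

/-- the equation of the higher coefficients -/
theorem ode_M1 (h : OD n Q γ) (i j : Fin n) :
    (1 - X : ℚ⟦X⟧) * (X * d⁄dX ℚ (M1 n Q γ i j) + C (1 + γ i - γ j) * M1 n Q γ i j) =
      C (Bt n Q γ i j) + X * ∑ l, M1 n Q γ i l * C (Bt n Q γ l j) := by
  have h1 := congrFun (congrFun (ode_M h) i) j
  rw [Matrix.smul_apply, Matrix.smul_apply, Matrix.sub_apply, Matrix.add_apply, smul_eq_mul, smul_eq_mul] at h1
  have h2 : (km (Γm γ) * Mm n Q γ) i j = C (γ i) * Mm n Q γ i j := by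
    rw [km_diag, diagonal_mul]
  have h3 : (Mm n Q γ * km (Γm γ)) i j = Mm n Q γ i j * C (γ j) := by
    rw [km_diag, mul_diagonal]
  have h4 : th (Mm n Q γ) i j = X * d⁄dX ℚ (Mm n Q γ i j) := rfl
  have h5 : (Mm n Q γ * km (Bt n Q γ)) i j = C (Bt n Q γ i j) + X * ∑ l, M1 n Q γ i l * C (Bt n Q γ l j) := by
    rw [Matrix.mul_apply]
    have e1 : ∀ l, Mm n Q γ i l * km (Bt n Q γ) l j =
        C (if i = l then Bt n Q γ l j else 0) + X * (M1 n Q γ i l * C (Bt n Q γ l j)) := by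
      intro l
      rw [Mm_eq h, km_apply, add_mul, ← map_mul, ite_mul, one_mul, zero_mul]
      ring
    rw [Finset.sum_congr rfl fun l _ => e1 l, Finset.sum_add_distrib, ← map_sum, Finset.sum_ite_eq, if_pos (Finset.mem_univ _),
      Finset.mul_sum]
  have h6 : X * d⁄dX ℚ (Mm n Q γ i j) = X * (X * d⁄dX ℚ (M1 n Q γ i j) + M1 n Q γ i j) := by
    rw [Mm_eq h, map_add, PowerSeries.derivative_C, zero_add, (d⁄dX ℚ).leibniz, PowerSeries.derivative_X]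
    simp only [smul_eq_mul]
    ring
  have h7 : C (γ i) * Mm n Q γ i j - Mm n Q γ i j * C (γ j) = X * (C (γ i - γ j) * M1 n Q γ i j) := by
    rw [Mm_eq h]
    by_cases hij : i = j
    · subst hij
      rw [if_pos rfl, sub_self, map_zero]
      ring
    · rw [if_neg hij, map_zero, map_sub]
      ring
  have hX : (X : ℚ⟦X⟧) ≠ 0 := PowerSeries.X_ne_zero
  refine mul_left_cancel₀ hX ?_
  have h8 : (C (1 + γ i - γ j) : ℚ⟦X⟧) = 1 + C (γ i - γ j) := by rw [add_sub_assoc, map_add, map_one]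
  rw [← h5, ← h1, h4, h2, h3, h8]
  linear_combination (-(1 - X : ℚ⟦X⟧)) * h6 + (-(1 - X : ℚ⟦X⟧)) * h7

variable {d : ℕ} {aa : Fin n → ℤ}

theorem X_deriv_expand (hd : d ≠ 0) (f : ℚ⟦X⟧) :
    X * d⁄dX ℚ (expand d hd f) = C (d : ℚ) * expand d hd (X * d⁄dX ℚ f) := by
  ext N
  rw [coeff_X_deriv, coeff_C_mul, coeff_expand, coeff_expand]
  split_ifs with h1
  · obtain ⟨k, rfl⟩ := h1
    rw [Nat.mul_div_cancel_left _ (Nat.pos_of_ne_zero hd), coeff_X_deriv]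
    push_cast
    ring
  · simp

/-- the exponents -/
def ee (d : ℕ) (aa : Fin n → ℤ) (i j : Fin n) : ℕ := (d + aa i - aa j).toNat

theorem ee_eq (h : OD n Q γ) (hd : d ≠ 0) (haa : ∀ j, (aa j : ℚ) = d * γ j) (i j : Fin n) :
    (ee d aa i j : ℤ) = d + aa i - aa j ∧ 0 < ee d aa i j := by
  have h1 : (0 : ℚ) < d + aa i - aa j := by
    rw [haa, haa]
    have h2 := h.lt j i
    have h3 : (0 : ℚ) < d := by exact_mod_cast Nat.pos_of_ne_zero hd
    have h4 : (d : ℚ) + d * γ i - d * γ j = d * (1 + γ i - γ j) := by ring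
    rw [h4]
    exact mul_pos h3 (by linarith)
  have h2 : (0 : ℤ) < d + aa i - aa j := by exact_mod_cast h1
  unfold ee
  have h3 := Int.toNat_of_nonneg h2.le
  refine ⟨h3, ?_⟩
  omega

/-- the normalised solution -/
noncomputable def Zz (n : ℕ) (Q : Polynomial ℚ) (γ : Fin n → ℚ) (d : ℕ) (hd : d ≠ 0) (aa : Fin n → ℤ) :
    Matrix (Fin n) (Fin n) ℚ⟦X⟧ :=
  Matrix.of fun i j => C (if i = j then (1 : ℚ) else 0) + X ^ ee d aa i j * expand d hd (M1 n Q γ i j)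

theorem Zz_zero (h : OD n Q γ) (hd : d ≠ 0) (haa : ∀ j, (aa j : ℚ) = d * γ j) (i j : Fin n) :
    coeff 0 (Zz n Q γ d hd aa i j) = if i = j then 1 else 0 := by
  obtain ⟨e, he⟩ := Nat.exists_eq_succ_of_ne_zero (ee_eq h hd haa i j).2.ne'
  unfold Zz
  rw [Matrix.of_apply, he, pow_succ', mul_assoc, map_add, coeff_zero_X_mul, add_zero, coeff_zero_C]

theorem X_deriv_pow (e : ℕ) : X * d⁄dX ℚ ((X : ℚ⟦X⟧) ^ e) = C (e : ℚ) * X ^ e := by
  ext N
  rw [coeff_X_deriv, coeff_C_mul, coeff_X_pow]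
  split_ifs with h1
  · rw [h1]
  · simp

theorem ode_Z (h : OD n Q γ) (hd : d ≠ 0) (haa : ∀ j, (aa j : ℚ) = d * γ j) (i j : Fin n) :
    (1 - X ^ d : ℚ⟦X⟧) * (X * d⁄dX ℚ (Zz n Q γ d hd aa i j)) =
      ∑ l, Zz n Q γ d hd aa i l * (C (d * Bt n Q γ l j) * X ^ ee d aa l j) := by
  have hE := congrArg (expand d hd) (ode_M1 h i j)
  simp only [map_mul, map_sub, map_add, map_one, expand_X, expand_C, map_sum] at hE
  have e1 : X * d⁄dX ℚ (Zz n Q γ d hd aa i j) = X ^ ee d aa i j * (C (d : ℚ) *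
      (X ^ d * expand d hd (d⁄dX ℚ (M1 n Q γ i j)) + (1 + C (γ i) - C (γ j)) * expand d hd (M1 n Q γ i j))) := by
    unfold Zz
    rw [Matrix.of_apply, map_add, PowerSeries.derivative_C, zero_add, (d⁄dX ℚ).leibniz]
    simp only [smul_eq_mul]
    have e2 := X_deriv_expand hd (M1 n Q γ i j)
    have e3 := X_deriv_pow (ee d aa i j)
    rw [map_mul, expand_X] at e2
    have e4 : (C ((ee d aa i j : ℕ) : ℚ) : ℚ⟦X⟧) = C (d : ℚ) * (1 + C (γ i) - C (γ j)) := by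
      have e5 : ((ee d aa i j : ℕ) : ℚ) = d * (1 + γ i - γ j) := by
        have e6 := (ee_eq h hd haa i j).1
        have e7 : (((ee d aa i j : ℕ) : ℤ) : ℚ) = ((d + aa i - aa j : ℤ) : ℚ) := by rw [e6]
        push_cast at e7
        rw [e7, haa, haa]
        ring
      rw [e5, map_mul, map_sub, map_add, map_one]
    calc X * (X ^ ee d aa i j * d⁄dX ℚ (expand d hd (M1 n Q γ i j)) +
          expand d hd (M1 n Q γ i j) * d⁄dX ℚ ((X : ℚ⟦X⟧) ^ ee d aa i j)) =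
        X ^ ee d aa i j * (X * d⁄dX ℚ (expand d hd (M1 n Q γ i j))) +
          expand d hd (M1 n Q γ i j) * (X * d⁄dX ℚ ((X : ℚ⟦X⟧) ^ ee d aa i j)) := by ring
      _ = _ := by
        rw [e2, e3, e4]
        ring
  have e8 : ∀ l, Zz n Q γ d hd aa i l * (C (d * Bt n Q γ l j) * X ^ ee d aa l j) =
      (if i = l then C (d * Bt n Q γ l j) * X ^ ee d aa l j else 0) +
        X ^ ee d aa i j * (C (d : ℚ) * (X ^ d * (expand d hd (M1 n Q γ i l) * C (Bt n Q γ l j)))) := by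
    intro l
    have e9 : ee d aa i l + ee d aa l j = ee d aa i j + d := by
      have h1 := (ee_eq h hd haa i l).1
      have h2 := (ee_eq h hd haa l j).1
      have h3 := (ee_eq h hd haa i j).1
      omega
    have e10 : (X : ℚ⟦X⟧) ^ ee d aa i l * X ^ ee d aa l j = X ^ ee d aa i j * X ^ d := by
      rw [← pow_add, ← pow_add, e9]
    unfold Zz
    rw [Matrix.of_apply, add_mul]
    congr 1
    · split_ifs <;> simp
    · rw [map_mul]
      linear_combination expand d hd (M1 n Q γ i l) * (C (d : ℚ) * C (Bt n Q γ l j)) * e10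
  rw [e1, Finset.sum_congr rfl fun l _ => e8 l, Finset.sum_add_distrib, Finset.sum_ite_eq, if_pos (Finset.mem_univ _),
    ← Finset.mul_sum, ← Finset.mul_sum, ← Finset.mul_sum, map_mul]
  linear_combination X ^ ee d aa i j * C (d : ℚ) * hE

end Pool.Agent.T44.GO
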