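import Pool.Agent.T44.GO.Fm3

/-!
# The inverse of the normalised solution, and the G-function conditions
-/

set_option autoImplicit false

open PowerSeries Matrix

namespace Pool.Agent.T44.GO

open Pool.Agent.Y113 (SDc)
open Pool.Agent.Y119.HY (QD Am Bm Jm)
open Pool.Agent.Y119.HZ (cf km km_apply th SDc_C SDc_matmul SDc_km)

variable {n : ℕ} {Q : Polynomial ℚ} {γ : Fin n → ℚ} {d : ℕ} {aa : Fin n → ℤ}

/-- a bound for the exponents -/
def bb (aa : Fin n → ℤ) : ℕ := ∑ i, (aa i).natAbs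

theorem le_bb (aa : Fin n → ℤ) (i : Fin n) : (aa i).natAbs ≤ bb aa :=
  Finset.single_le_sum (f := fun i => (aa i).natAbs) (fun _ _ => Nat.zero_le _) (Finset.mem_univ i)

/-- twists -/
noncomputable def D1 (aa : Fin n → ℤ) : Matrix (Fin n) (Fin n) ℚ⟦X⟧ := Matrix.diagonal fun i => X ^ (bb aa + aa i : ℤ).toNat

/-- twists -/
noncomputable def D2 (aa : Fin n → ℤ) : Matrix (Fin n) (Fin n) ℚ⟦X⟧ := Matrix.diagonal fun i => X ^ (bb aa - aa i : ℤ).toNat

theorem pos1 (aa : Fin n → ℤ) (i : Fin n) : (((bb aa + aa i : ℤ).toNat : ℕ) : ℤ) = bb aa + aa i := by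
  have := le_bb aa i
  exact Int.toNat_of_nonneg (by omega)

theorem pos2 (aa : Fin n → ℤ) (i : Fin n) : (((bb aa - aa i : ℤ).toNat : ℕ) : ℤ) = bb aa - aa i := by
  have := le_bb aa i
  exact Int.toNat_of_nonneg (by omega)

/-- the twisted solution -/
theorem Zz_twist (h : OD n Q γ) (hd : d ≠ 0) (haa : ∀ j, (aa j : ℚ) = d * γ j) :
    ((X : ℚ⟦X⟧) ^ (2 * bb aa)) • Zz n Q γ d hd aa = D1 aa * (Mm n Q γ).map (expand d hd) * D2 aa := by
  ext1 i j
  have h1 : (D1 aa * (Mm n Q γ).map (expand d hd) * D2 aa) i j = X ^ (bb aa + aa i : ℤ).toNat *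
      expand d hd (Mm n Q γ i j) * X ^ (bb aa - aa j : ℤ).toNat := by
    unfold D1 D2
    rw [mul_diagonal, diagonal_mul, Matrix.map_apply]
  have hp1 := pos1 aa i
  have hp2 := pos2 aa j
  have he := (ee_eq h hd haa i j).1
  rw [h1, Matrix.smul_apply, smul_eq_mul, Mm_eq h, map_add, expand_C, map_mul, expand_X]
  unfold Zz
  rw [Matrix.of_apply]
  have e1 : (X : ℚ⟦X⟧) ^ (bb aa + aa i : ℤ).toNat * X ^ d * X ^ (bb aa - aa j : ℤ).toNat = X ^ (2 * bb aa) * X ^ ee d aa i j := by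
    rw [← pow_add, ← pow_add, ← pow_add]
    congr 1
    omega
  by_cases hij : i = j
  · subst hij
    have e2 : (X : ℚ⟦X⟧) ^ (bb aa + aa i : ℤ).toNat * X ^ (bb aa - aa i : ℤ).toNat = X ^ (2 * bb aa) := by
      rw [← pow_add]
      congr 1
      omega
    rw [if_pos rfl, map_one]
    linear_combination -e2 - expand d hd (M1 n Q γ i i) * e1
  · rw [if_neg hij, map_zero, zero_add, zero_add]
    linear_combination -expand d hd (M1 n Q γ i j) * e1

theorem D2_P0 (h : OD n Q γ) (haa : ∀ j, (aa j : ℚ) = d * γ j) :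
    D2 aa * km (P0 n Q γ) * D2 aa = ((X : ℚ⟦X⟧) ^ (2 * bb aa)) • km (P0 n Q γ) := by
  ext1 i j
  have hp1 := pos2 aa i
  have hp2 := pos2 aa j
  unfold D2
  rw [mul_diagonal, diagonal_mul, Matrix.smul_apply, smul_eq_mul, km_apply]
  by_cases hP : P0 n Q γ i j = 0
  · rw [hP, map_zero, mul_zero, mul_zero, zero_mul]
  · have h1 := P0_supp h i j hP
    have h2 : aa i + aa j = 0 := by
      have h3 : ((aa i + aa j : ℤ) : ℚ) = 0 := by
        push_cast
        rw [haa, haa, ← mul_add, h1, mul_zero]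
      exact_mod_cast h3
    have e2 : (X : ℚ⟦X⟧) ^ (bb aa - aa i : ℤ).toNat * X ^ (bb aa - aa j : ℤ).toNat = X ^ (2 * bb aa) := by
      rw [← pow_add]
      congr 1
      omega
    linear_combination C (P0 n Q γ i j) * e2

theorem D1_P0 (h : OD n Q γ) (haa : ∀ j, (aa j : ℚ) = d * γ j) :
    D1 aa * km (P0 n Q γ) * D1 aa = ((X : ℚ⟦X⟧) ^ (2 * bb aa)) • km (P0 n Q γ) := by
  ext1 i j
  have hp1 := pos1 aa i
  have hp2 := pos1 aa j
  unfold D1
  rw [mul_diagonal, diagonal_mul, Matrix.smul_apply, smul_eq_mul, km_apply]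
  by_cases hP : P0 n Q γ i j = 0
  · rw [hP, map_zero, mul_zero, mul_zero, zero_mul]
  · have h1 := P0_supp h i j hP
    have h2 : aa i + aa j = 0 := by
      have h3 : ((aa i + aa j : ℤ) : ℚ) = 0 := by
        push_cast
        rw [haa, haa, ← mul_add, h1, mul_zero]
      exact_mod_cast h3
    have e2 : (X : ℚ⟦X⟧) ^ (bb aa + aa i : ℤ).toNat * X ^ (bb aa + aa j : ℤ).toNat = X ^ (2 * bb aa) := by
      rw [← pow_add]
      congr 1
      omega
    linear_combination C (P0 n Q γ i j) * e2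

theorem km_expand (hd : d ≠ 0) (M : Matrix (Fin n) (Fin n) ℚ) : (km M).map (expand d hd) = km M := by
  ext1 i j
  rw [Matrix.map_apply, km_apply, expand_C]

/-- **the form** -/
theorem form_Z (h : OD n Q γ) (hd : d ≠ 0) (haa : ∀ j, (aa j : ℚ) = d * γ j) :
    Zz n Q γ d hd aa * km (P0 n Q γ) * (Zz n Q γ d hd aa)ᵀ = km (P0 n Q γ) := by
  set Z := Zz n Q γ d hd aa with hZ
  set P := km (P0 n Q γ) with hP
  set c := (X : ℚ⟦X⟧) ^ (2 * bb aa) with hc
  set M := (Mm n Q γ).map (expand d hd) with hM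
  have h1 : c • Z = D1 aa * M * D2 aa := Zz_twist h hd haa
  have h1t : c • Zᵀ = D2 aa * Mᵀ * D1 aa := by
    have e1 := congrArg Matrix.transpose h1
    rw [transpose_smul, transpose_mul, transpose_mul] at e1
    have e2 : (D1 aa)ᵀ = D1 aa := by unfold D1; rw [diagonal_transpose]
    have e3 : (D2 aa)ᵀ = D2 aa := by unfold D2; rw [diagonal_transpose]
    rw [e2, e3] at e1
    rw [e1, Matrix.mul_assoc]
  have hMP : M * P * Mᵀ = P := by
    have e1 := congrArg (fun N : Matrix (Fin n) (Fin n) ℚ⟦X⟧ => N.map (expand d hd)) (form_M h)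
    have e2 : (Mm n Q γ * km (P0 n Q γ) * (Mm n Q γ)ᵀ).map (expand d hd) = M * P * Mᵀ := by
      have e3 := Matrix.map_mul (L := Mm n Q γ * km (P0 n Q γ)) (M := (Mm n Q γ)ᵀ) (f := (expand d hd : ℚ⟦X⟧ →ₐ[ℚ] ℚ⟦X⟧))
      have e4 := Matrix.map_mul (L := Mm n Q γ) (M := km (P0 n Q γ)) (f := (expand d hd : ℚ⟦X⟧ →ₐ[ℚ] ℚ⟦X⟧))
      rw [e3, e4, km_expand, Matrix.transpose_map]
    have e5 : (Mm n Q γ * km (P0 n Q γ) * (Mm n Q γ)ᵀ).map (expand d hd) = (km (P0 n Q γ)).map (expand d hd) := e1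
    rw [e2, km_expand] at e5
    exact e5
  have h2 : (c * c) • (Z * P * Zᵀ) = (c * c) • P := by
    calc (c * c) • (Z * P * Zᵀ) = (c • Z) * P * (c • Zᵀ) := by
          rw [Matrix.smul_mul, Matrix.mul_smul, Matrix.smul_mul, smul_smul]
      _ = D1 aa * M * (D2 aa * P * D2 aa) * Mᵀ * D1 aa := by
          rw [h1, h1t]
          simp only [Matrix.mul_assoc]
      _ = c • (D1 aa * (M * P * Mᵀ) * D1 aa) := by
          rw [D2_P0 h haa]
          simp only [Matrix.mul_smul, Matrix.smul_mul, Matrix.mul_assoc]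
          rfl
      _ = (c * c) • P := by
          rw [hMP, D1_P0 h haa, smul_smul]
  have hc0 : c * c ≠ 0 := by
    rw [hc]
    exact mul_ne_zero (pow_ne_zero _ PowerSeries.X_ne_zero) (pow_ne_zero _ PowerSeries.X_ne_zero)
  ext1 i j
  have h3 := congrFun (congrFun h2 i) j
  rw [Matrix.smul_apply, Matrix.smul_apply, smul_eq_mul, smul_eq_mul] at h3
  exact mul_left_cancel₀ hc0 h3

/-- the inverse -/
noncomputable def Ww (n : ℕ) (Q : Polynomial ℚ) (γ : Fin n → ℚ) (d : ℕ) (hd : d ≠ 0) (aa : Fin n → ℤ) :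
    Matrix (Fin n) (Fin n) ℚ⟦X⟧ := km (P0 n Q γ) * ((Zz n Q γ d hd aa)ᵀ * km (P0 n Q γ)⁻¹)

theorem Ww_mul (h : OD n Q γ) (hd : d ≠ 0) (haa : ∀ j, (aa j : ℚ) = d * γ j) :
    Ww n Q γ d hd aa * Zz n Q γ d hd aa = 1 := by
  refine mul_eq_one_comm.1 ?_
  unfold Ww
  calc Zz n Q γ d hd aa * (km (P0 n Q γ) * ((Zz n Q γ d hd aa)ᵀ * km (P0 n Q γ)⁻¹)) =
      (Zz n Q γ d hd aa * km (P0 n Q γ) * (Zz n Q γ d hd aa)ᵀ) * km (P0 n Q γ)⁻¹ := by simp only [Matrix.mul_assoc]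
    _ = 1 := by rw [form_Z h hd haa, ← km_mul, mul_nonsing_inv _ (Ne.isUnit (P0_det h)), km_one]

theorem SDc_expand (hd : d ≠ 0) {f : ℚ⟦X⟧} (hf : SDc f) : SDc (expand d hd f) := by
  obtain ⟨a, h1, h2⟩ := hf
  have ha : (1 : ℝ) ≤ 2 ^ a := one_le_pow₀ (by norm_num)
  refine ⟨a, fun m => ?_, fun m => ?_⟩
  · rw [coeff_expand]
    split_ifs with hm
    · exact (h1 _).trans (pow_le_pow_right₀ ha (by have := Nat.div_le_self m d; omega))
    · simp
  · obtain ⟨D, hD0, hD, hD'⟩ := h2 m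
    refine ⟨D, hD0, hD, fun j hj => ?_⟩
    rw [coeff_expand]
    split_ifs with hm
    · exact hD' _ ((Nat.div_le_self j d).trans hj)
    · exact ⟨0, by simp⟩

theorem SDc_shift {f : ℚ⟦X⟧} (hf : SDc f) : SDc (PowerSeries.mk fun k => coeff (k + 1) f) := by
  obtain ⟨a, h1, h2⟩ := hf
  have ha : (1 : ℝ) ≤ 2 ^ a := one_le_pow₀ (by norm_num)
  have h3 : ∀ m : ℕ, ((2 : ℝ) ^ a) ^ (m + 1 + 1) ≤ (2 ^ (2 * a)) ^ (m + 1) := by
    intro m
    rw [← pow_mul, ← pow_mul]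
    refine pow_le_pow_right₀ (by norm_num) ?_
    nlinarith [Nat.zero_le (a * m)]
  refine ⟨2 * a, fun m => ?_, fun m => ?_⟩
  · rw [coeff_mk]
    exact (h1 _).trans (h3 m)
  · obtain ⟨D, hD0, hD, hD'⟩ := h2 (m + 1)
    refine ⟨D, hD0, hD.trans (h3 m), fun j hj => ?_⟩
    rw [coeff_mk]
    exact hD' _ (by omega)

theorem SDc_M1 (hS : S_SDC) (h : OD n Q γ) (i j : Fin n) : SDc (M1 n Q γ i j) := by
  have hg : ∀ i j, SDc ((gm n Q γ)ᵀ i j) := fun i j => hS n Q γ h j i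
  exact SDc_shift (SDc_matmul hg (SDc_km _) i j)

theorem SDc_Xpow (e : ℕ) : SDc ((X : ℚ⟦X⟧) ^ e) := by
  induction e with
  | zero => rw [pow_zero]; exact SDc.one
  | succ e ih => rw [pow_succ]; exact ih.mul SDc.X

theorem SDc_Zz (hS : S_SDC) (h : OD n Q γ) (hd : d ≠ 0) (i j : Fin n) : SDc (Zz n Q γ d hd aa i j) :=
  (SDc_C _).add ((SDc_Xpow _).mul (SDc_expand hd (SDc_M1 hS h i j)))

theorem SDc_Ww (hS : S_SDC) (h : OD n Q γ) (hd : d ≠ 0) (i j : Fin n) : SDc (Ww n Q γ d hd aa i j) :=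
  SDc_matmul (SDc_km _) (SDc_matmul (fun i j => SDc_Zz hS h hd j i) (SDc_km _)) i j

end Pool.Agent.T44.GO
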