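import Pool.Agent.T44.GO.An2
import Pool.Agent.T44.GO.CONT
import Pool.Agent.T44.GL.Hy

/-!
# The Galois group at infinity contains the isometries
-/

set_option autoImplicit false

open Matrix

namespace Pool.Agent.T44.GO

open Pool.Agent.Y113 (Cv ev)
open Pool.Agent.Y119.HY (QD Am Bm Jm cm cm_apply cm_mul cm_transpose PG ps Hf Hc Yf HD Gm Lens mem_Lens real_mem_Lens slit_Lens
  isOpen_Lens preconn_Lens)
open Pool.Agent.Y119.HZ (cf km km_apply th)
open Pool.Agent.T44.GL (GalL PL pt)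

variable {n : ℕ} {Q : Polynomial ℚ} {γ : Fin n → ℚ} {d : ℕ} {aa : Fin n → ℤ}

/-- right multiplication -/
noncomputable def sr (κ : Matrix (Fin n) (Fin n) ℂ) : Option (Option (Option (Fin n × Fin n))) →
    MvPolynomial (Option (Option (Option (Fin n × Fin n)))) ℂ
  | none => MvPolynomial.X none
  | some none => MvPolynomial.X (some none)
  | some (some none) => MvPolynomial.X (some (some none))
  | some (some (some p)) => ∑ c, MvPolynomial.X (some (some (some (p.1, c)))) * MvPolynomial.C (κ c p.2)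

theorem sr_eval (κ : Matrix (Fin n) (Fin n) ℂ) (F : MvPolynomial (Option (Option (Option (Fin n × Fin n)))) ℂ) (z : ℂ)
    (M : Matrix (Fin n) (Fin n) ℂ) :
    MvPolynomial.eval (p4 d z M) (MvPolynomial.aeval (sr κ) F) = MvPolynomial.eval (p4 d z (M * κ)) F := by
  have h0 := Pool.Agent.Y123.GN.aeval_comp (sr κ) F (p4 d z M)
  rw [MvPolynomial.aeval_eq_eval] at h0
  refine Eq.trans h0 ?_
  congr 2
  funext o
  rcases o with _ | _ | _ | p
  · show MvPolynomial.aeval _ (MvPolynomial.X none) = _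
    rw [MvPolynomial.aeval_X]
    rfl
  · show MvPolynomial.aeval _ (MvPolynomial.X (some none)) = _
    rw [MvPolynomial.aeval_X]
    rfl
  · show MvPolynomial.aeval _ (MvPolynomial.X (some (some none))) = _
    rw [MvPolynomial.aeval_X]
    rfl
  · show MvPolynomial.aeval _ (∑ c, _) = (M * κ) p.1 p.2
    rw [map_sum, Matrix.mul_apply]
    refine Finset.sum_congr rfl fun c _ => ?_
    rw [map_mul, MvPolynomial.aeval_C, MvPolynomial.aeval_X]
    rfl

/-- **invariance at infinity** -/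
theorem inv_Yi (hC : S_CONT) (hR : S_ROOT) (hP : S_PGR) (h : OD n Q γ) (hd : 1 ≤ d) {κ : Matrix (Fin n) (Fin n) ℂ}
    (hκ : κᵀ * cm (P0 n Q γ) * κ = cm (P0 n Q γ)) (F : MvPolynomial (Option (Option (Option (Fin n × Fin n)))) ℂ)
    (hF : ∀ w : ℝ, 0 < w → w < 1 → MvPolynomial.eval (p4 d (1 / (w : ℂ)) (Yi n Q γ w)) F = 0) :
    ∀ w : ℝ, 0 < w → w < 1 → MvPolynomial.eval (p4 d (1 / (w : ℂ)) (Yi n Q γ w * κ)) F = 0 := by
  obtain ⟨C, hC1, hC2⟩ := hC n Q h.qd (Yi n Q γ) (Yi_HD hP h)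
  have hCJ : Cᵀ * cm (Jm n Q) * C = cm (P0 n Q γ) := by
    have h1 := hC1 _ (real_mem_Lens (x := 1 / 2) (by norm_num) (by norm_num))
    rw [form_Yi hP h (by norm_num) (by norm_num)] at h1
    exact h1.symm
  have hPd : (cm (P0 n Q γ)).det ≠ 0 := by
    have h1 := P0_det h
    have h2 : (cm (P0 n Q γ)).det = (((P0 n Q γ).det : ℚ) : ℂ) := by
      have h3 := (RingHom.map_det (algebraMap ℚ ℂ) (P0 n Q γ)).symm
      exact h3
    rw [h2]
    exact_mod_cast h1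
  have hCd : IsUnit C.det := by
    rw [isUnit_iff_ne_zero]
    intro h0
    apply hPd
    rw [← hCJ, det_mul, h0, mul_zero]
  -- the transformation at zero
  set μ := C * κ * C⁻¹ with hμ
  have hμJ : μᵀ * cm (Jm n Q) * μ = cm (Jm n Q) := by
    have e1 : (C⁻¹)ᵀ * Cᵀ = 1 := by
      rw [← transpose_mul, mul_nonsing_inv _ hCd, transpose_one]
    calc μᵀ * cm (Jm n Q) * μ = (C⁻¹)ᵀ * (κᵀ * (Cᵀ * cm (Jm n Q) * C) * κ) * C⁻¹ := by
          rw [hμ, transpose_mul, transpose_mul]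
          simp only [Matrix.mul_assoc]
      _ = (C⁻¹)ᵀ * (Cᵀ * cm (Jm n Q) * C) * C⁻¹ := by rw [hCJ, hκ]
      _ = ((C⁻¹)ᵀ * Cᵀ) * cm (Jm n Q) * (C * C⁻¹) := by simp only [Matrix.mul_assoc]
      _ = _ := by rw [e1, mul_nonsing_inv _ hCd, Matrix.one_mul, Matrix.mul_one]
  have hμC : μ * C = C * κ := by
    rw [hμ, Matrix.mul_assoc, nonsing_inv_mul _ hCd, Matrix.mul_one]
  have h1 := (hC2 d F).1 hF
  have h2 := hR n Q h.qd d hd C μ hμJ F h1
  have h3 : ∀ z : ℝ, 0 < z → z < 1 → MvPolynomial.eval (p4 d (z : ℂ) (Yf (cm (Am n)) (Hc n Q) (z : ℂ) * C))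
      (MvPolynomial.aeval (sr κ) F) = 0 := by
    intro z hz hz1
    rw [sr_eval]
    have h4 := h2 z hz hz1
    rw [Matrix.mul_assoc, hμC, ← Matrix.mul_assoc] at h4
    exact h4
  intro w hw hw1
  rw [← sr_eval]
  exact (hC2 d _).2 h3 w hw hw1

/-- the power of `z^(1/d)` -/
noncomputable def mon (n : ℕ) (a : ℤ) : MvPolynomial (Option (Option (Option (Fin n × Fin n)))) ℂ :=
  if 0 ≤ a then MvPolynomial.X (some none) ^ a.toNat else MvPolynomial.X none ^ (-a).toNat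

theorem exp_root (hd : d ≠ 0) {x : ℝ} (hx : 0 < x) :
    Complex.exp (Complex.log ((x ^ d : ℝ) : ℂ) / d) = x ∧ Complex.exp (-(Complex.log ((x ^ d : ℝ) : ℂ) / d)) = ((1 / x : ℝ) : ℂ) := by
  have hdc : (d : ℂ) ≠ 0 := by exact_mod_cast hd
  have h1 : Complex.log ((x ^ d : ℝ) : ℂ) / d = ((Real.log x : ℝ) : ℂ) := by
    rw [← Complex.ofReal_log (by positivity), Real.log_pow]
    push_cast
    field_simp
  rw [h1, ← Complex.ofReal_exp, Real.exp_log hx]
  refine ⟨rfl, ?_⟩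
  rw [← Complex.ofReal_neg, ← Complex.ofReal_exp, Real.exp_neg, Real.exp_log hx, one_div]

theorem mon_eval (hd : d ≠ 0) {x : ℝ} (hx : 0 < x) (M : Matrix (Fin n) (Fin n) ℂ) (a : ℤ) :
    MvPolynomial.eval (p4 d ((x ^ d : ℝ) : ℂ) M) (mon n a) = (x : ℂ) ^ a := by
  obtain ⟨h1, h2⟩ := exp_root hd hx
  unfold mon
  split_ifs with ha
  · rw [map_pow, MvPolynomial.eval_X]
    show (Complex.exp (Complex.log ((x ^ d : ℝ) : ℂ) / d)) ^ a.toNat = _
    rw [h1, ← zpow_natCast, Int.toNat_of_nonneg ha]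
  · rw [map_pow, MvPolynomial.eval_X]
    show (Complex.exp (-(Complex.log ((x ^ d : ℝ) : ℂ) / d))) ^ (-a).toNat = _
    rw [h2, ← zpow_natCast, Int.toNat_of_nonneg (by omega)]
    push_cast
    rw [one_div, _root_.inv_zpow, _root_.zpow_neg, inv_inv]

/-- the substitution -/
noncomputable def s4 (d : ℕ) (Ω R : Matrix (Fin n) (Fin n) ℂ) (aa : Fin n → ℤ) : Option (Option (Fin n × Fin n)) →
    MvPolynomial (Option (Option (Option (Fin n × Fin n)))) ℂ
  | none => MvPolynomial.X none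
  | some none => MvPolynomial.C (1 / (d : ℂ)) * MvPolynomial.X (some (some none))
  | some (some p) => (∑ e, (∑ c, MvPolynomial.X (some (some (some (e, c)))) * MvPolynomial.C (Ω c p.1)) *
      MvPolynomial.C (R e p.2)) * mon n (aa p.2)

theorem s4_eval (hd : d ≠ 0) (Ω R : Matrix (Fin n) (Fin n) ℂ) (F : MvPolynomial (Option (Option (Fin n × Fin n))) ℂ)
    {x : ℝ} (hx : 0 < x) (M : Matrix (Fin n) (Fin n) ℂ) :
    MvPolynomial.eval (p4 d ((x ^ d : ℝ) : ℂ) M) (MvPolynomial.aeval (s4 d Ω R aa) F) =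
      MvPolynomial.eval (pt ((1 / x : ℝ) : ℂ) ((Real.log x : ℝ) : ℂ)
        ((M * Ω)ᵀ * R * Matrix.diagonal fun b => (x : ℂ) ^ (aa b))) F := by
  have h0 := Pool.Agent.Y123.GN.aeval_comp (s4 d Ω R aa) F (p4 d ((x ^ d : ℝ) : ℂ) M)
  rw [MvPolynomial.aeval_eq_eval] at h0
  refine Eq.trans h0 ?_
  congr 2
  funext o
  have hdc : (d : ℂ) ≠ 0 := by exact_mod_cast hd
  rcases o with _ | _ | p
  · show MvPolynomial.aeval _ (MvPolynomial.X none) = _
    rw [MvPolynomial.aeval_X]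
    exact (exp_root hd hx).2
  · show MvPolynomial.aeval _ (MvPolynomial.C (1 / (d : ℂ)) * MvPolynomial.X (some (some none))) = _
    rw [map_mul, MvPolynomial.aeval_C, MvPolynomial.aeval_X]
    show (1 / (d : ℂ)) * Complex.log ((x ^ d : ℝ) : ℂ) = ((Real.log x : ℝ) : ℂ)
    rw [← Complex.ofReal_log (by positivity), Real.log_pow]
    push_cast
    field_simp
  · show MvPolynomial.aeval _ ((∑ e, _) * mon n (aa p.2)) =
      ((M * Ω)ᵀ * R * Matrix.diagonal fun b => (x : ℂ) ^ (aa b)) p.1 p.2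
    rw [map_mul, MvPolynomial.aeval_eq_eval, mul_diagonal]
    congr 1
    · rw [map_sum, Matrix.mul_apply]
      refine Finset.sum_congr rfl fun e _ => ?_
      rw [map_mul, MvPolynomial.eval_C]
      congr 1
      rw [map_sum, transpose_apply, Matrix.mul_apply]
      refine Finset.sum_congr rfl fun c _ => ?_
      rw [map_mul, MvPolynomial.eval_C, MvPolynomial.eval_X]
      rfl
    · exact mon_eval hd hx M _

/-- relations for large `x` hold on the whole interval -/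
theorem ext_Yi (hP : S_PGR) (h : OD n Q γ) (hd : d ≠ 0) {x₀ : ℝ} (hx₀ : 1 ≤ x₀)
    {F : MvPolynomial (Option (Option (Option (Fin n × Fin n)))) ℂ}
    (hF : ∀ x : ℝ, x₀ < x → MvPolynomial.eval (p4 d ((x ^ d : ℝ) : ℂ) (Yi n Q γ ((1 / x ^ d : ℝ) : ℂ))) F = 0) :
    ∀ w : ℝ, 0 < w → w < 1 → MvPolynomial.eval (p4 d (1 / (w : ℂ)) (Yi n Q γ w)) F = 0 := by
  have hinv : AnalyticOnNhd ℂ (fun w : ℂ => 1 / w) Lens := fun w hw =>
    analyticAt_const.div analyticAt_id (Complex.slitPlane_ne_zero (slit_Lens hw))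
  have hinvs : ∀ w ∈ Lens, (1 / w : ℂ) ∈ Complex.slitPlane := by
    intro w hw
    have h1 : (1 - w).re ≤ ‖1 - w‖ := Complex.re_le_norm _
    rw [Complex.sub_re, Complex.one_re] at h1
    have h2 : 0 < w.re := by linarith [(mem_Lens.1 hw).2]
    rw [one_div]
    left
    rw [Complex.inv_re]
    exact div_pos h2 (Complex.normSq_pos.2 (Complex.slitPlane_ne_zero (slit_Lens hw)))
  have a1 : AnalyticOnNhd ℂ (fun w => MvPolynomial.eval (p4 d (1 / w) (Yi n Q γ w)) F) Lens :=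
    CONT.an_p4 hinv hinvs (CONT.an_of_HD isOpen_Lens (Yi_HD hP h)) d F
  set f : ℂ → ℂ := fun w => MvPolynomial.eval (p4 d (1 / w) (Yi n Q γ w)) F with hf
  have hpos : (0 : ℝ) < x₀ := by linarith
  have hpd : (1 : ℝ) ≤ x₀ ^ d := one_le_pow₀ hx₀
  have hpd0 : (0 : ℝ) < x₀ ^ d := by linarith
  have hy0 : (0 : ℝ) < 1 / (2 * x₀ ^ d) := by positivity
  have hy1 : 1 / (2 * x₀ ^ d) < 1 / x₀ ^ d := one_div_lt_one_div_of_lt hpd0 (by linarith)
  have hx1 : 1 / x₀ ^ d ≤ 1 := by rw [div_le_one hpd0]; exact hpd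
  have hev : ∀ᶠ y : ℝ in nhdsWithin (1 / (2 * x₀ ^ d)) {(1 / (2 * x₀ ^ d))}ᶜ, f (y : ℂ) = 0 := by
    have h1 : ∀ᶠ y : ℝ in nhds (1 / (2 * x₀ ^ d)), y ∈ Set.Ioo 0 (1 / x₀ ^ d) := Ioo_mem_nhds hy0 hy1
    refine (h1.filter_mono nhdsWithin_le_nhds).mono fun y hy => ?_
    have hz : x₀ ^ d < 1 / y := by
      have := (lt_div_iff₀ hpd0).1 hy.2
      rw [lt_div_iff₀ hy.1]
      linarith
    have hr : (1 / y : ℝ) = ((1 / y) ^ ((d : ℝ)⁻¹)) ^ d := by
      rw [Real.rpow_inv_natCast_pow (by have := hy.1; positivity) hd]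
    have hr1 : x₀ < (1 / y) ^ ((d : ℝ)⁻¹) := by
      have h3 : 0 ≤ (1 / y) ^ ((d : ℝ)⁻¹) := Real.rpow_nonneg (by have := hy.1; positivity) _
      rw [hr] at hz
      exact lt_of_pow_lt_pow_left₀ d h3 hz
    have h2 := hF _ hr1
    rw [← hr, one_div_one_div] at h2
    rw [hf]
    have h3 : (((1 / y : ℝ)) : ℂ) = 1 / (y : ℂ) := by push_cast; rfl
    rw [h3] at h2
    exact h2
  have hfr : ∃ᶠ z in nhdsWithin ((1 / (2 * x₀ ^ d) : ℝ) : ℂ) {((1 / (2 * x₀ ^ d) : ℝ) : ℂ)}ᶜ, f z = 0 := by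
    refine Filter.Tendsto.frequently (f := fun y : ℝ => (y : ℂ)) ?_ hev.frequently
    refine tendsto_nhdsWithin_iff.2 ⟨?_, ?_⟩
    · exact (Complex.continuous_ofReal.tendsto _).mono_left nhdsWithin_le_nhds
    · refine Filter.eventually_of_mem self_mem_nhdsWithin fun y hy => ?_
      rw [Set.mem_compl_iff, Set.mem_singleton_iff] at hy ⊢
      intro h
      exact hy (Complex.ofReal_injective h)
  have h0 := a1.eqOn_zero_of_preconnected_of_frequently_eq_zero preconn_Lens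
    (real_mem_Lens hy0 (by linarith)) hfr
  intro x hx hx1
  exact h0 (real_mem_Lens hx hx1)

/-- the residue is zero -/
theorem PL_zero (hn : 0 < n) (Ω : Matrix (Fin n) (Fin n) ℂ) (Z : Matrix (Fin n) (Fin n) (PowerSeries ℚ)) (x : ℝ) :
    PL Ω 0 (fun i j => Z i j) x = Ω * evM x Z := by
  have h1 : Pool.Agent.Y119.HY.E (0 : Matrix (Fin n) (Fin n) ℂ) (-((Real.log x : ℝ) : ℂ)) = 1 := by
    unfold Pool.Agent.Y119.HY.E
    rw [Finset.sum_eq_single 0]
    · simp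
    · intro i _ hi
      rw [zero_pow hi, smul_zero]
    · intro h
      exact absurd (Finset.mem_range.2 hn) h
  unfold PL
  rw [h1, Matrix.mul_one]
  rfl

/-- **the Galois group contains the isometries** -/
theorem gal_inf (hC : S_CONT) (hR : S_ROOT) (hP : S_PGR) (h : OD n Q γ) (hd : d ≠ 0)
    (haa : ∀ j, (aa j : ℚ) = d * γ j) {Ω g κ : Matrix (Fin n) (Fin n) ℂ} {x₀ : ℝ} (hx₀ : 1 ≤ x₀)
    (hκ : κᵀ * cm (P0 n Q γ) * κ = cm (P0 n Q γ)) (hg : Ω * gᵀ = κ * Ω) :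
    GalL Ωᵀ 0 (fun i j => Zz n Q γ d hd aa i j) x₀ g := by
  have hn : 0 < n := by have := h.qd.two; omega
  have hPL : ∀ x : ℝ, 1 < x → PL Ωᵀ 0 (fun i j => Zz n Q γ d hd aa i j) x =
      ((Yi n Q γ (((1 / x ^ d : ℝ)) : ℂ)) * Ω)ᵀ * (cm (g0 γ)⁻¹)ᵀ * Matrix.diagonal fun b => (x : ℂ) ^ (aa b) := by
    intro x hx
    rw [PL_zero hn, Zv_eq hP h hd haa hx, transpose_mul]
    simp only [Matrix.mul_assoc]
  intro F hF x hx
  have h1 : ∀ w : ℝ, 0 < w → w < 1 → MvPolynomial.eval (p4 d (1 / (w : ℂ)) (Yi n Q γ w))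
      (MvPolynomial.aeval (s4 d Ω (cm (g0 γ)⁻¹)ᵀ aa) F) = 0 := by
    refine ext_Yi hP h hd hx₀ fun y hy => ?_
    rw [s4_eval hd _ _ _ (by linarith), ← hPL y (by linarith)]
    exact hF y hy
  have hx1 : 1 < x := by linarith
  have hxd := one_lt_pow' hd hx1
  have h2 := inv_Yi hC hR hP h (Nat.one_le_iff_ne_zero.2 hd) hκ _ h1 (1 / x ^ d) (by positivity)
    (by rw [div_lt_one (by linarith)]; exact hxd)
  have h3 : 1 / (((1 / x ^ d : ℝ)) : ℂ) = ((x ^ d : ℝ) : ℂ) := by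
    push_cast
    rw [one_div_one_div]
  rw [h3, s4_eval hd _ _ _ (by linarith)] at h2
  have h4 : g * PL Ωᵀ 0 (fun i j => Zz n Q γ d hd aa i j) x =
      (Yi n Q γ (((1 / x ^ d : ℝ)) : ℂ) * κ * Ω)ᵀ * (cm (g0 γ)⁻¹)ᵀ * Matrix.diagonal fun b => (x : ℂ) ^ (aa b) := by
    have e1 : (Yi n Q γ (((1 / x ^ d : ℝ)) : ℂ) * κ * Ω)ᵀ = g * (Yi n Q γ (((1 / x ^ d : ℝ)) : ℂ) * Ω)ᵀ := by
      rw [Matrix.mul_assoc, ← hg, ← Matrix.mul_assoc, transpose_mul _ gᵀ, transpose_transpose]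
    rw [hPL x hx1, e1]
    simp only [Matrix.mul_assoc]
  rw [h4]
  exact h2

end Pool.Agent.T44.GO
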