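import Pool.Agent.Y119.HY.Fin2

/-!
# Project GO: hypergeometric families near the point with finite local monodromy. Statements of the stubs

`Q` is an even monic polynomial of even degree `n` with the roots `γ_1, …, γ_n`, `|γ_i - γ_j| < 1`. `A = cm (Am n)`,
`B = cm (Bm n Q)`, `J = cm (Jm n Q)`. The system `Y' = (A / z + B / (1 - z)) Y` has the solution `Yf A (Hc n Q)` on the unit disc. With
`w = 1 / z` it is `Y' = ((B - A) / w + B / (1 - w)) Y`, with the solutions `(-(γ_j + k))^a c_k(γ_j) w^(γ_j + k)`.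

Each stub `X` is to be proved as `theorem Pool.Agent.T44.GO.X.main : Pool.Agent.T44.GO.S_X` in a new file
`Pool/Agent/T44/GO/X.lean`.
-/

set_option autoImplicit false

open Matrix

namespace Pool.Agent.T44.GO

open Pool.Agent.Y119.HY (QD Am Bm Jm cm Hc Yf Lens HD Gm PG)
open Pool.Agent.Y113 (SDc)

/-- the coefficients of the solutions at infinity -/
noncomputable def cc (n : ℕ) (Q : Polynomial ℚ) (γ : ℚ) (k : ℕ) : ℚ :=
  ∏ l ∈ Finset.range k, ((γ + l) ^ n / Q.eval (γ + l + 1))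

/-- the data -/
structure OD (n : ℕ) (Q : Polynomial ℚ) (γ : Fin n → ℚ) : Prop where
  qd : QD n Q
  prod : Q = ∏ j, (Polynomial.X - Polynomial.C (γ j))
  inj : Function.Injective γ
  lt : ∀ i j, γ i - γ j < 1

/-- the unknowns `z^(-1/d)`, `z^(1/d)`, `log z` and the entries of a matrix -/
noncomputable def p4 {n : ℕ} (d : ℕ) (z : ℂ) (M : Matrix (Fin n) (Fin n) ℂ) (o : Option (Option (Option (Fin n × Fin n)))) : ℂ :=
  o.elim (Complex.exp (-(Complex.log z / d))) fun o => o.elim (Complex.exp (Complex.log z / d)) fun o =>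
    o.elim (Complex.log z) fun p => M p.1 p.2

/-- **SDC** (arithmetic; G-function condition). Proof. `Q(γ_j + l + 1) = ∏_i (γ_j - γ_i + l + 1)` and `δ = 1 + γ_j - γ_i > 0`, so
`cc` is the product over `i` of `r_k = ∏_{l < k} (γ + l) / (δ + l) = ((γ)_k / k!) * (k! / (δ)_k)`. For the first factor use
`Pool.Agent.Y119.HY.poch_int` (Y119/HY/Ari.lean). For the second: `k! / (δ (δ + 1) ⋯ (δ + k)) = ∑_{i ≤ k} (-1)^i choose(k, i) / (δ + i)`
(induction), so for `δ = a / b` it becomes integral after multiplication with `lcm (1, …, |a| + b k)`, which is `≤ C^(k + 1)`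
(see how Y119/HY/Ari.lean bounds the lcm in `hq_den`). All factors are bounded in absolute value, which gives the growth. Combine with
`sdc_of` (Y119/HY/Ari.lean). The factor `(-(γ_j + k))^a` is harmless. -/
def S_SDC : Prop := ∀ (n : ℕ) (Q : Polynomial ℚ) (γ : Fin n → ℚ), OD n Q γ → ∀ (a : ℕ) (j : Fin n),
  SDc (PowerSeries.mk fun k => (-(γ j + k)) ^ a * cc n Q (γ j) k)

/-- **PGR** (polynomial growth). Proof. `|cc (k + 1)| ≤ (1 + p / (k + 1)) |cc k|` for large `k` and some `p`, as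
`(γ + k)^n / ∏_i (γ - γ_i + k + 1) = 1 + O(1 / k)`, and `(1 + p / (k + 1)) (k + 1)^p ≤ (k + 2)^p`. -/
def S_PGR : Prop := ∀ (n : ℕ) (Q : Polynomial ℚ) (γ : Fin n → ℚ), OD n Q γ → ∀ (a : ℕ) (j : Fin n),
  PG fun k => (((-(γ j + k)) ^ a * cc n Q (γ j) k : ℚ) : ℂ)

/-- **ROOT**. Relations over `ℂ[z^(1/d), z^(-1/d)]`. Proof. Put `z = u^d`, `u ∈ (0, 1)`. First multiply by a power of `u` to get a
polynomial `F₁(u, log z, Y)` without negative powers (induction on `F`). Write `Yf(z) = Hf(z) E A (log z)`. By `PA.log_zero` (HY/Log.lean; in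
the variable `u` with `log z = d log u`, see the proof of `mono_zero` in HY/Gal.lean) one has
`F₁(u, d L, Hf(u^d) * E A (d L) * C) = 0` for ALL `u` in the unit disc and all `L ∈ ℂ`. Write `F₁ = ∑_{j < d} u^j F_j(u^d, L, Y)` with polynomials
`F_j` (induction on `F₁`). Replace `u` by `ζ u` for the `d`-th roots of unity `ζ` (the arguments of the `F_j` do not change) and get
`u^j F_j(u^d, ..) = 0` for every `j` (sum over `ζ` of `ζ^(-j)` times the equation). So for every `j` the polynomial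
`F_j(z, log z, Y * C)` is in `Rel (Yf ..)`, and `hyp_invar` (HY/Data2.lean) applied to `κ` gives `F_j(z, log z, Yf * κ * C) = 0`.
Sum over `j`. -/
def S_ROOT : Prop := ∀ (n : ℕ) (Q : Polynomial ℚ), QD n Q → ∀ d : ℕ, 1 ≤ d → ∀ C κ : Matrix (Fin n) (Fin n) ℂ,
  κᵀ * cm (Jm n Q) * κ = cm (Jm n Q) → ∀ F : MvPolynomial (Option (Option (Option (Fin n × Fin n)))) ℂ,
  (∀ z : ℝ, 0 < z → z < 1 → MvPolynomial.eval (p4 d (z : ℂ) (Yf (cm (Am n)) (Hc n Q) (z : ℂ) * C)) F = 0) →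
  ∀ z : ℝ, 0 < z → z < 1 → MvPolynomial.eval (p4 d (z : ℂ) (Yf (cm (Am n)) (Hc n Q) (z : ℂ) * κ * C)) F = 0

/-- **CONT**. Analytic continuation around `z = 1` through the upper half plane. Proof. Let `K` be the solution at `1`
(`Sol (-B) (-A) K`, `exists_sol`), `Z(z) = Yf (-B) K (1 - z)`. By `connect` (HY/Gal.lean) `Yf A H z = Z z * M` on `Lens`. `Z` solves
`Z' = Gm A B z * Z` on `U = {‖1 - z‖ < 1, Im z > 0}` (convex, `1 - z ∈ slitPlane`), and `Zᵀ J Z` is constant on `U` (`pair_HD`) and equal to `J`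
at `(1 + i) / 2 ∈ Lens ∩ U` (`self_pair`). On the convex set `V = {‖1 - z‖ < 1, Im z > 0, Re z > 1}` one has `1 / z ∈ Lens` and
`z ↦ D (1 / z)` solves the same system, so `Z(z)ᵀ J D(1/z)` is constant, equal to `W`, and `D (1/z) = Z z * (J⁻¹ W)` on `V`. Put
`C = M⁻¹ J⁻¹ W`. `Dᵀ J D` is constant on `Lens`, so equal to `Cᵀ J C`. (⇒) `w ↦ eval (p4 d (1/w) (D w)) F` is analytic on `Lens`
(convex, in the slit plane) and vanishes on `(0, 1)`, so on `Lens`; so `z ↦ eval (p4 d z (Z z * J⁻¹ W)) F`, analytic on `U`, vanishes on `V`, so on `U`; on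
`U ∩ Lens` it is `eval (p4 d z (Yf z * C)) F`, which is analytic on `Lens`, so it vanishes on `Lens ⊇ (0, 1)`. (⇐) The same backwards. -/
def S_CONT : Prop := ∀ (n : ℕ) (Q : Polynomial ℚ), QD n Q → ∀ D : ℂ → Matrix (Fin n) (Fin n) ℂ,
  (∀ w ∈ Lens, HD D (Gm (cm (Bm n Q) - cm (Am n)) (cm (Bm n Q)) w * D w) w) →
  ∃ C : Matrix (Fin n) (Fin n) ℂ, (∀ w ∈ Lens, (D w)ᵀ * cm (Jm n Q) * D w = Cᵀ * cm (Jm n Q) * C) ∧
    ∀ (d : ℕ) (F : MvPolynomial (Option (Option (Option (Fin n × Fin n)))) ℂ),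
      (∀ w : ℝ, 0 < w → w < 1 → MvPolynomial.eval (p4 d (1 / (w : ℂ)) (D w)) F = 0) ↔
      ∀ z : ℝ, 0 < z → z < 1 → MvPolynomial.eval (p4 d (z : ℂ) (Yf (cm (Am n)) (Hc n Q) (z : ℂ) * C)) F = 0

/-- **FEW**. A period matrix `(diag ω * V)ᵀ` with algebraic `V` has few periods. Proof. Put `D = diag ω`. From
`Vᵀ D P D V = c B` follows `ω_i P_ij ω_j = c * algebraic`. For every `i` there is `j` with `P_ij ≠ 0`, so `γ_j = -γ_i` (so `j = i'` is unique,
`γ_i ≠ 0`) and `ω_i ω_i' = c * algebraic`. The set `{i | 0 < γ_i}` has `m` elements; choose `i₀` in it, `λ = ω_i₀`, and let the numbers `θ`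
be `c / λ²` (for `i₀`) and `ω_i / λ` for the other `i` with `γ_i > 0`. -/
def S_FEW : Prop := ∀ (m : ℕ), 1 ≤ m → ∀ (γ : Fin (2 * m) → ℚ), Function.Injective γ → (∀ i, γ i ≠ 0) →
  (∀ i, ∃ j, γ j = -γ i) → ∀ (ω : Fin (2 * m) → ℂ), (∀ i, ω i ≠ 0) → ∀ (V B P : Matrix (Fin (2 * m)) (Fin (2 * m)) ℂ) (c : ℂ),
  (∀ i j, IsAlgebraic ℚ (V i j)) → (∀ i j, IsAlgebraic ℚ (B i j)) → (∀ i j, IsAlgebraic ℚ (P i j)) →
  (∀ i j, P i j ≠ 0 → γ i + γ j = 0) → P.det ≠ 0 → V.det ≠ 0 → c ≠ 0 →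
  (Matrix.diagonal ω * V)ᵀ * P * (Matrix.diagonal ω * V) = c • B →
  ∃ (θ : Fin m → ℂ) (lam : ℂ), lam ≠ 0 ∧ ∀ i j, IsAlgebraic (IntermediateField.adjoin ℚ (Set.range θ)) ((Matrix.diagonal ω * V)ᵀ i j / lam)

end Pool.Agent.T44.GO
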